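import Pool.Agent.J4.H45.MT.Conv

/-!
# Final forms of the theorems about the zeros of Hardy's function
-/

open Complex Filter Topology Set MeasureTheory
open scoped BigOperators ComplexConjugate

namespace Pool.Agent.J4.H45.MT

open H370 Pool.Agent.N802 Pool.Agent.N802.U
open Pool.Agent.W54.TCF (Z mlt)

/-- sums over zeros of `Z` as sums over zeros of zeta -/
lemma conv2 (W : Finset ℂ) (A : Set ℝ) (hA : ∀ t ∈ A, Z t = 0 ∧ (⟨1 / 2, t⟩ : ℂ) ∈ W)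
    (f : ℝ → ℝ) : ∃ B : Finset ℂ, (∀ s, s ∈ B ↔ s ∈ W ∧ s.re = 1 / 2 ∧ s.im ∈ A) ∧
      ∑ᶠ t ∈ A, (mlt t : ℝ) * f t =
        ∑ s ∈ B, (analyticOrderNatAt riemannZeta s : ℝ) * f s.im := by
  classical
  exact ⟨W.filter (fun s => s.re = 1 / 2 ∧ s.im ∈ A), fun _ => Finset.mem_filter,
    (conv W A hA f).2⟩

/-- the zeros of `Z` in `(T₁, T₂]` -/
def zs (T₁ T₂ : ℝ) : Set ℝ := {t : ℝ | T₁ < t ∧ t ≤ T₂ ∧ Z t = 0}

/-- the number of zeros of `Z` with distance at most `1 / log T` from `t` -/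
noncomputable def nr (T t : ℝ) : ℝ :=
  ∑ᶠ u ∈ {u : ℝ | |u - t| ≤ 1 / Real.log T ∧ Z u = 0}, (mlt u : ℝ)

lemma inv_log {T : ℝ} (hT : 60 ≤ T) : 0 < 1 / Real.log T ∧ 1 / Real.log T ≤ 1 := by
  have hL : 1 ≤ Real.log T := by
    rw [Real.le_log_iff_exp_le (by linarith)]
    have := Real.exp_one_lt_d9
    linarith
  exact ⟨by positivity, by rw [div_le_one (by linarith)]; exact hL⟩

lemma nr_eq (hRH : RiemannHypothesis) {T t : ℝ} (hT : 60 ≤ T) (ht : T < t) :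
    nr T t = nz (1 / Real.log T) t := by
  classical
  obtain ⟨h0, h1⟩ := inv_log hT
  set h := 1 / Real.log T with hh
  obtain ⟨B, hB, e1⟩ := conv2 (Zf riemannZeta 1 (t + h)) {u : ℝ | |u - t| ≤ h ∧ Z u = 0}
    (fun u hu => by
      refine ⟨hu.2, ?_⟩
      rw [mem_Zf good_zeta le_rfl]
      have := abs_le.1 hu.1
      exact ⟨by norm_num, by norm_num, by show 1 < u; linarith, by show u ≤ t + h; linarith,
        Z_half.1 hu.2⟩) (fun _ => 1)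
  simp only [mul_one] at e1
  unfold nr
  rw [e1, nz_eq (a := 1) (b := t + h) le_rfl (by linarith) le_rfl]
  unfold na
  refine Finset.sum_congr ?_ fun _ _ => rfl
  ext s
  rw [hB, Finset.mem_filter]
  constructor
  · rintro ⟨g1, g2, g3⟩
    exact ⟨g1, g3.1⟩
  · rintro ⟨g1, g2⟩
    have g3 := (mem_Zf good_zeta le_rfl).1 g1
    have g4 : s.re = 1 / 2 := online hRH s g3.1 g3.2.1 g3.2.2.2.2 (by linarith [g3.2.2.1])
    refine ⟨g1, g4, g2, Z_half.2 ?_⟩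
    have g5 : (⟨1 / 2, s.im⟩ : ℂ) = s := Complex.ext g4.symm rfl
    rw [g5]
    exact g3.2.2.2.2

lemma zs_mem {T₁ T₂ t : ℝ} (h : 1 ≤ T₁) (ht : t ∈ zs T₁ T₂) :
    Z t = 0 ∧ (⟨1 / 2, t⟩ : ℂ) ∈ Zf riemannZeta T₁ T₂ := by
  refine ⟨ht.2.2, ?_⟩
  rw [mem_Zf good_zeta h]
  exact ⟨by norm_num, by norm_num, ht.1, ht.2.1, Z_half.1 ht.2.2⟩

lemma zs_mem0 {T t : ℝ} (ht : t ∈ zs 0 T) :
    Z t = 0 ∧ (⟨1 / 2, t⟩ : ℂ) ∈ (zeta_zeros_finite T).toFinset := by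
  refine ⟨ht.2.2, ?_⟩
  rw [Set.Finite.mem_toFinset]
  exact ⟨by norm_num, by norm_num, ht.1, ht.2.1, Z_half.1 ht.2.2⟩

lemma zs_finite (T : ℝ) : (zs 0 T).Finite :=
  (conv (zeta_zeros_finite T).toFinset (zs 0 T) (fun _ ht => zs_mem0 ht) (fun _ => 1)).1

/-- the tail, for the zeros of `Z` with many neighbours among the zeros of zeta -/
lemma tail_z {δ T0 : ℝ} {φ : ℝ → ℝ} (hT0 : 60 ≤ T0) (hW : Wt δ T0 φ) {T : ℝ} (hT : T0 ≤ T)
    {K : ℝ} (hK1 : T ^ (1 - δ) ≤ K) (hK2 : K ≤ T / 2) {S : Finset ℕ} (hS : Len S (T ^ δ))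
    (r : ℕ → ℂ) {j : ℝ} (hj : 1 ≤ j) (A : Set ℝ) (hA : A ⊆ zs T (T + K))
    (hAj : ∀ t ∈ A, j ≤ nz (1 / Real.log T) t) :
    ∑ᶠ t ∈ A, (mlt t : ℝ) * ‖RP S r t‖ ^ 2 ≤ φ j * (K * Real.log T * w1 S r) := by
  classical
  have h1 : 1 ≤ T := by linarith
  rw [(conv (Zf riemannZeta T (T + K)) A (fun t ht => zs_mem h1 (hA ht))
    (fun t => ‖RP S r t‖ ^ 2)).2]
  refine hW T hT K hK1 hK2 S hS r j hj _ fun s hs => ?_
  rw [Finset.mem_filter, mem_Zf good_zeta h1] at hs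
  obtain ⟨⟨g1, g2, g3, g4, g5⟩, g6, g7⟩ := hs
  exact ⟨g5, g1, g2, g3, g4, hAj _ g7⟩

/-- the multiplicity is at most the number of neighbours -/
lemma mlt_le_nz {T t : ℝ} (hT : 60 ≤ T) (ht : T < t) (hZ : Z t = 0) :
    mlt t ≤ nz (1 / Real.log T) t := by
  obtain ⟨h0, h1⟩ := inv_log hT
  rw [mlt_half hZ]
  exact order_le_nz (s := ⟨1 / 2, t⟩) (h := 1 / Real.log T) h0.le (Z_half.1 hZ) (by norm_num)
    (by norm_num) (by show 1 < t - 1 / Real.log T; linarith)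

/-- small heights -/
lemma fj_small {ψ : ℝ → ℝ} (hψ : ∀ x, 0 < ψ x) (hψa : ∀ x y, 1 ≤ x → x ≤ y → ψ y ≤ ψ x) (V : ℝ) :
    ∃ C : ℝ, 0 < C ∧ ∀ j : ℕ, 1 ≤ j → fj j V ≤ C * ψ j := by
  classical
  set F0 := fj 1 V + 1 with hF0
  have hF : 1 ≤ F0 := by
    have := fj_nonneg 1 V
    linarith
  have hψF := hψ F0
  refine ⟨F0 / ψ F0, by positivity, fun j hj => ?_⟩
  have h1 : fj j V ≤ fj 1 V := by
    unfold fj
    refine Finset.sum_le_sum_of_subset_of_nonneg (fun s hs => ?_) fun _ _ _ => Nat.cast_nonneg _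
    rw [Finset.mem_filter] at hs ⊢
    exact ⟨hs.1, hj.trans hs.2⟩
  by_cases h0 : fj j V = 0
  · rw [h0]
    have := hψ j
    positivity
  · have h2 : ∃ s ∈ (zeta_zeros_finite V).toFinset.filter
        (fun s => j ≤ analyticOrderNatAt riemannZeta s), True := by
      by_contra hc
      push Not at hc
      apply h0
      unfold fj
      refine Finset.sum_eq_zero fun s hs => ?_
      exact (hc s hs).elim
    obtain ⟨s, hs, -⟩ := h2
    have h3 : (j : ℝ) ≤ F0 := by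
      have hs' := (Finset.mem_filter.1 hs).2
      have h4 : (analyticOrderNatAt riemannZeta s : ℝ) ≤ fj j V := by
        unfold fj
        exact Finset.single_le_sum (f := fun s => (analyticOrderNatAt riemannZeta s : ℝ))
          (fun _ _ => Nat.cast_nonneg _) hs
      have h5 : (j : ℝ) ≤ analyticOrderNatAt riemannZeta s := by exact_mod_cast hs'
      linarith
    have h6 := hψa j F0 (by exact_mod_cast hj) h3
    calc fj j V ≤ F0 := by linarith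
      _ = F0 / ψ F0 * ψ F0 := by field_simp
      _ ≤ F0 / ψ F0 * ψ j := by gcongr

/-- all heights, tails -/
lemma fj_total {δ T0 C : ℝ} {ψ : ℝ → ℝ} (hδ : 0 < δ) (hδ1 : δ ≤ 1) (hT0 : 60 ≤ T0) (hC : 0 < C)
    (hψ : ∀ x, 0 < ψ x) (hψa : ∀ x y, 1 ≤ x → x ≤ y → ψ y ≤ ψ x)
    (hW : Wt δ T0 (fun x => C * ψ x)) :
    ∃ C' : ℝ, 0 < C' ∧ ∀ j : ℕ, 1 ≤ j → ∀ T : ℝ, 2 ≤ T → fj j T ≤ C' * ψ j * (T * Real.log T) := by
  obtain ⟨V1, hV1, h1⟩ := fj_all hδ hδ1 hT0 (fun x => (mul_pos hC (hψ x)).le) hW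
  obtain ⟨C1, hC1, h2⟩ := fj_small hψ hψa V1
  refine ⟨C1 + C, by positivity, fun j hj T hT => ?_⟩
  have h3 := h1 j hj T hT
  have h4 := h2 j hj
  have h5 : 1 ≤ T * Real.log T := by
    have h6 := Real.log_le_log (by norm_num) hT
    have h7 := Real.log_two_gt_d9
    nlinarith
  have h8 : 0 < C1 * ψ j := mul_pos hC1 (hψ j)
  calc fj j T ≤ C1 * ψ j + C * ψ j * (T * Real.log T) := by linarith
    _ ≤ C1 * ψ j * (T * Real.log T) + C * ψ j * (T * Real.log T) := by nlinarith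
    _ = _ := by ring

/-- all heights, tails, for the zeros of `Z` -/
lemma tail_all {C' : ℝ} {ψ : ℝ → ℝ} (h : ∀ j : ℕ, 1 ≤ j → ∀ T : ℝ, 2 ≤ T →
    fj j T ≤ C' * ψ j * (T * Real.log T)) {j : ℕ} (hj : 1 ≤ j) {T : ℝ} (hT : 2 ≤ T) :
    ∑ᶠ t ∈ {t : ℝ | t ∈ zs 0 T ∧ j ≤ mlt t}, (mlt t : ℝ) ≤ C' * ψ j * (T * Real.log T) := by
  classical
  refine le_trans ?_ (h j hj T hT)
  obtain ⟨B, hB, e⟩ := conv2 (zeta_zeros_finite T).toFinset {t : ℝ | t ∈ zs 0 T ∧ j ≤ mlt t}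
    (fun _ ht => zs_mem0 ht.1) (fun _ => 1)
  simp only [mul_one] at e
  rw [e]
  unfold fj
  refine Finset.sum_le_sum_of_subset_of_nonneg (fun s hs => ?_) fun _ _ _ => Nat.cast_nonneg _
  rw [hB] at hs
  rw [Finset.mem_filter]
  obtain ⟨g1, g2, g3, g4⟩ := hs
  refine ⟨g1, ?_⟩
  rw [mlt_half g3.2.2] at g4
  have h3 : (⟨1 / 2, s.im⟩ : ℂ) = s := Complex.ext g2.symm rfl
  rw [h3] at g4
  exact g4

lemma order_pos {s : ℂ} (hs1 : s ≠ 1) (h : riemannZeta s = 0) :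
    1 ≤ analyticOrderNatAt riemannZeta s := by
  have h2 := order_fin hs1
  have han : AnalyticAt ℂ riemannZeta s := Pool.Agent.W54.TCF.zeta_analytic hs1
  have h3 : analyticOrderAt riemannZeta s ≠ 0 := by
    rw [ne_eq, han.analyticOrderAt_eq_zero]
    simpa using h
  rw [Nat.one_le_iff_ne_zero]
  intro h4
  apply h3
  have h5 := Nat.cast_analyticOrderNatAt h2
  rw [h4] at h5
  rw [← h5]
  rfl

/-- all heights, exponential moments of the multiplicities of the zeros of `Z` -/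
lemma exp_all {C' : ℝ} {ψ : ℝ → ℝ} (hC' : 0 < C') (hψ : ∀ x, 0 < ψ x)
    (h : ∀ j : ℕ, 1 ≤ j → ∀ T : ℝ, 2 ≤ T → fj j T ≤ C' * ψ j * (T * Real.log T)) {lam : ℝ}
    (hs : Summable fun i : ℕ => Real.exp (lam * i) * (C' * ψ i)) {T : ℝ} (hT : 2 ≤ T) :
    ∑ᶠ t ∈ zs 0 T, (mlt t : ℝ) * Real.exp (lam * mlt t) ≤
      (∑' i : ℕ, Real.exp (lam * i) * (C' * ψ i)) * (T * Real.log T) := by
  classical
  have hTl : 0 ≤ T * Real.log T := by
    have := Real.log_nonneg (show 1 ≤ T by linarith)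
    positivity
  have h1 := layer (zeta_zeros_finite T).toFinset
    (fun s => (analyticOrderNatAt riemannZeta s : ℝ))
    (fun s => analyticOrderNatAt riemannZeta s) (fun s _ => Nat.cast_nonneg _) (fun s hs => by
      rw [Set.Finite.mem_toFinset] at hs
      refine order_pos ?_ hs.2.2.2.2
      rintro rfl
      have := hs.2.1
      simp at this) (A := T * Real.log T) (lam := lam) (φ := fun i => C' * ψ i)
    (fun i => (mul_pos hC' (hψ i)).le) hTl (fun i hi => h i hi T hT) hs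
  refine le_trans ?_ h1
  rw [(conv (zeta_zeros_finite T).toFinset (zs 0 T) (fun _ ht => zs_mem0 ht)
    (fun t => Real.exp (lam * mlt t))).2]
  have e : ∑ s ∈ (zeta_zeros_finite T).toFinset.filter (fun s => s.re = 1 / 2 ∧ s.im ∈ zs 0 T),
      (analyticOrderNatAt riemannZeta s : ℝ) * Real.exp (lam * mlt s.im) =
      ∑ s ∈ (zeta_zeros_finite T).toFinset.filter (fun s => s.re = 1 / 2 ∧ s.im ∈ zs 0 T),
      (analyticOrderNatAt riemannZeta s : ℝ) *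
        Real.exp (lam * (analyticOrderNatAt riemannZeta s)) := by
    refine Finset.sum_congr rfl fun s hs => ?_
    rw [Finset.mem_filter] at hs
    have h3 : (⟨1 / 2, s.im⟩ : ℂ) = s := Complex.ext hs.2.1.symm rfl
    rw [mlt_half hs.2.2.2.2, h3]
  rw [e]
  exact Finset.sum_le_sum_of_subset_of_nonneg (Finset.filter_subset _ _) fun _ _ _ => by positivity

/-- exponential moments in every weight, for the zeros of `Z` -/
lemma exp_z {δ T0 : ℝ} {φ : ℝ → ℝ} (hT0 : 60 ≤ T0) (hφ : ∀ x, 0 ≤ φ x) (hW : Wt δ T0 φ)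
    {lam : ℝ} (hs : Summable fun i : ℕ => Real.exp (lam * i) * φ i) {T : ℝ} (hT : T0 ≤ T)
    {K : ℝ} (hK1 : T ^ (1 - δ) ≤ K) (hK2 : K ≤ T / 2) {S : Finset ℕ} (hS : Len S (T ^ δ))
    (r : ℕ → ℂ) : ∑ᶠ t ∈ zs T (T + K), (mlt t : ℝ) *
      (Real.exp (lam * nz (1 / Real.log T) t) * ‖RP S r t‖ ^ 2) ≤
      (∑' i : ℕ, Real.exp (lam * i) * φ i) * (K * Real.log T * w1 S r) := by
  classical
  have h1 : 1 ≤ T := by linarith
  rw [(conv (Zf riemannZeta T (T + K)) (zs T (T + K)) (fun t ht => zs_mem h1 ht)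
    (fun t => Real.exp (lam * nz (1 / Real.log T) t) * ‖RP S r t‖ ^ 2)).2]
  refine wt_exp hT0 hφ hW hs T hT K hK1 hK2 S hS r _ fun s hs => ?_
  rw [Finset.mem_filter, mem_Zf good_zeta h1] at hs
  obtain ⟨⟨g1, g2, g3, g4, g5⟩, -⟩ := hs
  exact ⟨g5, g1, g2, g3, g4⟩

lemma psi_rh {c : ℝ} (hc : 0 < c) (x y : ℝ) (hx : 1 ≤ x) (hxy : x ≤ y) :
    Real.exp (-(c * (y * Real.log y))) ≤ Real.exp (-(c * (x * Real.log x))) := by
  apply Real.exp_le_exp.2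
  have := mul_le_mul_of_nonneg_left (jlogj_mono hx hxy) hc.le
  linarith

lemma RP_eq {S : Finset ℕ} {N : ℝ} (hS : ∀ n ∈ S, 1 ≤ n ∧ (n : ℝ) ≤ N) (r : ℕ → ℂ) (t : ℝ) :
    ∑ n ∈ S, r n * (n : ℂ) ^ (-(I * t)) = RP S r t := by
  unfold RP TP
  refine Finset.sum_congr rfl fun n hn => ?_
  have hn0 : (n : ℂ) ≠ 0 := by
    have := (hS n hn).1
    exact_mod_cast (by omega : n ≠ 0)
  congr 1
  unfold mn
  rw [Complex.cpow_def_of_ne_zero hn0, ← Complex.natCast_log]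
  congr 1
  rw [Nat.cast_one, Real.log_one]
  push_cast
  ring

end Pool.Agent.J4.H45.MT
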