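import Pool.Agent.N802.WD.One6
import Pool.Agent.J4.H45.MT.Zero

/-!
# The two theorems for a general `F`
-/

open Complex Filter Topology Set MeasureTheory
open scoped BigOperators ComplexConjugate

namespace Pool.Agent.J4.H45.MT

open H370 Pool.Agent.N802 Pool.Agent.N802.U
open Pool.Agent.N802.WD (EA dk S_ew EA_nonneg EA_cont)

/-- the choice of the number of factors -/
lemma num {C : ℝ} (hC : 1 ≤ C) : ∃ c J0 : ℝ, 0 < c ∧ 1024 * C ≤ J0 ∧ ∀ j : ℝ, J0 ≤ j →
    ∃ k : ℕ, 1 ≤ k ∧ 32 * (k : ℝ) ≤ j / (4 * C) ∧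
      j * (9 * C ^ 3 * (j / (4 * C)) / j ^ 2) ^ k ≤ Real.exp (-(c * (j * Real.log j))) := by
  have hC0 : 0 < C := by linarith
  set D : ℝ := 9 / 4 * C ^ 2 with hD
  have hD0 : 0 < D := by positivity
  refine ⟨1 / (1024 * C), max (1024 * C) (D ^ 2), by positivity, le_max_left _ _, fun j hj => ?_⟩
  have hj1 : 1024 * C ≤ j := (le_max_left _ _).trans hj
  have hj2 : D ^ 2 ≤ j := (le_max_right _ _).trans hj
  have hj0 : 0 < j := by linarith
  have hj3 : 1 ≤ j := by linarith
  have hlog : 0 ≤ Real.log j := Real.log_nonneg hj3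
  have hx : 0 ≤ j / (128 * C) := by positivity
  have hx1 : 8 ≤ j / (128 * C) := by
    rw [le_div_iff₀ (by positivity)]
    linarith
  refine ⟨⌊j / (128 * C)⌋₊, ?_, ?_, ?_⟩
  · exact Nat.le_floor (by push_cast; linarith)
  · have h1 := Nat.floor_le hx
    have h2 : j / (4 * C) = 32 * (j / (128 * C)) := by
      field_simp
      norm_num
    rw [h2]
    linarith
  · set k := ⌊j / (128 * C)⌋₊ with hk
    have h1 : 9 * C ^ 3 * (j / (4 * C)) / j ^ 2 = D / j := by
      rw [hD]
      field_simp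
    rw [h1]
    have h2 : D ≤ Real.exp (Real.log j / 2) := by
      have h3 : Real.exp (Real.log j / 2) ^ 2 = j := by
        rw [← Real.exp_nat_mul]
        rw [show ((2 : ℕ) : ℝ) * (Real.log j / 2) = Real.log j by push_cast; ring,
          Real.exp_log hj0]
      exact (abs_le_of_sq_le_sq' (by rw [h3]; exact hj2) (Real.exp_pos _).le).2
    have h4 : D / j ≤ Real.exp (-(Real.log j / 2)) := by
      rw [div_le_iff₀ hj0]
      have h5 : Real.exp (-(Real.log j / 2)) * j = Real.exp (Real.log j / 2) := by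
        nth_rw 2 [← Real.exp_log hj0]
        rw [← Real.exp_add]
        congr 1
        ring
      rw [h5]
      exact h2
    have h6 : (D / j) ^ k ≤ Real.exp (-(k * (Real.log j / 2))) := by
      calc (D / j) ^ k ≤ Real.exp (-(Real.log j / 2)) ^ k :=
            pow_le_pow_left₀ (by positivity) h4 k
        _ = _ := by
            rw [← Real.exp_nat_mul]
            congr 1
            ring
    have h7 : j / (256 * C) ≤ k := by
      have h8 := Nat.lt_floor_add_one (j / (128 * C))
      rw [← hk] at h8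
      have h9 : j / (128 * C) = 2 * (j / (256 * C)) := by
        field_simp
        norm_num
      rw [h9] at h8 hx1
      linarith
    calc j * (D / j) ^ k ≤ j * Real.exp (-(k * (Real.log j / 2))) := by gcongr
      _ = Real.exp (Real.log j - k * (Real.log j / 2)) := by
          nth_rw 1 [← Real.exp_log hj0]
          rw [← Real.exp_add]
          congr 1
      _ ≤ _ := by
          apply Real.exp_le_exp.2
          have h10 : j / (256 * C) * (Real.log j / 2) ≤ k * (Real.log j / 2) := by gcongr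
          have h11 : Real.log j ≤ 1 / (1024 * C) * (j * Real.log j) := by
            have : 1 ≤ j / (1024 * C) := by
              rw [le_div_iff₀ (by positivity)]
              linarith
            calc Real.log j = 1 * Real.log j := (one_mul _).symm
              _ ≤ j / (1024 * C) * Real.log j := by gcongr
              _ = _ := by ring
          have h12 : j / (256 * C) * (Real.log j / 2) =
              2 * (1 / (1024 * C) * (j * Real.log j)) := by
            field_simp
            ring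
          linarith

lemma jlogj_mono {x y : ℝ} (h1 : 1 ≤ x) (h2 : x ≤ y) : x * Real.log x ≤ y * Real.log y := by
  have h3 : Real.log x ≤ Real.log y := Real.log_le_log (by linarith) h2
  have h4 : 0 ≤ Real.log x := Real.log_nonneg h1
  exact mul_le_mul h2 h3 h4 (by linarith)

lemma mr_nonneg' {H : ℝ} (hH : 0 ≤ H) (S : Finset ℕ) (r : ℕ → ℂ) : 0 ≤ mr H S r := by
  unfold mr
  have := w1_nonneg S r
  positivity

/-- all zeros on the line -/
def OnLine (F : ℂ → ℂ) : Prop := ∀ s : ℂ, 0 < s.re → s.re < 1 → F s = 0 → 0 < s.im → s.re = 1 / 2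

/-- **Gaussian averages, under the Riemann hypothesis** -/
theorem avg_rh {F : ℂ → ℂ} (hF : GoodL F) (hef : S_ef F) (hch : S_ch) (hRH : OnLine F) :
    ∃ c C T0 : ℝ, 0 < c ∧ 0 < C ∧ 30 ≤ T0 ∧ ∀ j : ℝ, 1 ≤ j →
    ∀ T : ℝ, T0 ≤ T → ∀ S : Finset ℕ, Len S (T ^ (1 / 16 : ℝ)) → ∀ (r : ℕ → ℂ) (τ H : ℝ),
      T ^ (1 - 1 / 16 : ℝ) ≤ H → ∀ Z : Finset ℂ, Z ⊆ Zf F T (2 * T) →
      (∀ s ∈ Z, j ≤ na F T (2 * T) (1 / Real.log T) s.im) →
      ∫ t in (T + Real.log T)..(2 * T - Real.log T), rh τ H S r t *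
        gz F Z (1 / Real.log T) t ≤ (C * Real.exp (-(c * (j * Real.log j)))) * mr H S r := by
  obtain ⟨C0, T1, hC0, hT1, hcore⟩ := core_gen hF hef hch
  obtain ⟨c, J0, hc, hJ0, hnum⟩ := num hC0
  refine ⟨c, 32 * C0 * Real.exp (c * (J0 * Real.log J0)) + 2, max T1 (Real.exp 32), hc,
    by positivity, hT1.trans (le_max_left _ _), fun j hj1 T hT S hS r τ H hH Z hZ hjZ => ?_⟩
  have hT1' : T1 ≤ T := (le_max_left _ _).trans hT
  have hT2 : Real.exp 32 ≤ T := (le_max_right _ _).trans hT
  have hTp : 0 < T := by linarith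
  have hL : 32 ≤ Real.log T := by
    rw [Real.le_log_iff_exp_le hTp]
    exact hT2
  obtain ⟨U1, U2, hU1, hU1', hU2', hU2, hcore⟩ := hcore T hT1'
  have hH' : T ^ (7 / 8 : ℝ) ≤ H :=
    (Real.rpow_le_rpow_of_exponent_le (by linarith) (by norm_num)).trans hH
  have hH0 : 0 < H := lt_of_lt_of_le (by positivity) hH'
  have hM := mr_nonneg' hH0.le S r
  obtain ⟨hz, hcore⟩ := hcore S hS r τ H hH' Z hZ j (by linarith) hjZ
  have hFS : ∀ q : ℝ, ∫ t in (T + Real.log T)..(2 * T - Real.log T), rh τ H S r t *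
      FS F U1 U2 (Real.log T / q) t ≤ 0 * mr H S r := by
    intro q
    have : ∀ t, rh τ H S r t * FS F U1 U2 (Real.log T / q) t = 0 := fun t => by
      rw [FS_zero hF (by linarith) hRH, mul_zero]
    simp_rw [this]
    simp
  by_cases hjJ : j < J0
  · obtain ⟨h1, -⟩ := hcore 32 le_rfl hL 0 (hFS 32)
    refine h1.trans (mul_le_mul_of_nonneg_right ?_ hM)
    have h2 : 1 ≤ Real.exp (c * (J0 * Real.log J0)) * Real.exp (-(c * (j * Real.log j))) := by
      rw [← Real.exp_add]
      apply Real.one_le_exp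
      have := mul_le_mul_of_nonneg_left (jlogj_mono hj1 hjJ.le) hc.le
      linarith
    have h3 := Real.exp_pos (-(c * (j * Real.log j)))
    calc C0 * (32 + 0) = 32 * C0 * 1 := by ring
      _ ≤ 32 * C0 * (Real.exp (c * (J0 * Real.log J0)) *
          Real.exp (-(c * (j * Real.log j)))) := by gcongr
      _ ≤ _ := by
          rw [add_mul]
          have : 0 < 2 * Real.exp (-(c * (j * Real.log j))) := by positivity
          linarith
  · push Not at hjJ
    have hpos : 0 ≤ (32 * C0 * Real.exp (c * (J0 * Real.log J0)) + 2) *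
        Real.exp (-(c * (j * Real.log j))) := by positivity
    by_cases hjL : C0 * Real.log T < j
    · exact (hz hjL).trans (mul_nonneg hpos hM)
    · push Not at hjL
      obtain ⟨k, hk1, hk2, hk3⟩ := hnum j hjJ
      have hq32 : 32 ≤ j / (4 * C0) := by
        rw [le_div_iff₀ (by positivity)]
        linarith
      have hqL : j / (4 * C0) ≤ Real.log T := by
        rw [div_le_iff₀ (by positivity)]
        nlinarith
      obtain ⟨-, h1⟩ := hcore (j / (4 * C0)) hq32 hqL 0 (hFS _)
      have h2 := h1 k hk1 hk2 (by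
        have : 4 * C0 * (j / (4 * C0)) = j := by field_simp
        rw [this])
      refine h2.trans (mul_le_mul_of_nonneg_right ?_ hM)
      have h4 : 0 ≤ 32 * C0 * Real.exp (c * (J0 * Real.log J0)) *
          Real.exp (-(c * (j * Real.log j))) := by positivity
      rw [add_mul]
      linarith

/-- the far zeros -/
lemma FS_EA {F : ℂ → ℂ} {U1 U2 θ L q t : ℝ} (hθ : 0 < θ) (hL : 0 < L) (hq : 2 / θ ≤ q) :
    FS F U1 U2 (L / q) t ≤ Real.exp (-(θ * eta0 / 2 * q)) *
      EA F U1 U2 θ L (q / L) 0 t := by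
  have hq0 : 0 < q := lt_of_lt_of_le (by positivity) hq
  have hθq : 2 ≤ θ * q := by
    rw [div_le_iff₀ hθ] at hq
    linarith
  rw [FS_eq]
  unfold EA
  rw [Finset.mul_sum]
  refine Finset.sum_le_sum fun s _ => ?_
  have hm : (0 : ℝ) ≤ mult F s := Nat.cast_nonneg _
  have e : dk (q / L) 0 (s.im - t) = ((1 + L / q * |s.im - t|) ^ 2)⁻¹ := by
    unfold dk
    rw [sub_zero, max_eq_right (abs_nonneg _)]
    congr 3
    field_simp
  rw [e]
  split_ifs with h
  · have e2 : Real.exp (-(θ * eta0 / 2 * q)) * ((mult F s : ℝ) *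
        (Real.exp (θ * (|(zz s).im| * L)) * ((1 + L / q * |s.im - t|) ^ 2)⁻¹)) =
        (mult F s : ℝ) * ((Real.exp (-(θ * eta0 / 2 * q)) * Real.exp (θ * (|(zz s).im| * L))) *
          ((1 + L / q * |s.im - t|) ^ 2)⁻¹) := by ring
    rw [e2]
    refine mul_le_mul_of_nonneg_left ?_ hm
    refine mul_le_mul_of_nonneg_right ?_ (by positivity)
    rw [← Real.exp_add]
    apply Real.exp_le_exp.2
    set y := |(zz s).im| with hy
    have hy0 : 0 ≤ y := abs_nonneg _
    have h1 : y * L = y * (L / q) * q := by field_simp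
    have h2 : L / q * y = y * (L / q) := by ring
    rw [h1, h2]
    set Y := y * (L / q) with hY
    have he : 0 < eta0 := by unfold eta0; norm_num
    nlinarith
  · rw [mul_zero]
    have := Real.exp_pos (-(θ * eta0 / 2 * q))
    positivity

/-- **Gaussian averages, unconditionally** -/
theorem avg_un {F : ℂ → ℂ} (hF : GoodL F) (hef : S_ef F) (hch : S_ch) (hew : S_ew F) :
    ∃ c C δ T0 : ℝ, 0 < c ∧ 0 < C ∧ 0 < δ ∧ δ ≤ 1 / 16 ∧ 30 ≤ T0 ∧ ∀ j : ℝ, 1 ≤ j →
    ∀ T : ℝ, T0 ≤ T → ∀ S : Finset ℕ, Len S (T ^ δ) → ∀ (r : ℕ → ℂ) (τ H : ℝ),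
      T ^ (1 - δ) ≤ H → ∀ Z : Finset ℂ, Z ⊆ Zf F T (2 * T) →
      (∀ s ∈ Z, j ≤ na F T (2 * T) (1 / Real.log T) s.im) →
      ∫ t in (T + Real.log T)..(2 * T - Real.log T), rh τ H S r t *
        gz F Z (1 / Real.log T) t ≤ (C * Real.exp (-(c * j))) * mr H S r := by
  obtain ⟨C0, T1, hC0, hT1, hcore⟩ := core_gen hF hef hch
  obtain ⟨c, J0, hc, hJ0, hnum⟩ := num hC0
  obtain ⟨θ, Ce, δ, T2, hθ, hθ4, hCe, hδ, hT2, hew⟩ := hew
  have he : 0 < eta0 := by unfold eta0; norm_num
  set κ : ℝ := θ * eta0 / 2 with hκ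
  have hκ0 : 0 < κ := by positivity
  set q0 : ℝ := max 32 (2 / θ) with hq0
  have hq32 : 32 ≤ q0 := le_max_left _ _
  have hqθ : 2 / θ ≤ q0 := le_max_right _ _
  set J1 : ℝ := max J0 (4 * C0 * q0) with hJ1
  have hJ01 : J0 ≤ J1 := le_max_left _ _
  have hJq : 4 * C0 * q0 ≤ J1 := le_max_right _ _
  have hJ3 : 1024 ≤ J1 := by nlinarith
  set κ1 : ℝ := κ / (8 * C0) with hκ1
  have hκ10 : 0 < κ1 := by positivity
  set c1 : ℝ := min c κ1 with hc1
  have hc10 : 0 < c1 := lt_min hc hκ10
  set A1 : ℝ := C0 * (q0 + Ce * q0) with hA1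
  have hA10 : 0 < A1 := by positivity
  refine ⟨c1, A1 * Real.exp (c1 * J1) + 2 + 3 * Ce / κ1, min δ (1 / 16),
    max (max T1 T2) (Real.exp q0), hc10,
    by positivity, lt_min hδ (by norm_num), min_le_right _ _,
    hT1.trans ((le_max_left _ _).trans (le_max_left _ _)),
    fun j hj1 T hT S hS r τ H hH Z hZ hjZ => ?_⟩
  have hT1' : T1 ≤ T := ((le_max_left _ _).trans (le_max_left _ _)).trans hT
  have hT2' : T2 ≤ T := ((le_max_right _ _).trans (le_max_left _ _)).trans hT
  have hTq : Real.exp q0 ≤ T := (le_max_right _ _).trans hT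
  have hTp : 0 < T := by linarith
  have hT1r : 1 ≤ T := by linarith
  have hL : q0 ≤ Real.log T := by
    rw [Real.le_log_iff_exp_le hTp]
    exact hTq
  have hL0 : 0 < Real.log T := by linarith
  obtain ⟨U1, U2, hU1, hU1', hU2', hU2, hcore⟩ := hcore T hT1'
  have hδ1 : min δ (1 / 16) ≤ δ := min_le_left _ _
  have hδ2 : min δ (1 / 16) ≤ 1 / 16 := min_le_right _ _
  have hH' : T ^ (7 / 8 : ℝ) ≤ H :=
    (Real.rpow_le_rpow_of_exponent_le hT1r (by linarith)).trans hH
  have hHδ : T ^ (1 - δ) ≤ H :=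
    (Real.rpow_le_rpow_of_exponent_le hT1r (by linarith)).trans hH
  have hS16 : Len S (T ^ (1 / 16 : ℝ)) :=
    Len_mono hS (Real.rpow_le_rpow_of_exponent_le hT1r hδ2)
  have hSδ : Len S (T ^ δ) := Len_mono hS (Real.rpow_le_rpow_of_exponent_le hT1r hδ1)
  have hH0 : 0 < H := lt_of_lt_of_le (by positivity) hH'
  have hM := mr_nonneg' hH0.le S r
  obtain ⟨hz, hcore⟩ := hcore S hS16 r τ H hH' Z hZ j (by linarith) hjZ
  have hrc := Pool.Agent.N802.U.rh_cont τ H S r
  have hab : T + Real.log T ≤ 2 * T - Real.log T := by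
    have h1 : Real.log T ≤ T / 2 := by
      have h2 : Real.log T = 2 * Real.log (Real.sqrt T) := by
        rw [Real.log_sqrt hTp.le]; ring
      have h3 := Real.log_le_sub_one_of_pos (Real.sqrt_pos.2 hTp)
      have h4 : Real.sqrt T ^ 2 = T := Real.sq_sqrt hTp.le
      have h5 : 4 ≤ Real.sqrt T := by
        apply Real.le_sqrt_of_sq_le
        linarith
      nlinarith
    linarith
  have hFS : ∀ q : ℝ, q0 ≤ q → q ≤ Real.log T →
      ∫ t in (T + Real.log T)..(2 * T - Real.log T), rh τ H S r t *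
      FS F U1 U2 (Real.log T / q) t ≤ (Ce * q * Real.exp (-(κ * q))) * mr H S r := by
    intro q hq1 hqL
    have hqp : 0 < q := by linarith
    have hX0 : 0 < q / Real.log T := by positivity
    obtain ⟨h1, -⟩ := hew T hT2' S hSδ r τ H hHδ U1 U2 hU1 hU1' hU2' hU2 q 0 (by linarith) hqL
      le_rfl zero_le_one
    rw [zero_mul, zero_add] at h1
    have hEc : Continuous (fun t => EA F U1 U2 θ (Real.log T) (q / Real.log T) 0 t) :=
      EA_cont F U1 U2 hX0 θ (Real.log T) 0
    have h2 : ∫ t in (T + Real.log T)..(2 * T - Real.log T), rh τ H S r t *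
        FS F U1 U2 (Real.log T / q) t ≤
        ∫ t in (T + Real.log T)..(2 * T - Real.log T), Real.exp (-(κ * q)) *
          (rh τ H S r t * EA F U1 U2 θ (Real.log T) (q / Real.log T) 0 t) := by
      have hFc := FS_cont F U1 U2 (ℓ := Real.log T / q) (by positivity)
      refine intervalIntegral.integral_mono_on hab
        (Continuous.intervalIntegrable (by fun_prop) _ _)
        (Continuous.intervalIntegrable (by fun_prop) _ _) fun t _ => ?_
      have h3 := FS_EA (F := F) (U1 := U1) (U2 := U2) (t := t) hθ hL0 (hqθ.trans hq1)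
      have h4 := mul_le_mul_of_nonneg_left h3 (Pool.Agent.N802.U.rh_nonneg τ H S r t)
      refine h4.trans (le_of_eq ?_)
      ring
    refine h2.trans ?_
    rw [intervalIntegral.integral_const_mul]
    have h5 : ∫ t in (T + Real.log T)..(2 * T - Real.log T), rh τ H S r t *
        EA F U1 U2 θ (Real.log T) (q / Real.log T) 0 t ≤
        ∫ t in T..(2 * T), rh τ H S r t *
        EA F U1 U2 θ (Real.log T) (q / Real.log T) 0 t := by
      refine intervalIntegral.integral_mono_interval (by linarith) hab (by linarith)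
        (Eventually.of_forall fun t => mul_nonneg (Pool.Agent.N802.U.rh_nonneg τ H S r t)
          (EA_nonneg F U1 U2 hX0 θ (Real.log T) 0 t))
        (Continuous.intervalIntegrable (by fun_prop) _ _)
    calc Real.exp (-(κ * q)) * ∫ t in (T + Real.log T)..(2 * T - Real.log T), rh τ H S r t *
        EA F U1 U2 θ (Real.log T) (q / Real.log T) 0 t ≤
        Real.exp (-(κ * q)) * (Ce * q * mr H S r) := by
          gcongr
          exact h5.trans h1
      _ = _ := by ring
  by_cases hjJ : j < J1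
  · have h0 := hFS q0 le_rfl hL
    have h0' : Ce * q0 * Real.exp (-(κ * q0)) ≤ Ce * q0 := by
      have : Real.exp (-(κ * q0)) ≤ 1 := Real.exp_le_one_iff.2 (by
        have : 0 < κ * q0 := by positivity
        linarith)
      have h2 : 0 < Ce * q0 := by positivity
      nlinarith
    obtain ⟨h1, -⟩ := hcore q0 hq32 hL (Ce * q0) (h0.trans (mul_le_mul_of_nonneg_right h0' hM))
    refine h1.trans (mul_le_mul_of_nonneg_right ?_ hM)
    have h2 : 1 ≤ Real.exp (c1 * J1) * Real.exp (-(c1 * j)) := by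
      rw [← Real.exp_add]
      apply Real.one_le_exp
      nlinarith
    have h3 := Real.exp_pos (-(c1 * j))
    calc C0 * (q0 + Ce * q0) = A1 * 1 := by rw [hA1]; ring
      _ ≤ A1 * (Real.exp (c1 * J1) * Real.exp (-(c1 * j))) := by gcongr
      _ ≤ _ := by
          have : 0 ≤ (2 + 3 * Ce / κ1) * Real.exp (-(c1 * j)) := by positivity
          linarith
  · push Not at hjJ
    have hpos : 0 ≤ (A1 * Real.exp (c1 * J1) + 2 + 3 * Ce / κ1) *
        Real.exp (-(c1 * j)) := by positivity
    by_cases hjL : C0 * Real.log T < j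
    · exact (hz hjL).trans (mul_nonneg hpos hM)
    · push Not at hjL
      obtain ⟨k, hk1, hk2, hk3⟩ := hnum j (hJ01.trans hjJ)
      have hq1 : q0 ≤ j / (4 * C0) := by
        rw [le_div_iff₀ (by positivity)]
        linarith
      have hqL : j / (4 * C0) ≤ Real.log T := by
        rw [div_le_iff₀ (by positivity)]
        nlinarith
      set q := j / (4 * C0) with hq
      have hqp : 0 < q := by linarith
      obtain ⟨-, h1⟩ := hcore q (hq32.trans hq1) hqL _ (hFS q hq1 hqL)
      have h2 := h1 k hk1 hk2 (by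
        have : 4 * C0 * q = j := by rw [hq]; field_simp
        rw [this])
      refine h2.trans (mul_le_mul_of_nonneg_right ?_ hM)
      have hj3 : 3 ≤ j := by linarith
      have hlog1 : 1 ≤ Real.log j := by
        rw [Real.le_log_iff_exp_le (by linarith)]
        have := Real.exp_one_lt_d9
        linarith
      have g1 : Real.exp (-(c * (j * Real.log j))) ≤ Real.exp (-(c1 * j)) := by
        apply Real.exp_le_exp.2
        have : c1 ≤ c := min_le_left _ _
        have h3 : j ≤ j * Real.log j := by nlinarith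
        have h4 : c1 * j ≤ c * (j * Real.log j) := mul_le_mul this h3 (by linarith) hc.le
        linarith
      have g2 : q * Real.exp (-(κ * q)) ≤ 1 / (C0 * κ1) * Real.exp (-(c1 * j)) := by
        have e1 : κ * q = 2 * (κ1 * j) := by
          rw [hκ1, hq]
          field_simp
          norm_num
        have h3 : κ1 * j ≤ Real.exp (κ1 * j) := by
          have := Real.add_one_le_exp (κ1 * j)
          linarith
        have h4 : c1 * j ≤ κ1 * j := by
          have : c1 ≤ κ1 := min_le_right _ _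
          gcongr
        have h5 : Real.exp (-(κ * q)) = Real.exp (-(κ1 * j)) * Real.exp (-(κ1 * j)) := by
          rw [e1, ← Real.exp_add]
          congr 1
          ring
        have h6 : κ1 * j * Real.exp (-(κ1 * j)) ≤ 1 := by
          rw [Real.exp_neg, ← div_eq_mul_inv, div_le_one (Real.exp_pos _)]
          exact h3
        have h7 : Real.exp (-(κ1 * j)) ≤ Real.exp (-(c1 * j)) := Real.exp_le_exp.2 (by linarith)
        have e2 : q = 1 / (4 * C0 * κ1) * (κ1 * j) := by
          rw [hq]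
          field_simp
        calc q * Real.exp (-(κ * q)) = 1 / (4 * C0 * κ1) * (κ1 * j * Real.exp (-(κ1 * j))) *
            Real.exp (-(κ1 * j)) := by
              rw [h5]
              nth_rw 1 [e2]
              ring
          _ ≤ 1 / (4 * C0 * κ1) * 1 * Real.exp (-(c1 * j)) := by gcongr
          _ ≤ _ := by
              rw [mul_one]
              have : 1 / (4 * C0 * κ1) ≤ 1 / (C0 * κ1) := by
                apply one_div_le_one_div_of_le (by positivity)
                have : 0 < C0 * κ1 := by positivity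
                nlinarith
              gcongr
      have g3 : 3 * C0 * (Ce * q * Real.exp (-(κ * q))) ≤
          3 * Ce / κ1 * Real.exp (-(c1 * j)) := by
        calc 3 * C0 * (Ce * q * Real.exp (-(κ * q))) = 3 * C0 * Ce * (q * Real.exp (-(κ * q))) := by
              ring
          _ ≤ 3 * C0 * Ce * (1 / (C0 * κ1) * Real.exp (-(c1 * j))) := by gcongr
          _ = _ := by field_simp
      have g4 : 0 ≤ A1 * Real.exp (c1 * J1) * Real.exp (-(c1 * j)) := by positivity
      rw [add_mul, add_mul]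
      linarith

/-- **the zeros with many neighbours, under the Riemann hypothesis** -/
theorem zeros_rh {F : ℂ → ℂ} (hF : GoodL F) (hef : S_ef F) (hch : S_ch) (hRH : OnLine F) :
    ∃ c C T0 : ℝ, 0 < c ∧ 0 < C ∧ 60 ≤ T0 ∧ ∀ j : ℝ, 1 ≤ j →
    ∀ T : ℝ, T0 ≤ T → ∀ K : ℝ, T ^ (1 - 1 / 64 : ℝ) ≤ K → K ≤ T / 2 →
    ∀ S : Finset ℕ, Len S (T ^ (1 / 64 : ℝ)) → ∀ (r : ℕ → ℂ) (Z : Finset ℂ), Z ⊆ Zf F T (T + K) →
    (∀ s ∈ Z, j ≤ na F 1 (4 * T) (1 / Real.log T) s.im) →
    ∑ s ∈ Z, (mult F s : ℝ) * ‖RP S r s.im‖ ^ 2 ≤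
      C * Real.exp (-(c * (j * Real.log j))) * (K * Real.log T * w1 S r) := by
  obtain ⟨c, C, T0, hc, hC, hT0, h⟩ := avg_rh hF hef hch hRH
  refine ⟨c, 100 * C, 2 * T0, hc, by positivity, by linarith, fun j hj T hT K hK1 hK2 S hS r Z
    hZ hjZ => ?_⟩
  have h1 := transfer hF (δ' := 1 / 16) (T0 := T0) (j := j)
    (φ := C * Real.exp (-(c * (j * Real.log j)))) (by norm_num) (by norm_num) hT0 (by positivity)
    (h j hj) T hT K (by
      refine le_trans (le_of_eq ?_) hK1
      norm_num) hK2 S (by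
      have e : (1 / 16 / 4 : ℝ) = 1 / 64 := by norm_num
      rw [e]
      exact hS) r Z hZ hjZ
  refine h1.trans (le_of_eq ?_)
  ring

/-- **the zeros with many neighbours, unconditionally** -/
theorem zeros_un {F : ℂ → ℂ} (hF : GoodL F) (hef : S_ef F) (hch : S_ch) (hew : S_ew F) :
    ∃ c C δ T0 : ℝ, 0 < c ∧ 0 < C ∧ 0 < δ ∧ 60 ≤ T0 ∧ ∀ j : ℝ, 1 ≤ j →
    ∀ T : ℝ, T0 ≤ T → ∀ K : ℝ, T ^ (1 - δ) ≤ K → K ≤ T / 2 →
    ∀ S : Finset ℕ, Len S (T ^ δ) → ∀ (r : ℕ → ℂ) (Z : Finset ℂ), Z ⊆ Zf F T (T + K) →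
    (∀ s ∈ Z, j ≤ na F 1 (4 * T) (1 / Real.log T) s.im) →
    ∑ s ∈ Z, (mult F s : ℝ) * ‖RP S r s.im‖ ^ 2 ≤
      C * Real.exp (-(c * j)) * (K * Real.log T * w1 S r) := by
  obtain ⟨c, C, δ, T0, hc, hC, hδ, hδ1, hT0, h⟩ := avg_un hF hef hch hew
  refine ⟨c, 100 * C, δ / 4, 2 * T0, hc, by positivity, by positivity, by linarith,
    fun j hj T hT K hK1 hK2 S hS r Z hZ hjZ => ?_⟩
  have h1 := transfer hF (δ' := δ) (T0 := T0) (j := j)
    (φ := C * Real.exp (-(c * j))) hδ (by linarith) hT0 (by positivity)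
    (h j hj) T hT K hK1 hK2 S hS r Z hZ hjZ
  refine h1.trans (le_of_eq ?_)
  ring

end Pool.Agent.J4.H45.MT
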