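import Pool.Agent.H370R2.Dyadic
import Pool.Agent.N802.U.Ef
import Pool.Agent.N802.U.Ch
import Pool.Agent.N802.WD.Fin
import Pool.Agent.W54.TCF.ZMult
import Pool.Agent.J4.H45.MT.Fin

/-!
# The theorems for the zeta function
-/

open Complex Filter Topology Set MeasureTheory
open scoped BigOperators ComplexConjugate

namespace Pool.Agent.J4.H45.MT

open H370 Pool.Agent.N802 Pool.Agent.N802.U

/-- the nontrivial zeros with ordinate within `h` of `t` -/
def nbr (h t : ℝ) : Set ℂ :=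
  {s : ℂ | riemannZeta s = 0 ∧ 0 < s.re ∧ s.re < 1 ∧ |s.im - t| ≤ h}

/-- their number, counted with multiplicity -/
noncomputable def nz (h t : ℝ) : ℕ := ∑ᶠ s ∈ nbr h t, analyticOrderNatAt riemannZeta s

lemma nz_eq {a b h t : ℝ} (ha : 1 ≤ a) (h1 : a < t - h) (h2 : t + h ≤ b) :
    (nz h t : ℝ) = na riemannZeta a b h t := by
  classical
  have e : nbr h t = (((Zf riemannZeta a b).filter (fun s => |s.im - t| ≤ h) : Finset ℂ) :
      Set ℂ) := by
    ext s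
    rw [Finset.mem_coe, Finset.mem_filter, mem_Zf good_zeta ha]
    constructor
    · rintro ⟨g1, g2, g3, g4⟩
      have g5 := abs_le.1 g4
      exact ⟨⟨g2, g3, by linarith, by linarith, g1⟩, g4⟩
    · rintro ⟨⟨g1, g2, g3, g4, g5⟩, g6⟩
      exact ⟨g5, g1, g2, g6⟩
  unfold nz na
  rw [e, finsum_mem_coe_finset]
  push_cast
  rfl

lemma online (hRH : RiemannHypothesis) : OnLine riemannZeta := by
  intro s h1 h2 h3 h4
  refine hRH s h3 ?_ ?_
  · rintro ⟨n, rfl⟩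
    simp at h4
  · rintro rfl
    simp at h4

lemma ef_zeta : S_ef riemannZeta := ef good_zeta

lemma ew_zeta : Pool.Agent.N802.WD.S_ew riemannZeta :=
  Pool.Agent.N802.WD.ew good_zeta Pool.Agent.N802.WD.wd_zeta

/-- the bound in every weight -/
def Wt (δ T0 : ℝ) (φ : ℝ → ℝ) : Prop := ∀ T : ℝ, T0 ≤ T → ∀ K : ℝ, T ^ (1 - δ) ≤ K → K ≤ T / 2 →
    ∀ S : Finset ℕ, Len S (T ^ δ) → ∀ (r : ℕ → ℂ) (j : ℝ), 1 ≤ j → ∀ Z : Finset ℂ,
    (∀ s ∈ Z, riemannZeta s = 0 ∧ 0 < s.re ∧ s.re < 1 ∧ T < s.im ∧ s.im ≤ T + K ∧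
      j ≤ nz (1 / Real.log T) s.im) →
    ∑ s ∈ Z, (analyticOrderNatAt riemannZeta s : ℝ) * ‖RP S r s.im‖ ^ 2 ≤
      φ j * (K * Real.log T * w1 S r)

lemma bridge {T K j : ℝ} (hT : 60 ≤ T) (hK : K ≤ T / 2) {Z : Finset ℂ}
    (hZ : ∀ s ∈ Z, riemannZeta s = 0 ∧ 0 < s.re ∧ s.re < 1 ∧ T < s.im ∧ s.im ≤ T + K ∧
      j ≤ nz (1 / Real.log T) s.im) :
    Z ⊆ Zf riemannZeta T (T + K) ∧
    ∀ s ∈ Z, j ≤ na riemannZeta 1 (4 * T) (1 / Real.log T) s.im := by
  have hL : 1 ≤ Real.log T := by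
    rw [Real.le_log_iff_exp_le (by linarith)]
    have := Real.exp_one_lt_d9
    linarith
  have hL1 : 1 / Real.log T ≤ 1 := by
    rw [div_le_one (by linarith)]
    exact hL
  constructor
  · intro s hs
    obtain ⟨g1, g2, g3, g4, g5, -⟩ := hZ s hs
    rw [mem_Zf good_zeta (by linarith)]
    exact ⟨g2, g3, g4, g5, g1⟩
  · intro s hs
    obtain ⟨g1, g2, g3, g4, g5, g6⟩ := hZ s hs
    rw [← nz_eq le_rfl (by linarith) (by linarith)]
    exact g6

/-- under the Riemann hypothesis -/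
theorem wt_rh (hRH : RiemannHypothesis) : ∃ c C T0 : ℝ, 0 < c ∧ 0 < C ∧ 60 ≤ T0 ∧
    Wt (1 / 64) T0 (fun j => C * Real.exp (-(c * (j * Real.log j)))) := by
  obtain ⟨c, C, T0, hc, hC, hT0, h⟩ := zeros_rh good_zeta ef_zeta ch (online hRH)
  refine ⟨c, C, T0, hc, hC, hT0, fun T hT K hK1 hK2 S hS r j hj Z hZ => ?_⟩
  obtain ⟨b1, b2⟩ := bridge (hT0.trans hT) hK2 hZ
  exact h j hj T hT K hK1 hK2 S hS r Z b1 b2

/-- unconditionally -/
theorem wt_un : ∃ c C δ T0 : ℝ, 0 < c ∧ 0 < C ∧ 0 < δ ∧ 60 ≤ T0 ∧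
    Wt δ T0 (fun j => C * Real.exp (-(c * j))) := by
  obtain ⟨c, C, δ, T0, hc, hC, hδ, hT0, h⟩ := zeros_un good_zeta ef_zeta ch ew_zeta
  refine ⟨c, C, δ, T0, hc, hC, hδ, hT0, fun T hT K hK1 hK2 S hS r j hj Z hZ => ?_⟩
  obtain ⟨b1, b2⟩ := bridge (hT0.trans hT) hK2 hZ
  exact h j hj T hT K hK1 hK2 S hS r Z b1 b2

/-- exponential moments from tails -/
lemma layer (Z : Finset ℂ) (a : ℂ → ℝ) (n : ℂ → ℕ) (ha : ∀ s ∈ Z, 0 ≤ a s)
    (hn : ∀ s ∈ Z, 1 ≤ n s) {A lam : ℝ} {φ : ℕ → ℝ} (hφ : ∀ i, 0 ≤ φ i) (hA : 0 ≤ A)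
    (h : ∀ i : ℕ, 1 ≤ i → ∑ s ∈ Z.filter (fun s => i ≤ n s), a s ≤ φ i * A)
    (hs : Summable fun i : ℕ => Real.exp (lam * i) * φ i) :
    ∑ s ∈ Z, a s * Real.exp (lam * n s) ≤ (∑' i : ℕ, Real.exp (lam * i) * φ i) * A := by
  set I := Z.sup n with hI
  have h1 : ∀ s ∈ Z, a s * Real.exp (lam * n s) ≤
      ∑ i ∈ Finset.Icc 1 I, (if i ≤ n s then Real.exp (lam * i) * a s else 0) := by
    intro s hs
    have h2 : n s ∈ Finset.Icc 1 I := Finset.mem_Icc.2 ⟨hn s hs, Finset.le_sup hs⟩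
    have h3 := Finset.single_le_sum (f := fun i : ℕ =>
      (if i ≤ n s then Real.exp (lam * i) * a s else 0)) (fun i _ => by
        have := ha s hs
        split_ifs <;> positivity) h2
    simp only [le_refl, if_true] at h3
    rw [mul_comm]
    exact h3
  calc ∑ s ∈ Z, a s * Real.exp (lam * n s) ≤
      ∑ s ∈ Z, ∑ i ∈ Finset.Icc 1 I, (if i ≤ n s then Real.exp (lam * i) * a s else 0) :=
        Finset.sum_le_sum h1
    _ = ∑ i ∈ Finset.Icc 1 I, Real.exp (lam * i) * ∑ s ∈ Z.filter (fun s => i ≤ n s), a s := by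
        rw [Finset.sum_comm]
        refine Finset.sum_congr rfl fun i _ => ?_
        rw [Finset.sum_filter, Finset.mul_sum]
        refine Finset.sum_congr rfl fun s _ => ?_
        split_ifs <;> simp
    _ ≤ ∑ i ∈ Finset.Icc 1 I, Real.exp (lam * i) * (φ i * A) := by
        refine Finset.sum_le_sum fun i hi => ?_
        exact mul_le_mul_of_nonneg_left (h i (Finset.mem_Icc.1 hi).1) (Real.exp_pos _).le
    _ = (∑ i ∈ Finset.Icc 1 I, Real.exp (lam * i) * φ i) * A := by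
        rw [Finset.sum_mul]
        exact Finset.sum_congr rfl fun i _ => by ring
    _ ≤ _ := by
        refine mul_le_mul_of_nonneg_right ?_ hA
        exact hs.sum_le_tsum _ fun i _ => mul_nonneg (Real.exp_pos _).le (hφ i)

/-- summability under the Riemann hypothesis -/
lemma summ_rh {c C : ℝ} (hc : 0 < c) (lam : ℝ) :
    Summable fun i : ℕ => Real.exp (lam * i) * (C * Real.exp (-(c * ((i : ℝ) * Real.log i)))) := by
  have h1 : Tendsto (fun i : ℕ => Real.log (i : ℝ)) atTop atTop :=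
    Real.tendsto_log_atTop.comp tendsto_natCast_atTop_atTop
  have h2 : ∀ᶠ i : ℕ in atTop, (lam + 1) / c ≤ Real.log i := h1.eventually_ge_atTop _
  have h3 : Summable fun i : ℕ => |C| * Real.exp (-(i : ℝ)) := Real.summable_exp_neg_nat.mul_left _
  refine Summable.of_norm_bounded_eventually_nat h3 ?_
  filter_upwards [h2] with i hi
  rw [norm_mul, norm_mul, Real.norm_of_nonneg (Real.exp_pos _).le,
    Real.norm_of_nonneg (Real.exp_pos _).le, Real.norm_eq_abs, mul_left_comm, ← Real.exp_add]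
  refine mul_le_mul_of_nonneg_left (Real.exp_le_exp.2 ?_) (abs_nonneg _)
  have h4 : lam + 1 ≤ c * Real.log i := by
    rw [div_le_iff₀ hc] at hi
    linarith
  have h5 : (0 : ℝ) ≤ i := Nat.cast_nonneg i
  nlinarith

lemma summ_un {c C lam : ℝ} (hl : lam < c) :
    Summable fun i : ℕ => Real.exp (lam * i) * (C * Real.exp (-(c * (i : ℝ)))) := by
  have h1 : Summable fun i : ℕ => Real.exp (-(c - lam)) ^ i :=
    summable_geometric_of_lt_one (Real.exp_pos _).le (Real.exp_lt_one_iff.2 (by linarith))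
  have h2 : (fun i : ℕ => Real.exp (lam * i) * (C * Real.exp (-(c * (i : ℝ))))) =
      fun i : ℕ => C * Real.exp (-(c - lam)) ^ i := by
    funext i
    rw [← Real.exp_nat_mul, mul_left_comm, ← Real.exp_add]
    congr 2
    ring
  rw [h2]
  exact h1.mul_left C

end Pool.Agent.J4.H45.MT
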