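import Pool.Agent.J4.H45.MT.Zeta

/-!
# Zeros of Hardy's function; all zeros up to height `T`
-/

open Complex Filter Topology Set MeasureTheory
open scoped BigOperators ComplexConjugate

namespace Pool.Agent.J4.H45.MT

open H370 Pool.Agent.N802 Pool.Agent.N802.U
open Pool.Agent.W54.TCF (Z mlt Z_zero_iff mlt_eq half_ne)

lemma half_eq (t : ℝ) : (1 / 2 + I * t : ℂ) = ⟨1 / 2, t⟩ := by
  apply Complex.ext <;> simp

lemma order_fin {s : ℂ} (hs : s ≠ 1) : analyticOrderAt riemannZeta s ≠ ⊤ := by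
  have hdiff : DifferentiableOn ℂ riemannZeta ({1}ᶜ : Set ℂ) := fun z hz =>
    (differentiableAt_riemannZeta hz).differentiableWithinAt
  have han : AnalyticOnNhd ℂ riemannZeta ({1}ᶜ : Set ℂ) :=
    hdiff.analyticOnNhd isOpen_compl_singleton
  have hpre : IsPreconnected ({1}ᶜ : Set ℂ) :=
    (isConnected_compl_singleton_of_one_lt_rank (by simp) (1 : ℂ)).isPreconnected
  intro htop
  have h1 : ∀ᶠ z in 𝓝 s, riemannZeta z = 0 := analyticOrderAt_eq_top.1 htop
  have h2 := han.eqOn_zero_of_preconnected_of_eventuallyEq_zero hpre hs h1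
  have h3 : riemannZeta 2 = 0 := h2 (by simp : (2 : ℂ) ∈ ({1}ᶜ : Set ℂ))
  exact riemannZeta_ne_zero_of_one_le_re (by simp) h3

/-- the multiplicity of a zero of `Z` -/
lemma mlt_half {t : ℝ} (ht : Z t = 0) :
    mlt t = analyticOrderNatAt riemannZeta (⟨1 / 2, t⟩ : ℂ) := by
  have h := mlt_eq t ht (order_fin (half_ne t))
  rw [half_eq] at h
  exact h

lemma Z_half {t : ℝ} : Z t = 0 ↔ riemannZeta (⟨1 / 2, t⟩ : ℂ) = 0 := by
  rw [Z_zero_iff, half_eq]

open Classical in
/-- sums over zeros of `Z` as sums over zeros of zeta -/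
lemma conv (W : Finset ℂ) (A : Set ℝ) (hA : ∀ t ∈ A, Z t = 0 ∧ (⟨1 / 2, t⟩ : ℂ) ∈ W)
    (f : ℝ → ℝ) :
    A.Finite ∧ ∑ᶠ t ∈ A, (mlt t : ℝ) * f t =
      ∑ s ∈ W.filter (fun s => s.re = 1 / 2 ∧ s.im ∈ A),
        (analyticOrderNatAt riemannZeta s : ℝ) * f s.im := by
  have e : A = Complex.im '' ((W.filter (fun s => s.re = 1 / 2 ∧ s.im ∈ A) : Finset ℂ) :
      Set ℂ) := by
    ext t
    constructor
    · intro ht
      refine ⟨⟨1 / 2, t⟩, ?_, rfl⟩
      rw [Finset.mem_coe, Finset.mem_filter]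
      exact ⟨(hA t ht).2, rfl, ht⟩
    · rintro ⟨s, hs, rfl⟩
      rw [Finset.mem_coe, Finset.mem_filter] at hs
      exact hs.2.2
  have hinj : Set.InjOn Complex.im ((W.filter (fun s => s.re = 1 / 2 ∧ s.im ∈ A) : Finset ℂ) :
      Set ℂ) := by
    intro s hs s' hs' h
    rw [Finset.mem_coe, Finset.mem_filter] at hs hs'
    exact Complex.ext (hs.2.1.trans hs'.2.1.symm) h
  refine ⟨by rw [e]; exact (Finset.finite_toSet _).image _, ?_⟩
  have h1 : ∑ᶠ t ∈ A, (mlt t : ℝ) * f t =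
      ∑ᶠ t ∈ Complex.im '' ((W.filter (fun s => s.re = 1 / 2 ∧ s.im ∈ A) : Finset ℂ) : Set ℂ),
        (mlt t : ℝ) * f t := by rw [← e]
  rw [h1, finsum_mem_image hinj, finsum_mem_coe_finset]
  refine Finset.sum_congr rfl fun s hs => ?_
  rw [Finset.mem_filter] at hs
  have h2 := hA _ hs.2.2
  have h3 : (⟨1 / 2, s.im⟩ : ℂ) = s := Complex.ext hs.2.1.symm rfl
  rw [mlt_half h2.1, h3]

/-- a zero is counted in the number of its neighbours -/
lemma order_le_nz {s : ℂ} {h : ℝ} (h0 : 0 ≤ h) (h1 : riemannZeta s = 0) (h2 : 0 < s.re)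
    (h3 : s.re < 1) (h4 : 1 < s.im - h) : analyticOrderNatAt riemannZeta s ≤ nz h s.im := by
  classical
  have e := nz_eq (a := 1) (b := s.im + h) (h := h) (t := s.im) le_rfl h4 le_rfl
  have h5 : (analyticOrderNatAt riemannZeta s : ℝ) ≤ na riemannZeta 1 (s.im + h) h s.im := by
    unfold na
    refine Finset.single_le_sum (f := fun s => (mult riemannZeta s : ℝ))
      (fun _ _ => Nat.cast_nonneg _) ?_
    rw [Finset.mem_filter, mem_Zf good_zeta le_rfl]
    refine ⟨⟨h2, h3, by linarith, by linarith, h1⟩, ?_⟩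
    rw [sub_self, abs_zero]
    exact h0
  rw [← e] at h5
  exact_mod_cast h5

/-- exponential moments in every weight -/
lemma wt_exp {δ T0 : ℝ} {φ : ℝ → ℝ} (hT0 : 60 ≤ T0) (hφ : ∀ x, 0 ≤ φ x) (hW : Wt δ T0 φ)
    {lam : ℝ} (hs : Summable fun i : ℕ => Real.exp (lam * i) * φ i) :
    ∀ T : ℝ, T0 ≤ T → ∀ K : ℝ, T ^ (1 - δ) ≤ K → K ≤ T / 2 →
    ∀ S : Finset ℕ, Len S (T ^ δ) → ∀ (r : ℕ → ℂ) (Z : Finset ℂ),
    (∀ s ∈ Z, riemannZeta s = 0 ∧ 0 < s.re ∧ s.re < 1 ∧ T < s.im ∧ s.im ≤ T + K) →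
    ∑ s ∈ Z, (analyticOrderNatAt riemannZeta s : ℝ) * (Real.exp (lam * nz (1 / Real.log T) s.im) *
      ‖RP S r s.im‖ ^ 2) ≤
      (∑' i : ℕ, Real.exp (lam * i) * φ i) * (K * Real.log T * w1 S r) := by
  classical
  intro T hT K hK1 hK2 S hS r Z hZ
  have hT1 : 1 ≤ T := by linarith
  have hL : 1 ≤ Real.log T := by
    rw [Real.le_log_iff_exp_le (by linarith)]
    have := Real.exp_one_lt_d9
    linarith
  have hL1 : 1 / Real.log T ≤ 1 := by
    rw [div_le_one (by linarith)]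
    exact hL
  have hK0 : 0 ≤ K := le_trans (by positivity) hK1
  have hw := w1_nonneg S r
  have h1 := layer Z (fun s => (analyticOrderNatAt riemannZeta s : ℝ) * ‖RP S r s.im‖ ^ 2)
    (fun s => nz (1 / Real.log T) s.im) (fun s _ => by positivity) (fun s hs => by
      obtain ⟨g1, g2, g3, g4, g5⟩ := hZ s hs
      have g6 : 1 ≤ analyticOrderNatAt riemannZeta s := by
        have hs1 : s ≠ 1 := by
          rintro rfl
          simp at g3
        have h2 := order_fin hs1
        have han : AnalyticAt ℂ riemannZeta s := Pool.Agent.W54.TCF.zeta_analytic hs1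
        have h3 : analyticOrderAt riemannZeta s ≠ 0 := by
          rw [ne_eq, han.analyticOrderAt_eq_zero]
          simpa using g1
        rw [Nat.one_le_iff_ne_zero]
        intro h4
        apply h3
        have h5 := Nat.cast_analyticOrderNatAt h2
        rw [h4] at h5
        rw [← h5]
        rfl
      exact g6.trans (order_le_nz (by positivity) g1 g2 g3 (by linarith)))
    (A := K * Real.log T * w1 S r) (lam := lam) (φ := fun i => φ i) (fun i => hφ i)
    (by positivity) (fun i hi => by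
      refine hW T hT K hK1 hK2 S hS r i (by exact_mod_cast hi) _ fun s hs => ?_
      rw [Finset.mem_filter] at hs
      obtain ⟨g1, g2, g3, g4, g5⟩ := hZ s hs.1
      exact ⟨g1, g2, g3, g4, g5, by exact_mod_cast hs.2⟩) hs
  refine le_trans (le_of_eq ?_) h1
  refine Finset.sum_congr rfl fun s _ => ?_
  ring

open Classical in
/-- the zeros up to height `T` of multiplicity at least `j` -/
noncomputable def fj (j : ℕ) (T : ℝ) : ℝ :=
  ∑ s ∈ (zeta_zeros_finite T).toFinset.filter (fun s => j ≤ analyticOrderNatAt riemannZeta s),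
    (analyticOrderNatAt riemannZeta s : ℝ)

lemma fj_nonneg (j : ℕ) (T : ℝ) : 0 ≤ fj j T := Finset.sum_nonneg fun _ _ => Nat.cast_nonneg _

lemma fj_mono (j : ℕ) {T T' : ℝ} (h : T ≤ T') : fj j T ≤ fj j T' := by
  classical
  unfold fj
  refine Finset.sum_le_sum_of_subset_of_nonneg (fun s hs => ?_) fun _ _ _ => Nat.cast_nonneg _
  rw [Finset.mem_filter, Set.Finite.mem_toFinset] at hs ⊢
  obtain ⟨⟨g1, g2, g3, g4, g5⟩, g6⟩ := hs
  exact ⟨⟨g1, g2, g3, g4.trans h, g5⟩, g6⟩

lemma RP_one (t : ℝ) : RP {1} (fun _ => 1) t = 1 := by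
  unfold RP TP
  rw [Finset.sum_singleton]
  unfold mn
  simp

/-- one step -/
lemma fj_step {δ T0 : ℝ} {φ : ℝ → ℝ} (hT0 : 60 ≤ T0) (hW : Wt δ T0 φ) {j : ℕ} (hj : 1 ≤ j)
    {V : ℝ} (hV : T0 ≤ V) (hV2 : V ^ (1 - δ) ≤ V / 2) (hVδ : 1 ≤ V ^ δ) :
    fj j (V + V / 2) ≤ fj j V + φ j * (V / 2 * Real.log V) := by
  classical
  have hV60 : 60 ≤ V := hT0.trans hV
  have hL : 1 ≤ Real.log V := by
    rw [Real.le_log_iff_exp_le (by linarith)]
    have := Real.exp_one_lt_d9
    linarith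
  have hL1 : 1 / Real.log V ≤ 1 := by
    rw [div_le_one (by linarith)]
    exact hL
  set W := (zeta_zeros_finite (V + V / 2)).toFinset.filter
    (fun s => j ≤ analyticOrderNatAt riemannZeta s ∧ V < s.im) with hWd
  have h1 : fj j (V + V / 2) ≤ fj j V + ∑ s ∈ W, (analyticOrderNatAt riemannZeta s : ℝ) := by
    unfold fj
    rw [← Finset.sum_union]
    · refine Finset.sum_le_sum_of_subset_of_nonneg (fun s hs => ?_) fun _ _ _ => Nat.cast_nonneg _
      rw [Finset.mem_filter, Set.Finite.mem_toFinset] at hs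
      obtain ⟨⟨g1, g2, g3, g4, g5⟩, g6⟩ := hs
      rw [Finset.mem_union]
      by_cases h : s.im ≤ V
      · left
        rw [Finset.mem_filter, Set.Finite.mem_toFinset]
        exact ⟨⟨g1, g2, g3, h, g5⟩, g6⟩
      · right
        push Not at h
        rw [hWd, Finset.mem_filter, Set.Finite.mem_toFinset]
        exact ⟨⟨g1, g2, g3, g4, g5⟩, g6, h⟩
    · rw [Finset.disjoint_left]
      intro s hs hs'
      rw [Finset.mem_filter, Set.Finite.mem_toFinset] at hs
      rw [hWd, Finset.mem_filter] at hs'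
      have g1 := hs.1.2.2.2.1
      have g2 := hs'.2.2
      linarith
  have h2 := hW V hV (V / 2) hV2 le_rfl {1} (fun k hk => by
    rw [Finset.mem_singleton] at hk
    subst hk
    exact ⟨le_rfl, by exact_mod_cast hVδ⟩) (fun _ => 1) j (by exact_mod_cast hj) W (fun s hs => by
    rw [hWd, Finset.mem_filter, Set.Finite.mem_toFinset] at hs
    obtain ⟨⟨g1, g2, g3, g4, g5⟩, g6, g7⟩ := hs
    refine ⟨g5, g1, g2, g7, g4, ?_⟩
    have h3 := order_le_nz (h := 1 / Real.log V) (by positivity) g5 g1 g2 (by linarith)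
    exact_mod_cast g6.trans h3)
  have h3 : w1 {1} (fun _ => (1 : ℂ)) = 1 := by
    unfold w1
    simp
  rw [h3, mul_one] at h2
  simp only [RP_one, norm_one, one_pow, mul_one] at h2
  linarith

/-- all zeros up to height `T` -/
lemma fj_all {δ T0 : ℝ} {φ : ℝ → ℝ} (hδ : 0 < δ) (hδ1 : δ ≤ 1) (hT0 : 60 ≤ T0)
    (hφ : ∀ x, 0 ≤ φ x)
    (hW : Wt δ T0 φ) : ∃ V1 : ℝ, 60 ≤ V1 ∧ ∀ j : ℕ, 1 ≤ j → ∀ T : ℝ, 2 ≤ T →
      fj j T ≤ fj j V1 + φ j * (T * Real.log T) := by
  obtain ⟨V0, hV0, hV0T, hV02⟩ : ∃ V0 : ℝ, 60 ≤ V0 ∧ T0 ≤ V0 ∧ 2 ≤ V0 ^ δ := by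
    refine ⟨max (max 60 T0) ((2 : ℝ) ^ (1 / δ)), (le_max_left _ _).trans (le_max_left _ _),
      (le_max_right _ _).trans (le_max_left _ _), ?_⟩
    calc (2 : ℝ) = ((2 : ℝ) ^ (1 / δ)) ^ δ := by
          rw [← Real.rpow_mul (by norm_num), one_div_mul_cancel hδ.ne', Real.rpow_one]
      _ ≤ _ := Real.rpow_le_rpow (by positivity) (le_max_right _ _) hδ.le
  have hstep : ∀ j : ℕ, 1 ≤ j → ∀ V : ℝ, V0 ≤ V →
      fj j (V + V / 2) ≤ fj j V + φ j * (V / 2 * Real.log V) := by
    intro j hj V hV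
    have hVp : 0 < V := by linarith
    have h2 : 2 ≤ V ^ δ := hV02.trans (Real.rpow_le_rpow (by linarith) hV hδ.le)
    refine fj_step hT0 hW hj (hV0T.trans hV) ?_ (by linarith)
    rw [Real.rpow_sub hVp, Real.rpow_one, div_le_div_iff₀ (by positivity) (by norm_num)]
    nlinarith
  refine ⟨V0 + V0 / 2, by linarith, fun j hj => ?_⟩
  have key : ∀ n : ℕ, ∀ T : ℝ, 2 ≤ T → T ≤ (3 / 2) ^ (n + 1) * V0 →
      fj j T ≤ fj j (V0 + V0 / 2) + φ j * (T * Real.log T) := by
    intro n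
    induction n with
    | zero =>
      intro T hT2 hT
      have h1 : T ≤ V0 + V0 / 2 := by
        rw [zero_add, pow_one] at hT
        linarith
      have h2 : 0 ≤ φ j * (T * Real.log T) := by
        have := Real.log_nonneg (show 1 ≤ T by linarith)
        have := hφ j
        positivity
      linarith [fj_mono j h1]
    | succ n ih =>
      intro T hT2 hT
      by_cases h : T ≤ V0 + V0 / 2
      · have h2 : 0 ≤ φ j * (T * Real.log T) := by
          have := Real.log_nonneg (show 1 ≤ T by linarith)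
          have := hφ j
          positivity
        linarith [fj_mono j h]
      · push Not at h
        set V := 2 / 3 * T with hV
        have hV1 : V0 ≤ V := by rw [hV]; linarith
        have hV2 : V ≤ (3 / 2) ^ (n + 1) * V0 := by
          rw [hV]
          have : (3 / 2 : ℝ) ^ (n + 1 + 1) * V0 = 3 / 2 * ((3 / 2) ^ (n + 1) * V0) := by ring
          rw [this] at hT
          linarith
        have h3 := ih V (by linarith) hV2
        have h4 := hstep j hj V hV1
        have e : V + V / 2 = T := by rw [hV]; ring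
        rw [e] at h4
        have hlog : Real.log V ≤ Real.log T := Real.log_le_log (by linarith) (by rw [hV]; linarith)
        have hlog0 : 0 ≤ Real.log V := Real.log_nonneg (by linarith)
        have h5 : φ j * (V * Real.log V) + φ j * (V / 2 * Real.log V) =
            φ j * (T * Real.log V) := by
          rw [← e]
          ring
        have h6 : φ j * (T * Real.log V) ≤ φ j * (T * Real.log T) := by
          have := hφ j
          gcongr
        linarith
  intro T hT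
  obtain ⟨n, hn⟩ := pow_unbounded_of_one_lt (T / V0) (show (1 : ℝ) < 3 / 2 by norm_num)
  refine key n T hT ?_
  rw [div_lt_iff₀ (by linarith)] at hn
  refine hn.le.trans ?_
  have : (3 / 2 : ℝ) ^ n ≤ (3 / 2) ^ (n + 1) := pow_le_pow_right₀ (by norm_num) (Nat.le_succ n)
  have hV0p : 0 < V0 := by linarith
  gcongr

end Pool.Agent.J4.H45.MT
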