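import Pool.Agent.N802.U.Rh

/-!
# Multiplication of a Dirichlet polynomial by the powers of a polynomial over primes
-/

open Complex Filter Topology Set MeasureTheory
open scoped BigOperators ComplexConjugate

namespace Pool.Agent.J4.H45.MT

open H370 Pool.Agent.N802 Pool.Agent.N802.U

/-- the coefficients of the product -/
noncomputable def cv (S P : Finset ℕ) (r b : ℕ → ℂ) (m : ℕ) : ℂ :=
  ∑ z ∈ (S ×ˢ P).filter (fun z => z.1 * z.2 = m), r z.1 * b z.2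

/-- the support of the product -/
def spr (S P : Finset ℕ) : Finset ℕ := (S ×ˢ P).image (fun z => z.1 * z.2)

lemma RP_mul {S P : Finset ℕ} (r b : ℕ → ℂ) (hS : ∀ k ∈ S, 0 < k) (hP : ∀ p ∈ P, 0 < p) (t : ℝ) :
    RP S r t * RP P b t = RP (spr S P) (cv S P r b) t := by
  unfold RP
  rw [TP_mul S r _ _ P b _ _ hS (fun _ _ => one_pos) hP (fun _ _ => one_pos)]
  unfold TP cv
  rw [← Finset.sum_fiberwise_of_maps_to (s := S ×ˢ P) (t := spr S P)
    (g := fun z : ℕ × ℕ => z.1 * z.2) (fun z hz => Finset.mem_image_of_mem _ hz)]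
  refine Finset.sum_congr rfl fun m _ => ?_
  rw [Finset.sum_mul]
  refine Finset.sum_congr rfl fun z hz => ?_
  rw [Finset.mem_filter] at hz
  simp only
  rw [hz.2, mul_one]

lemma sum_log_fib {S P : Finset ℕ} (hS : ∀ k ∈ S, 1 ≤ k) (hP : ∀ p ∈ P, p.Prime) {m : ℕ}
    (hm : m ∈ spr S P) :
    ∑ z ∈ (S ×ˢ P).filter (fun z => z.1 * z.2 = m), Real.log z.2 ≤ Real.log m := by
  classical
  have hm0 : m ≠ 0 := by
    obtain ⟨z, hz, rfl⟩ := Finset.mem_image.1 hm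
    rw [Finset.mem_product] at hz
    have h1 := hS _ hz.1
    have h2 := (hP _ hz.2).pos
    positivity
  set fib := (S ×ˢ P).filter (fun z => z.1 * z.2 = m) with hfib
  have hinj : Set.InjOn Prod.snd (fib : Set (ℕ × ℕ)) := by
    intro z hz w hw h
    rw [Finset.mem_coe, hfib, Finset.mem_filter, Finset.mem_product] at hz hw
    have h2 := (hP _ hw.1.2).pos
    have h3 : z.1 * w.2 = w.1 * w.2 := by
      have e : z.2 = w.2 := h
      rw [← e, hz.2, ← hw.2, e]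
    exact Prod.ext (Nat.eq_of_mul_eq_mul_right h2 h3) h
  have h1 : ∑ z ∈ fib, Real.log z.2 = ∑ p ∈ fib.image Prod.snd, Real.log p :=
    (Finset.sum_image (f := fun p : ℕ => Real.log p) hinj).symm
  rw [h1]
  have h2 : fib.image Prod.snd ⊆ m.primeFactors := by
    intro p hp
    obtain ⟨z, hz, rfl⟩ := Finset.mem_image.1 hp
    rw [hfib, Finset.mem_filter, Finset.mem_product] at hz
    exact Nat.mem_primeFactors.2 ⟨hP _ hz.1.2, ⟨z.1, by rw [← hz.2, mul_comm]⟩, hm0⟩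
  have h3 : ∑ p ∈ fib.image Prod.snd, Real.log p ≤ ∑ p ∈ m.primeFactors, Real.log p :=
    Finset.sum_le_sum_of_subset_of_nonneg h2 fun p hp _ => Real.log_natCast_nonneg p
  refine h3.trans ?_
  have h4 : ∑ p ∈ m.primeFactors, Real.log p = Real.log ((∏ p ∈ m.primeFactors, p : ℕ) : ℝ) := by
    rw [Nat.cast_prod, Real.log_prod]
    intro p hp
    exact_mod_cast (Nat.prime_of_mem_primeFactors hp).ne_zero
  rw [h4]
  have h5 : (∏ p ∈ m.primeFactors, p) ≤ m :=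
    Nat.le_of_dvd (Nat.pos_of_ne_zero hm0) (Nat.prod_primeFactors_dvd m)
  have h6 : 0 < ∏ p ∈ m.primeFactors, p :=
    Finset.prod_pos fun p hp => (Nat.prime_of_mem_primeFactors hp).pos
  exact Real.log_le_log (by exact_mod_cast h6) (by exact_mod_cast h5)

/-- one multiplication -/
lemma w1_mul {S P : Finset ℕ} (r b : ℕ → ℂ) (hS : ∀ k ∈ S, 1 ≤ k) (hP : ∀ p ∈ P, p.Prime) {Λ : ℝ}
    (hΛ : ∀ k ∈ S, ∀ p ∈ P, Real.log ((k * p : ℕ) : ℝ) ≤ Λ) :
    w1 (spr S P) (cv S P r b) ≤ Λ * (∑ p ∈ P, ‖b p‖ ^ 2 / Real.log p) * w1 S r := by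
  classical
  have h1 : ∀ m ∈ spr S P, ‖cv S P r b m‖ ^ 2 ≤
      Λ * ∑ z ∈ (S ×ˢ P).filter (fun z => z.1 * z.2 = m),
        ‖r z.1‖ ^ 2 * (‖b z.2‖ ^ 2 / Real.log z.2) := by
    intro m hm
    have hpos : ∀ z ∈ (S ×ˢ P).filter (fun z => z.1 * z.2 = m), 0 < Real.log z.2 := by
      intro z hz
      rw [Finset.mem_filter, Finset.mem_product] at hz
      exact Real.log_pos (by exact_mod_cast (hP _ hz.1.2).one_lt)
    have h2 : ‖cv S P r b m‖ ≤ ∑ z ∈ (S ×ˢ P).filter (fun z => z.1 * z.2 = m),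
        ‖r z.1‖ * ‖b z.2‖ := by
      unfold cv
      refine (norm_sum_le _ _).trans (Finset.sum_le_sum fun z _ => ?_)
      rw [norm_mul]
    have h3 : (∑ z ∈ (S ×ˢ P).filter (fun z => z.1 * z.2 = m), ‖r z.1‖ * ‖b z.2‖) ^ 2 ≤
        (∑ z ∈ (S ×ˢ P).filter (fun z => z.1 * z.2 = m), Real.log z.2) *
        ∑ z ∈ (S ×ˢ P).filter (fun z => z.1 * z.2 = m),
        ‖r z.1‖ ^ 2 * (‖b z.2‖ ^ 2 / Real.log z.2) := by
      refine Finset.sum_sq_le_sum_mul_sum_of_sq_le_mul _ (fun z hz => (hpos z hz).le)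
        (fun z hz => ?_) (fun z hz => ?_)
      · have := hpos z hz
        positivity
      · have := hpos z hz
        refine le_of_eq ?_
        field_simp
    have h4 : Real.log m ≤ Λ := by
      obtain ⟨z, hz, rfl⟩ := Finset.mem_image.1 hm
      rw [Finset.mem_product] at hz
      exact hΛ _ hz.1 _ hz.2
    have h5 : 0 ≤ ∑ z ∈ (S ×ˢ P).filter (fun z => z.1 * z.2 = m),
        ‖r z.1‖ ^ 2 * (‖b z.2‖ ^ 2 / Real.log z.2) :=
      Finset.sum_nonneg fun z hz => by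
        have := hpos z hz
        positivity
    calc ‖cv S P r b m‖ ^ 2 ≤
        (∑ z ∈ (S ×ˢ P).filter (fun z => z.1 * z.2 = m), ‖r z.1‖ * ‖b z.2‖) ^ 2 :=
          pow_le_pow_left₀ (norm_nonneg _) h2 2
      _ ≤ _ := h3
      _ ≤ _ := mul_le_mul_of_nonneg_right ((sum_log_fib hS hP hm).trans h4) h5
  unfold w1
  calc ∑ m ∈ spr S P, ‖cv S P r b m‖ ^ 2 ≤
      ∑ m ∈ spr S P, Λ * ∑ z ∈ (S ×ˢ P).filter (fun z => z.1 * z.2 = m),
        ‖r z.1‖ ^ 2 * (‖b z.2‖ ^ 2 / Real.log z.2) := Finset.sum_le_sum h1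
    _ = Λ * ∑ z ∈ S ×ˢ P, ‖r z.1‖ ^ 2 * (‖b z.2‖ ^ 2 / Real.log z.2) := by
      rw [← Finset.mul_sum]
      congr 1
      exact Finset.sum_fiberwise_of_maps_to (s := S ×ˢ P) (t := spr S P)
        (g := fun z : ℕ × ℕ => z.1 * z.2) (fun z hz => Finset.mem_image_of_mem _ hz) _
    _ = Λ * (∑ p ∈ P, ‖b p‖ ^ 2 / Real.log p) * ∑ k ∈ S, ‖r k‖ ^ 2 := by
      rw [Finset.sum_product]
      simp only
      rw [mul_assoc]
      congr 1
      rw [mul_comm, Finset.sum_mul]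
      refine Finset.sum_congr rfl fun k _ => ?_
      rw [Finset.mul_sum]

lemma w1_iter {S P : Finset ℕ} (r b : ℕ → ℂ) {M Y Λ B : ℝ} (hM : 1 ≤ M) (hY : 1 ≤ Y)
    (hS : Len S M) (hP : ∀ p ∈ P, p.Prime ∧ (p : ℝ) ≤ Y)
    (hB : ∑ p ∈ P, ‖b p‖ ^ 2 / Real.log p ≤ B) (k : ℕ) (hk : Real.log (M * Y ^ k) ≤ Λ) :
    ∃ (S' : Finset ℕ) (r' : ℕ → ℂ), Len S' (M * Y ^ k) ∧
      (∀ t : ℝ, RP S' r' t = RP S r t * RP P b t ^ k) ∧ w1 S' r' ≤ (Λ * B) ^ k * w1 S r := by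
  induction k with
  | zero =>
    refine ⟨S, r, by simpa using hS, fun t => by simp, by simp⟩
  | succ k ih =>
    have hMY : 0 < M * Y ^ k := by positivity
    have hle : M * Y ^ k ≤ M * Y ^ (k + 1) := by
      have : Y ^ k ≤ Y ^ (k + 1) := pow_le_pow_right₀ hY (Nat.le_succ k)
      gcongr
    have hk' : Real.log (M * Y ^ k) ≤ Λ := (Real.log_le_log hMY hle).trans hk
    obtain ⟨S', r', h1, h2, h3⟩ := ih hk'
    have hΛ0 : 0 ≤ Λ := by
      refine le_trans (Real.log_nonneg ?_) hk'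
      have : 1 ≤ Y ^ k := one_le_pow₀ hY
      nlinarith
    have hmul : ∀ a ∈ S', ∀ p ∈ P, 1 ≤ a * p ∧ ((a * p : ℕ) : ℝ) ≤ M * Y ^ (k + 1) := by
      intro a ha p hp
      have b1 := h1 a ha
      have b2 := hP p hp
      refine ⟨?_, ?_⟩
      · have := b2.1.pos
        have h5 : 0 < a := b1.1
        have : 0 < a * p := Nat.mul_pos h5 this
        omega
      · push_cast
        calc (a : ℝ) * p ≤ (M * Y ^ k) * Y := by
              have := b1.2
              have := b2.2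
              gcongr
          _ = _ := by ring
    refine ⟨spr S' P, cv S' P r' b, ?_, ?_, ?_⟩
    · intro m hm
      obtain ⟨z, hz, rfl⟩ := Finset.mem_image.1 hm
      rw [Finset.mem_product] at hz
      exact hmul _ hz.1 _ hz.2
    · intro t
      rw [← RP_mul r' b (fun k hk => (h1 k hk).1) (fun p hp => (hP p hp).1.pos), h2]
      ring
    · have h4 := w1_mul r' b (S := S') (P := P) (Λ := Λ) (fun k hk => (h1 k hk).1)
        (fun p hp => (hP p hp).1) (fun a ha p hp => by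
          have := hmul a ha p hp
          have h6 : (0 : ℝ) < ((a * p : ℕ) : ℝ) := by exact_mod_cast this.1
          exact (Real.log_le_log h6 this.2).trans hk)
      have h7 : 0 ≤ ∑ p ∈ P, ‖b p‖ ^ 2 / Real.log p :=
        Finset.sum_nonneg fun p hp => by
          have := Real.log_nonneg (show (1 : ℝ) ≤ p by exact_mod_cast (hP p hp).1.one_lt.le)
          positivity
      have hB0 : 0 ≤ B := h7.trans hB
      have h8 := w1_nonneg S' r'
      calc w1 (spr S' P) (cv S' P r' b) ≤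
          Λ * (∑ p ∈ P, ‖b p‖ ^ 2 / Real.log p) * w1 S' r' := h4
        _ ≤ Λ * B * ((Λ * B) ^ k * w1 S r) := by
            apply mul_le_mul _ h3 h8 (by positivity)
            gcongr
        _ = (Λ * B) ^ (k + 1) * w1 S r := by ring

/-- the moments of a polynomial over primes, with an arbitrary weight -/
theorem moments : ∃ T0 : ℝ, 10 ≤ T0 ∧ ∀ T : ℝ, T0 ≤ T → ∀ S : Finset ℕ, Len S (T ^ (1 / 16 : ℝ)) →
    ∀ (r : ℕ → ℂ) (τ H : ℝ), T ^ (7 / 8 : ℝ) ≤ H → ∀ (P : Finset ℕ) (b : ℕ → ℂ) (Y B : ℝ), 1 ≤ Y →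
    (∀ p ∈ P, p.Prime ∧ (p : ℝ) ≤ Y) → ∑ p ∈ P, ‖b p‖ ^ 2 / Real.log p ≤ B → ∀ k : ℕ,
    Y ^ k ≤ T ^ (1 / 16 : ℝ) →
    Integrable (fun t => rh τ H S r t * ‖RP P b t‖ ^ (2 * k)) ∧
    ∫ t : ℝ, rh τ H S r t * ‖RP P b t‖ ^ (2 * k) ≤ 2 * (Real.log T * B) ^ k * mr H S r := by
  obtain ⟨T0, hT0, hm⟩ := rh_mass
  refine ⟨T0, hT0, fun T hT S hS r τ H hH P b Y B hY hP hB k hk => ?_⟩
  have hT1 : 1 ≤ T := by linarith
  have hTp : 0 < T := by linarith
  have hM : 1 ≤ T ^ (1 / 16 : ℝ) := Real.one_le_rpow hT1 (by norm_num)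
  have hlen : T ^ (1 / 16 : ℝ) * Y ^ k ≤ T ^ (1 / 8 : ℝ) := by
    calc T ^ (1 / 16 : ℝ) * Y ^ k ≤ T ^ (1 / 16 : ℝ) * T ^ (1 / 16 : ℝ) := by gcongr
      _ = T ^ (1 / 8 : ℝ) := by
        rw [← Real.rpow_add hTp]
        norm_num
  have hpos : 0 < T ^ (1 / 16 : ℝ) * Y ^ k := by positivity
  have hlog : Real.log (T ^ (1 / 16 : ℝ) * Y ^ k) ≤ Real.log T := by
    refine (Real.log_le_log hpos hlen).trans ?_
    rw [Real.log_rpow hTp]
    have := Real.log_nonneg hT1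
    linarith
  obtain ⟨S', r', h1, h2, h3⟩ := w1_iter r b hM hY hS hP hB k hlog
  have h4 := hm T hT S' (Len_mono h1 hlen) r' τ H hH
  have e : ∀ t, rh τ H S' r' t = rh τ H S r t * ‖RP P b t‖ ^ (2 * k) := by
    intro t
    unfold rh
    rw [h2, norm_mul, norm_pow, mul_pow, ← pow_mul, mul_comm k 2]
    ring
  have hH0 : 0 < H := lt_of_lt_of_le (by positivity) hH
  have e2 : (fun t => rh τ H S r t * ‖RP P b t‖ ^ (2 * k)) = rh τ H S' r' := by
    funext t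
    rw [e]
  rw [e2]
  refine ⟨rh_intg hH0 S' r', h4.trans ?_⟩
  unfold mr
  have h5 : 0 ≤ Real.sqrt (2 * Real.pi) * H := by positivity
  calc 2 * (Real.sqrt (2 * Real.pi) * H * w1 S' r') ≤
      2 * (Real.sqrt (2 * Real.pi) * H * ((Real.log T * B) ^ k * w1 S r)) := by gcongr
    _ = _ := by ring

end Pool.Agent.J4.H45.MT
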