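import Pool.Agent.J4.H45.MT.Ker

/-!
# The localised kernel `K1 (ℓ z) exp (- z ^ 2 / 2)` near the real line
-/

open Complex Filter Topology Set MeasureTheory
open scoped BigOperators ComplexConjugate

namespace Pool.Agent.J4.H45.MT

lemma K1_hasDeriv (z : ℂ) : HasDerivAt K1
    (∫ u : ℝ, (dn u : ℂ) * (cexp (I * u * z) * (I * u))) z := by
  have hd := dn_cont
  refine (hasDerivAt_integral_of_dominated_loc_of_deriv_le (μ := volume)
    (F := fun (z : ℂ) (u : ℝ) => (dn u : ℂ) * cexp (I * u * z))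
    (F' := fun (z : ℂ) (u : ℝ) => (dn u : ℂ) * (cexp (I * u * z) * (I * u)))
    (bound := fun u => dn u * Real.exp (‖z‖ + 1)) (Metric.ball_mem_nhds z one_pos) ?_ ?_ ?_ ?_ ?_
    ?_).2
  · exact Eventually.of_forall fun w => Continuous.aestronglyMeasurable (by fun_prop)
  · refine (dn_int.mul_const (Real.exp (‖z‖ + 1))).mono'
      (Continuous.aestronglyMeasurable (by fun_prop)) (Eventually.of_forall fun u => ?_)
    rw [norm_mul, Complex.norm_real, Real.norm_of_nonneg (dn_nonneg u), Complex.norm_exp]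
    by_cases hu : 1 ≤ |u|
    · rw [dn_zero hu, zero_mul, zero_mul]
    · push Not at hu
      refine mul_le_mul_of_nonneg_left (Real.exp_le_exp.2 ?_) (dn_nonneg u)
      refine (Complex.re_le_norm _).trans ?_
      rw [norm_mul, norm_mul, Complex.norm_I, Complex.norm_real, one_mul, Real.norm_eq_abs]
      nlinarith [norm_nonneg z]
  · exact Continuous.aestronglyMeasurable (by fun_prop)
  · refine Eventually.of_forall fun u w hw => ?_
    rw [norm_mul, norm_mul, Complex.norm_real, Real.norm_of_nonneg (dn_nonneg u),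
      Complex.norm_exp]
    by_cases hu : 1 ≤ |u|
    · rw [dn_zero hu, zero_mul, zero_mul]
    · push Not at hu
      have hw' : ‖w‖ ≤ ‖z‖ + 1 := by
        have h1 : ‖w - z‖ < 1 := by rwa [Metric.mem_ball, dist_eq_norm] at hw
        have h2 := norm_sub_norm_le w z
        linarith
      refine mul_le_mul_of_nonneg_left ?_ (dn_nonneg u)
      have h3 : Real.exp (I * u * w).re ≤ Real.exp (‖z‖ + 1) := by
        refine Real.exp_le_exp.2 ((Complex.re_le_norm _).trans ?_)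
        rw [norm_mul, norm_mul, Complex.norm_I, Complex.norm_real, one_mul, Real.norm_eq_abs]
        nlinarith [norm_nonneg w, abs_nonneg u]
      have h4 : ‖I * (u : ℂ)‖ ≤ 1 := by
        rw [norm_mul, Complex.norm_I, Complex.norm_real, one_mul, Real.norm_eq_abs]
        exact hu.le
      calc Real.exp (I * u * w).re * ‖I * (u : ℂ)‖ ≤ Real.exp (‖z‖ + 1) * 1 :=
            mul_le_mul h3 h4 (norm_nonneg _) (Real.exp_pos _).le
        _ = _ := mul_one _
  · exact dn_int.mul_const _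
  · refine Eventually.of_forall fun u w _ => ?_
    have h1 : HasDerivAt (fun w : ℂ => I * u * w) (I * u) w := by
      have := (hasDerivAt_id w).const_mul (I * (u : ℂ))
      rwa [mul_one] at this
    exact h1.cexp.const_mul _

lemma K1_diff : Differentiable ℂ K1 := fun z => (K1_hasDeriv z).differentiableAt

/-- the local kernel -/
noncomputable def kf (ℓ : ℝ) (z : ℂ) : ℂ := K1 (ℓ * z) * cexp (-z ^ 2 / 2)

lemma kf_diff (ℓ : ℝ) : Differentiable ℂ (kf ℓ) := by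
  unfold kf
  have h1 := K1_diff
  have h2 : Differentiable ℂ (fun z : ℂ => K1 (ℓ * z)) := h1.comp (by fun_prop)
  exact h2.mul (by fun_prop)

lemma norm_gauss (z : ℂ) : ‖cexp (-z ^ 2 / 2)‖ = Real.exp ((z.im ^ 2 - z.re ^ 2) / 2) := by
  rw [Complex.norm_exp]
  congr 1
  have : -z ^ 2 / 2 = ((-(1 / 2) : ℝ) : ℂ) * z ^ 2 := by push_cast; ring
  rw [this, Complex.re_ofReal_mul, sq, Complex.mul_re]
  ring

lemma kf_bound {ℓ : ℝ} (hℓ : 0 ≤ ℓ) (z : ℂ) : ‖kf ℓ z‖ ≤
    10 * Real.exp (ℓ * |z.im|) / (1 + (ℓ * z.re) ^ 2) * Real.exp ((z.im ^ 2 - z.re ^ 2) / 2) := by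
  unfold kf
  rw [norm_mul, norm_gauss]
  have h := K1_bound (ℓ * z)
  rw [Complex.re_ofReal_mul, Complex.im_ofReal_mul, abs_mul, abs_of_nonneg hℓ] at h
  exact mul_le_mul_of_nonneg_right h (Real.exp_pos _).le

/-- the derivative of the local kernel -/
lemma kf_deriv {ℓ : ℝ} (hℓ : 1 ≤ ℓ) {z : ℂ} (hz : |z.im| * ℓ ≤ 1) :
    ‖deriv (kf ℓ) z‖ ≤ 3000 * ℓ * (Real.exp (-z.re ^ 2 / 4) / (1 + (ℓ * z.re) ^ 2)) := by
  have hℓ0 : 0 < ℓ := by linarith
  set A := Real.exp (-z.re ^ 2 / 4) / (1 + (ℓ * z.re) ^ 2) with hA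
  have hA0 : 0 < A := by positivity
  have h := Complex.norm_deriv_le_of_forall_mem_sphere_norm_le (f := kf ℓ) (c := z)
    (R := 1 / ℓ) (C := 3000 * A) (by positivity) (kf_diff ℓ).diffContOnCl ?_
  · refine h.trans (le_of_eq ?_)
    field_simp
  · intro w hw
    have hw' : ‖w - z‖ = 1 / ℓ := by rwa [mem_sphere_iff_norm] at hw
    have hr : |w.re - z.re| ≤ 1 / ℓ := by
      have := Complex.abs_re_le_norm (w - z)
      rwa [Complex.sub_re, hw'] at this
    have hi : |w.im - z.im| ≤ 1 / ℓ := by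
      have := Complex.abs_im_le_norm (w - z)
      rwa [Complex.sub_im, hw'] at this
    have hinv : 1 / ℓ ≤ 1 := by rw [div_le_one hℓ0]; exact hℓ
    have hinv0 : 0 < 1 / ℓ := by positivity
    have hm : 1 / ℓ * ℓ = 1 := by field_simp
    have hwi : |w.im| * ℓ ≤ 2 := by
      have h1 : |w.im| ≤ |z.im| + 1 / ℓ := by
        have := abs_sub_abs_le_abs_sub w.im z.im
        linarith
      nlinarith
    have hwi2 : w.im ^ 2 ≤ 4 := by
      have h1 : |w.im| ≤ 2 := by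
        have := abs_nonneg w.im
        nlinarith
      have h2 : w.im ^ 2 = |w.im| ^ 2 := (sq_abs _).symm
      rw [h2]
      nlinarith [abs_nonneg w.im]
    have hwr : z.re ^ 2 ≤ 2 * w.re ^ 2 + 2 := by
      have h1 : (w.re - z.re) ^ 2 ≤ 1 := by
        rw [← sq_abs]
        have := abs_nonneg (w.re - z.re)
        nlinarith
      nlinarith [sq_nonneg (w.re + (w.re - z.re)), sq_nonneg (w.re - (w.re - z.re))]
    have hwr2 : 1 + (ℓ * z.re) ^ 2 ≤ 3 * (1 + (ℓ * w.re) ^ 2) := by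
      have h1 : (ℓ * (w.re - z.re)) ^ 2 ≤ 1 := by
        rw [mul_pow, ← sq_abs (w.re - z.re), ← mul_pow]
        have h2 : ℓ * |w.re - z.re| ≤ 1 := by nlinarith
        have h3 : 0 ≤ ℓ * |w.re - z.re| := by positivity
        nlinarith
      have e : ℓ * z.re = ℓ * w.re - ℓ * (w.re - z.re) := by ring
      rw [e]
      set a := ℓ * w.re
      set b := ℓ * (w.re - z.re)
      nlinarith [sq_nonneg (a + b), sq_nonneg (2 * a + b), sq_nonneg (a - b)]
    refine (kf_bound hℓ0.le w).trans ?_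
    have e1 : Real.exp (ℓ * |w.im|) ≤ Real.exp 2 := Real.exp_le_exp.2 (by linarith)
    have e2 : Real.exp ((w.im ^ 2 - w.re ^ 2) / 2) ≤ Real.exp (5 / 2) *
        Real.exp (-z.re ^ 2 / 4) := by
      rw [← Real.exp_add]
      apply Real.exp_le_exp.2
      linarith
    have e3 : 10 * Real.exp (ℓ * |w.im|) / (1 + (ℓ * w.re) ^ 2) ≤
        30 * Real.exp 2 / (1 + (ℓ * z.re) ^ 2) := by
      rw [div_le_div_iff₀ (by positivity) (by positivity)]
      calc 10 * Real.exp (ℓ * |w.im|) * (1 + (ℓ * z.re) ^ 2) ≤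
          10 * Real.exp 2 * (3 * (1 + (ℓ * w.re) ^ 2)) := by gcongr
        _ = _ := by ring
    have e4 : Real.exp 2 * Real.exp (5 / 2) ≤ 100 := by
      rw [← Real.exp_add]
      have h5 : Real.exp (2 + 5 / 2) ^ 2 ≤ 100 ^ 2 := by
        rw [← Real.exp_nat_mul]
        have h6 : Real.exp (((2 : ℕ) : ℝ) * (2 + 5 / 2)) = Real.exp 1 ^ 9 := by
          rw [← Real.exp_nat_mul]
          norm_num
        rw [h6]
        have h7 := Real.exp_one_lt_d9
        calc Real.exp 1 ^ 9 ≤ 2.7182818286 ^ 9 := by gcongr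
          _ ≤ 100 ^ 2 := by norm_num
      exact (abs_le_of_sq_le_sq' h5 (by norm_num)).2
    calc 10 * Real.exp (ℓ * |w.im|) / (1 + (ℓ * w.re) ^ 2) *
        Real.exp ((w.im ^ 2 - w.re ^ 2) / 2) ≤
        (30 * Real.exp 2 / (1 + (ℓ * z.re) ^ 2)) * (Real.exp (5 / 2) *
        Real.exp (-z.re ^ 2 / 4)) := by gcongr
      _ = 30 * (Real.exp 2 * Real.exp (5 / 2)) * A := by rw [hA]; ring
      _ ≤ 30 * 100 * A := by gcongr
      _ = _ := by ring

/-- near the real line the local kernel is close to its value at the real part -/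
lemma kf_near {ℓ η : ℝ} (hℓ : 1 ≤ ℓ) (hη : η ≤ 1) {z : ℂ} (hz : |z.im| * ℓ ≤ η) :
    ‖kf ℓ z - kf ℓ z.re‖ ≤ 3000 * η * (Real.exp (-z.re ^ 2 / 4) / (1 + (ℓ * z.re) ^ 2)) := by
  have hℓ0 : 0 < ℓ := by linarith
  set A := Real.exp (-z.re ^ 2 / 4) / (1 + (ℓ * z.re) ^ 2) with hA
  have hA0 : 0 < A := by positivity
  let s : Set ℂ := {w | w.re = z.re} ∩ {w | |w.im| ≤ |z.im|}
  have hs : Convex ℝ s := by
    apply Convex.inter
    · intro a ha b hb p q _ _ hpq
      show (p • a + q • b).re = z.re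
      simp only [Complex.add_re, Complex.real_smul, Complex.re_ofReal_mul]
      rw [show a.re = z.re from ha, show b.re = z.re from hb]
      rw [← add_mul, hpq, one_mul]
    · intro a ha b hb p q hp hq hpq
      show |(p • a + q • b).im| ≤ |z.im|
      simp only [Complex.add_im, Complex.real_smul, Complex.im_ofReal_mul]
      have ha' : |a.im| ≤ |z.im| := ha
      have hb' : |b.im| ≤ |z.im| := hb
      calc |p * a.im + q * b.im| ≤ |p * a.im| + |q * b.im| := abs_add_le _ _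
        _ = p * |a.im| + q * |b.im| := by rw [abs_mul, abs_mul, abs_of_nonneg hp, abs_of_nonneg hq]
        _ ≤ p * |z.im| + q * |z.im| := by gcongr
        _ = |z.im| := by rw [← add_mul, hpq, one_mul]
  have h := hs.norm_image_sub_le_of_norm_deriv_le (f := kf ℓ) (C := 3000 * ℓ * A)
    (x := (z.re : ℂ)) (y := z) (fun w _ => (kf_diff ℓ) w) ?_ ?_ ?_
  · refine h.trans ?_
    have e : ‖z - (z.re : ℂ)‖ = |z.im| := by
      have h1 : z - (z.re : ℂ) = (z.im : ℂ) * I := by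
        apply Complex.ext <;> simp
      rw [h1, norm_mul, Complex.norm_I, mul_one, Complex.norm_real, Real.norm_eq_abs]
    rw [e]
    calc 3000 * ℓ * A * |z.im| = 3000 * (|z.im| * ℓ) * A := by ring
      _ ≤ 3000 * η * A := by gcongr
  · intro w hw
    have h1 : w.re = z.re := hw.1
    have h2 : |w.im| ≤ |z.im| := hw.2
    have h3 := kf_deriv hℓ (z := w) (by
      calc |w.im| * ℓ ≤ |z.im| * ℓ := by gcongr
        _ ≤ 1 := hz.trans hη)
    rw [h1] at h3
    exact h3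
  · refine ⟨Complex.ofReal_re _, ?_⟩
    show |((z.re : ℂ)).im| ≤ |z.im|
    rw [Complex.ofReal_im, abs_zero]
    exact abs_nonneg _
  · exact ⟨rfl, show |z.im| ≤ |z.im| from le_refl _⟩

lemma kf_real (ℓ x : ℝ) : 0.2 * (Real.exp (-x ^ 2 / 2) / (1 + (ℓ * x) ^ 2)) ≤ (kf ℓ x).re := by
  unfold kf
  have e : cexp (-(x : ℂ) ^ 2 / 2) = (Real.exp (-x ^ 2 / 2) : ℂ) := by
    push_cast
    ring_nf
  rw [e, mul_comm (K1 _), Complex.re_ofReal_mul]
  have h := K1_lower (ℓ * x)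
  push_cast at h
  have h2 := mul_le_mul_of_nonneg_left h (Real.exp_pos (-x ^ 2 / 2)).le
  refine le_trans (le_of_eq ?_) h2
  ring

/-- the threshold for the near zeros -/
noncomputable def eta0 : ℝ := 1 / 50000

/-- the contribution of a point near the real line -/
lemma kf_low_near {ℓ h : ℝ} (hℓ : 1 ≤ ℓ) (h1 : h ≤ 1) (hh : ℓ * h ≤ 3 / 2) {z : ℂ}
    (hz : |z.im| * ℓ ≤ eta0) :
    (if |z.re| ≤ h then (0.018 : ℝ) else 0) ≤ (kf ℓ z).re + Real.exp (-z.re ^ 2 / 4) / ℓ ^ 2 := by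
  have hn := kf_near hℓ (η := eta0) (by unfold eta0; norm_num) hz
  have hr := kf_real ℓ z.re
  set x := z.re with hx
  have hre : (kf ℓ x).re - 0.06 * (Real.exp (-x ^ 2 / 4) / (1 + (ℓ * x) ^ 2)) ≤ (kf ℓ z).re := by
    have h2 := (Complex.abs_re_le_norm (kf ℓ z - kf ℓ x)).trans hn
    rw [Complex.sub_re] at h2
    have h3 := (abs_le.1 h2).1
    unfold eta0 at h3
    have h4 : 3000 * (1 / 50000 : ℝ) = 0.06 := by norm_num
    rw [h4] at h3
    linarith
  have hp : 0 < 1 + (ℓ * x) ^ 2 := by positivity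
  have hl2 : 0 < ℓ ^ 2 := by positivity
  by_cases hx1 : |x| ≤ 1
  · have hx2 : x ^ 2 ≤ 1 := by
      rw [← sq_abs]
      nlinarith [abs_nonneg x]
    have g1 : 0.6 ≤ Real.exp (-x ^ 2 / 2) := by
      have : 1 - 1 / 2 + (1 / 2) ^ 2 / 2 - (1 / 2 : ℝ) ^ 3 / 6 ≤ Real.exp (-(1 / 2)) := by
        have h5 := Real.exp_one_lt_d9
        have h6 : Real.exp (-(1 / 2)) ^ 2 = (Real.exp 1)⁻¹ := by
          rw [← Real.exp_nat_mul, ← Real.exp_neg]
          norm_num
        have h7 : (0.6059 : ℝ) ^ 2 ≤ Real.exp (-(1 / 2)) ^ 2 := by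
          rw [h6, le_inv_comm₀ (by norm_num) (Real.exp_pos _)]
          refine h5.le.trans ?_
          norm_num
        have h8 := (abs_le_of_sq_le_sq' h7 (Real.exp_pos _).le).2
        norm_num at h8 ⊢
        linarith
      have h9 : Real.exp (-(1 / 2)) ≤ Real.exp (-x ^ 2 / 2) := Real.exp_le_exp.2 (by linarith)
      norm_num at this
      linarith
    have g2 : Real.exp (-x ^ 2 / 4) ≤ 1 := Real.exp_le_one_iff.2 (by
      have := sq_nonneg x
      linarith)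
    have g3 : 0.06 / (1 + (ℓ * x) ^ 2) ≤ (kf ℓ z).re := by
      refine le_trans ?_ hre
      have g4 : 0.2 * (0.6 / (1 + (ℓ * x) ^ 2)) ≤ (kf ℓ x).re := by
        refine le_trans ?_ hr
        gcongr
      have g5 : 0.06 * (Real.exp (-x ^ 2 / 4) / (1 + (ℓ * x) ^ 2)) ≤
          0.06 * (1 / (1 + (ℓ * x) ^ 2)) := by gcongr
      have g6 : 0.2 * (0.6 / (1 + (ℓ * x) ^ 2)) - 0.06 * (1 / (1 + (ℓ * x) ^ 2)) =
          0.06 / (1 + (ℓ * x) ^ 2) := by
        field_simp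
        norm_num
      linarith
    have g7 : 0 ≤ Real.exp (-x ^ 2 / 4) / ℓ ^ 2 := by positivity
    split_ifs with hxh
    · have g8 : (ℓ * x) ^ 2 ≤ 9 / 4 := by
        have : ℓ * |x| ≤ 3 / 2 := (mul_le_mul_of_nonneg_left hxh (by linarith)).trans hh
        rw [mul_pow, ← sq_abs x, ← mul_pow]
        have : 0 ≤ ℓ * |x| := by positivity
        nlinarith
      have g9 : 0.018 ≤ 0.06 / (1 + (ℓ * x) ^ 2) := by
        rw [le_div_iff₀ hp]
        nlinarith
      linarith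
    · have : 0 ≤ 0.06 / (1 + (ℓ * x) ^ 2) := by positivity
      linarith
  · push Not at hx1
    rw [if_neg (by intro h2; linarith)]
    have hx2 : 1 ≤ x ^ 2 := by
      rw [← sq_abs]
      nlinarith
    have g1 : 0 ≤ (kf ℓ x).re := le_trans (by positivity) hr
    have g2 : 0.06 * (Real.exp (-x ^ 2 / 4) / (1 + (ℓ * x) ^ 2)) ≤
        Real.exp (-x ^ 2 / 4) / ℓ ^ 2 := by
      have : ℓ ^ 2 ≤ 1 + (ℓ * x) ^ 2 := by
        rw [mul_pow]
        nlinarith
      have h3 : Real.exp (-x ^ 2 / 4) / (1 + (ℓ * x) ^ 2) ≤ Real.exp (-x ^ 2 / 4) / ℓ ^ 2 := by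
        gcongr
      have h4 : 0 ≤ Real.exp (-x ^ 2 / 4) / (1 + (ℓ * x) ^ 2) := by positivity
      linarith
    linarith

/-- the contribution of an arbitrary point -/
lemma kf_low_far {ℓ h : ℝ} (hℓ : 1 ≤ ℓ) (hh : ℓ * h ≤ 3 / 2) {z : ℂ}
    (hz : |z.im| ≤ 1 / 2) :
    (if |z.re| ≤ h then (0.018 : ℝ) else 0) ≤ (kf ℓ z).re +
      24 * (Real.exp (ℓ * |z.im|) * ((1 + ℓ * |z.re|) ^ 2)⁻¹) := by
  have hb := (Complex.abs_re_le_norm (kf ℓ z)).trans (kf_bound (by linarith) z)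
  have hb2 := (abs_le.1 hb).1
  set x := z.re with hx
  set y := z.im with hy
  have hE := Real.exp_pos (ℓ * |y|)
  have hE1 : 1 ≤ Real.exp (ℓ * |y|) := Real.one_le_exp (by positivity)
  have ha : 0 ≤ ℓ * |x| := by positivity
  have hx2 : (ℓ * x) ^ 2 = (ℓ * |x|) ^ 2 := by rw [mul_pow, mul_pow, sq_abs]
  have g1 : (1 + (ℓ * x) ^ 2)⁻¹ ≤ 2 * ((1 + ℓ * |x|) ^ 2)⁻¹ := by
    rw [hx2, ← div_eq_mul_inv, inv_le_comm₀ (by positivity) (by positivity), inv_div,
      div_le_iff₀ (by norm_num)]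
    nlinarith [sq_nonneg (ℓ * |x| - 1)]
  have g2 : Real.exp ((y ^ 2 - x ^ 2) / 2) ≤ 1.14 := by
    have h2 : (y ^ 2 - x ^ 2) / 2 ≤ 1 / 8 := by
      have h3 : y ^ 2 ≤ 1 / 4 := by
        rw [← sq_abs]
        nlinarith [abs_nonneg y]
      nlinarith [sq_nonneg x]
    refine (Real.exp_le_exp.2 h2).trans ?_
    have h3 : Real.exp (1 / 8) ^ 8 ≤ 1.14 ^ 8 := by
      rw [← Real.exp_nat_mul]
      have h4 : ((8 : ℕ) : ℝ) * (1 / 8) = 1 := by norm_num
      rw [h4]
      have := Real.exp_one_lt_d9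
      refine this.le.trans ?_
      norm_num
    exact le_of_pow_le_pow_left₀ (by norm_num) (by norm_num) h3
  have g3 : 10 * Real.exp (ℓ * |y|) / (1 + (ℓ * x) ^ 2) * Real.exp ((y ^ 2 - x ^ 2) / 2) ≤
      23 * (Real.exp (ℓ * |y|) * ((1 + ℓ * |x|) ^ 2)⁻¹) := by
    calc 10 * Real.exp (ℓ * |y|) / (1 + (ℓ * x) ^ 2) * Real.exp ((y ^ 2 - x ^ 2) / 2) =
        10 * Real.exp (ℓ * |y|) * (1 + (ℓ * x) ^ 2)⁻¹ * Real.exp ((y ^ 2 - x ^ 2) / 2) := by
          rw [div_eq_mul_inv]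
      _ ≤ 10 * Real.exp (ℓ * |y|) * (2 * ((1 + ℓ * |x|) ^ 2)⁻¹) * 1.14 := by gcongr
      _ = 22.8 * (Real.exp (ℓ * |y|) * ((1 + ℓ * |x|) ^ 2)⁻¹) := by ring
      _ ≤ _ := by
        gcongr
        norm_num
  have g4 : (if |x| ≤ h then (0.018 : ℝ) else 0) ≤
      Real.exp (ℓ * |y|) * ((1 + ℓ * |x|) ^ 2)⁻¹ := by
    split_ifs with hxh
    · have h2 : ℓ * |x| ≤ 3 / 2 := (mul_le_mul_of_nonneg_left hxh (by linarith)).trans hh
      have h3 : (1 + ℓ * |x|) ^ 2 ≤ 25 / 4 := by nlinarith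
      have h4 : (25 / 4 : ℝ)⁻¹ ≤ ((1 + ℓ * |x|) ^ 2)⁻¹ := by
        apply inv_anti₀ (by positivity) h3
      calc (0.018 : ℝ) ≤ 1 * (25 / 4 : ℝ)⁻¹ := by norm_num
        _ ≤ _ := mul_le_mul hE1 h4 (by norm_num) hE.le
    · positivity
  linarith

end Pool.Agent.J4.H45.MT
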