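import Pool.Agent.N802.U.Stm2
import Pool.Agent.J4.H45.MT.Loc

/-!
# The kernel as a band-limited function with its smoothed density
-/

open Complex Filter Topology Set MeasureTheory
open scoped BigOperators ComplexConjugate

namespace Pool.Agent.J4.H45.MT

open H370 Pool.Agent.N802 Pool.Agent.N802.U

/-- the scaled density -/
noncomputable def wl (ℓ v : ℝ) : ℂ := ((1 / ℓ * dn (v / ℓ) : ℝ) : ℂ)

/-- the scaled kernel -/
noncomputable def Wl (ℓ : ℝ) (z : ℂ) : ℂ := K1 (ℓ * z)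

lemma wl_cont (ℓ : ℝ) : Continuous (wl ℓ) := by
  unfold wl
  have := dn_cont
  fun_prop

lemma wl_norm {ℓ : ℝ} (hℓ : 0 < ℓ) (v : ℝ) : ‖wl ℓ v‖ = 1 / ℓ * dn (v / ℓ) := by
  unfold wl
  rw [Complex.norm_real, Real.norm_of_nonneg]
  have := dn_nonneg (v / ℓ)
  positivity

lemma bw_wl {ℓ : ℝ} (hℓ : 0 < ℓ) : BW ℓ (Wl ℓ) (wl ℓ) where
  meas := (wl_cont ℓ).measurable
  bdd := ⟨1 / ℓ, fun v => by
    rw [wl_norm hℓ]
    have := dn_le (v / ℓ)
    have h1 : 0 < 1 / ℓ := by positivity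
    nlinarith⟩
  sup := fun v hv => by
    unfold wl
    have h1 : 1 ≤ |v / ℓ| := by
      rw [abs_div, abs_of_pos hℓ, le_div_iff₀ hℓ]
      linarith
    rw [dn_zero h1, mul_zero, ofReal_zero]
  rep := fun z => by
    unfold Wl K1 wl
    have h := MeasureTheory.Measure.integral_comp_div
      (fun y : ℝ => (dn y : ℂ) * cexp (I * y * (ℓ * z))) ℓ
    have e : ∫ v : ℝ, ((1 / ℓ * dn (v / ℓ) : ℝ) : ℂ) * cexp (I * v * z) =
        (1 / ℓ : ℂ) * ∫ v : ℝ, (dn (v / ℓ) : ℂ) * cexp (I * ((v / ℓ : ℝ) : ℂ) * (ℓ * z)) := by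
      rw [← integral_const_mul]
      congr 1
      funext v
      have h1 : I * ((v / ℓ : ℝ) : ℂ) * (ℓ * z) = I * v * z := by
        have : (ℓ : ℂ) ≠ 0 := by exact_mod_cast hℓ.ne'
        push_cast
        field_simp
      rw [h1]
      push_cast
      ring
    rw [e, h, abs_of_pos hℓ, Complex.real_smul, ← mul_assoc]
    have : (1 / ℓ : ℂ) * ℓ = 1 := by
      have : (ℓ : ℂ) ≠ 0 := by exact_mod_cast hℓ.ne'
      field_simp
    rw [this, one_mul]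

lemma q2_wl {ℓ : ℝ} (hℓ : 0 < ℓ) : q2 (wl ℓ) ≤ 1 / ℓ := by
  unfold q2
  have e : ∀ v, ‖wl ℓ v‖ ^ 2 = (1 / ℓ) ^ 2 * (dn (v / ℓ)) ^ 2 := fun v => by
    rw [wl_norm hℓ]; ring
  simp_rw [e]
  rw [integral_const_mul]
  have h := MeasureTheory.Measure.integral_comp_div (fun y : ℝ => (dn y) ^ 2) ℓ
  rw [h, abs_of_pos hℓ, smul_eq_mul]
  have h2 := integral_dn_sq_le
  calc (1 / ℓ) ^ 2 * (ℓ * ∫ y : ℝ, dn y ^ 2) ≤ (1 / ℓ) ^ 2 * (ℓ * 1) := by gcongr
    _ = 1 / ℓ := by field_simp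

lemma q2_nonneg (w : ℝ → ℂ) : 0 ≤ q2 w := integral_nonneg fun _ => sq_nonneg _

/-- the smoothed density, a real function -/
noncomputable def gr (ℓ x : ℝ) : ℝ :=
  1 / Real.sqrt (2 * Real.pi) * ∫ v : ℝ, (1 / ℓ * dn (v / ℓ)) * Real.exp (-(x + v) ^ 2 / 2)

lemma gs_wl (ℓ x : ℝ) : gs (wl ℓ) x = ((gr ℓ x : ℝ) : ℂ) := by
  unfold gs gr wl
  have e : ∫ v : ℝ, ((1 / ℓ * dn (v / ℓ) : ℝ) : ℂ) * ((Real.exp (-(x + v) ^ 2 / 2) : ℝ) : ℂ) =
      ((∫ v : ℝ, (1 / ℓ * dn (v / ℓ)) * Real.exp (-(x + v) ^ 2 / 2) : ℝ) : ℂ) := by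
    rw [← integral_complex_ofReal]
    congr 1
    funext v
    rw [← Complex.ofReal_mul]
  rw [e, Complex.ofReal_mul]

lemma gr_even (ℓ x : ℝ) : gr ℓ (-x) = gr ℓ x := by
  unfold gr
  congr 1
  rw [← integral_neg_eq_self (fun v : ℝ => (1 / ℓ * dn (v / ℓ)) * Real.exp (-(x + v) ^ 2 / 2))]
  congr 1
  funext v
  rw [neg_div ℓ v, dn_even, show -(-x + v) ^ 2 / 2 = -(x + -v) ^ 2 / 2 by ring]

lemma gauss_shift (x : ℝ) : ∫ v : ℝ, Real.exp (-(x + v) ^ 2 / 2) = Real.sqrt (2 * Real.pi) := by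
  have h1 := integral_add_left_eq_self (μ := volume) (fun v : ℝ => Real.exp (-v ^ 2 / 2)) x
  rw [h1]
  have h2 := integral_gaussian (1 / 2 : ℝ)
  have e : ∀ v : ℝ, Real.exp (-v ^ 2 / 2) = Real.exp (-(1 / 2) * v ^ 2) := fun v => by
    congr 1; ring
  simp_rw [e]
  rw [h2]
  congr 1
  field_simp

lemma gauss_shift_int (x : ℝ) : Integrable (fun v : ℝ => Real.exp (-(x + v) ^ 2 / 2)) := by
  by_contra h
  have h1 := integral_undef h
  rw [gauss_shift] at h1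
  have : 0 < Real.sqrt (2 * Real.pi) := Real.sqrt_pos.2 (by positivity)
  linarith

lemma gr_nonneg {ℓ : ℝ} (hℓ : 0 < ℓ) (x : ℝ) : 0 ≤ gr ℓ x := by
  unfold gr
  refine mul_nonneg (by positivity) (integral_nonneg fun v => ?_)
  have := dn_nonneg (v / ℓ)
  positivity

lemma gr_le {ℓ : ℝ} (hℓ : 0 < ℓ) (x : ℝ) : gr ℓ x ≤ 1 / ℓ := by
  unfold gr
  have h1 : ∫ v : ℝ, (1 / ℓ * dn (v / ℓ)) * Real.exp (-(x + v) ^ 2 / 2) ≤
      1 / ℓ * Real.sqrt (2 * Real.pi) := by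
    rw [← gauss_shift x, ← integral_const_mul]
    refine integral_mono_of_nonneg (Eventually.of_forall fun v => ?_)
      ((gauss_shift_int x).const_mul _) (Eventually.of_forall fun v => ?_)
    · have := dn_nonneg (v / ℓ)
      positivity
    · refine mul_le_mul_of_nonneg_right ?_ (Real.exp_pos _).le
      have := dn_le (v / ℓ)
      have h1 : 0 < 1 / ℓ := by positivity
      nlinarith
  have h2 : 0 < Real.sqrt (2 * Real.pi) := Real.sqrt_pos.2 (by positivity)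
  calc 1 / Real.sqrt (2 * Real.pi) *
      ∫ v : ℝ, (1 / ℓ * dn (v / ℓ)) * Real.exp (-(x + v) ^ 2 / 2) ≤
      1 / Real.sqrt (2 * Real.pi) * (1 / ℓ * Real.sqrt (2 * Real.pi)) := by gcongr
    _ = 1 / ℓ := by field_simp

lemma integral_wl {ℓ : ℝ} (hℓ : 0 < ℓ) : ∫ v : ℝ, (1 / ℓ * dn (v / ℓ)) ≤ 1 := by
  rw [integral_const_mul]
  have h := MeasureTheory.Measure.integral_comp_div (fun y : ℝ => dn y) ℓ
  rw [h, abs_of_pos hℓ, smul_eq_mul]
  have h2 := integral_dn_le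
  calc 1 / ℓ * (ℓ * ∫ y : ℝ, dn y) ≤ 1 / ℓ * (ℓ * 1) := by gcongr
    _ = 1 := by field_simp

lemma gr_tail {ℓ : ℝ} (hℓ : 0 < ℓ) {x : ℝ} (hx : 2 * ℓ ≤ |x|) : gr ℓ x ≤ Real.exp (-x ^ 2 / 8) := by
  unfold gr
  have h1 : ∫ v : ℝ, (1 / ℓ * dn (v / ℓ)) * Real.exp (-(x + v) ^ 2 / 2) ≤
      Real.exp (-x ^ 2 / 8) := by
    have h3 : ∫ v : ℝ, (1 / ℓ * dn (v / ℓ)) * Real.exp (-(x + v) ^ 2 / 2) ≤
        ∫ v : ℝ, (1 / ℓ * dn (v / ℓ)) * Real.exp (-x ^ 2 / 8) := by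
      refine integral_mono_of_nonneg (Eventually.of_forall fun v => ?_)
        (Integrable.mul_const ?_ _) (Eventually.of_forall fun v => ?_)
      · have := dn_nonneg (v / ℓ)
        positivity
      · exact (Integrable.comp_div dn_int hℓ.ne').const_mul _
      · show (1 / ℓ * dn (v / ℓ)) * Real.exp (-(x + v) ^ 2 / 2) ≤
          (1 / ℓ * dn (v / ℓ)) * Real.exp (-x ^ 2 / 8)
        by_cases hv : ℓ ≤ |v|
        · have h5 : 1 ≤ |v / ℓ| := by
            rw [abs_div, abs_of_pos hℓ, le_div_iff₀ hℓ]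
            linarith
          rw [dn_zero h5, mul_zero, zero_mul, zero_mul]
        · push Not at hv
          have h6 : |x| / 2 ≤ |x + v| := by
            have := abs_sub_abs_le_abs_sub x (-v)
            rw [abs_neg, sub_neg_eq_add] at this
            linarith
          have h7 : x ^ 2 / 4 ≤ (x + v) ^ 2 := by
            rw [← sq_abs x, ← sq_abs (x + v)]
            have := abs_nonneg x
            nlinarith
          have h8 := dn_nonneg (v / ℓ)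
          refine mul_le_mul_of_nonneg_left (Real.exp_le_exp.2 ?_) (by positivity)
          linarith
    rw [integral_mul_const] at h3
    refine h3.trans ?_
    have h4 := integral_wl hℓ
    calc (∫ v : ℝ, 1 / ℓ * dn (v / ℓ)) * Real.exp (-x ^ 2 / 8) ≤ 1 * Real.exp (-x ^ 2 / 8) := by
          gcongr
      _ = _ := one_mul _
  have h2 : 1 ≤ Real.sqrt (2 * Real.pi) := by
    rw [Real.one_le_sqrt]
    linarith [Real.pi_gt_three]
  have h9 : 1 / Real.sqrt (2 * Real.pi) ≤ 1 := by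
    rw [div_le_one (by linarith)]
    exact h2
  calc 1 / Real.sqrt (2 * Real.pi) *
      ∫ v : ℝ, (1 / ℓ * dn (v / ℓ)) * Real.exp (-(x + v) ^ 2 / 2) ≤
      1 * Real.exp (-x ^ 2 / 8) := by
        refine mul_le_mul h9 h1 (integral_nonneg fun v => ?_) zero_le_one
        have := dn_nonneg (v / ℓ)
        positivity
    _ = _ := one_mul _

end Pool.Agent.J4.H45.MT
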