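import Pool.Agent.N802.U.Stm2
import Pool.Agent.N802.U.Ch
import Pool.Agent.J4.H45.MT.Dens

/-!
# The prime side: up to a bounded error a polynomial over the primes `≤ exp (2 ℓ)`
-/

open Complex Filter Topology Set MeasureTheory
open scoped BigOperators ComplexConjugate

namespace Pool.Agent.J4.H45.MT

open H370 Pool.Agent.N802 Pool.Agent.N802.U

/-- the coefficients -/
noncomputable def bn (a : ℕ → ℂ) (ℓ : ℝ) (n : ℕ) : ℂ :=
  a n * (Real.sqrt n : ℂ)⁻¹ * gs (wl ℓ) (0 - Real.log n)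

/-- the primes -/
noncomputable def Pm (X : ℕ) (ℓ : ℝ) : Finset ℕ :=
  (Finset.Icc 1 X).filter (fun p : ℕ => p.Prime ∧ (p : ℝ) ≤ Real.exp (2 * ℓ))

lemma Pm_spec {X : ℕ} {ℓ : ℝ} {p : ℕ} (hp : p ∈ Pm X ℓ) :
    p.Prime ∧ (p : ℝ) ≤ Real.exp (2 * ℓ) := (Finset.mem_filter.1 hp).2

lemma bn_norm {a : ℕ → ℂ} (ha : ∀ n, ‖a n‖ ≤ ArithmeticFunction.vonMangoldt n) (ℓ : ℝ) (n : ℕ) :
    ‖bn a ℓ n‖ ≤ TC.lam n * ‖gs (wl ℓ) (0 - Real.log n)‖ := by
  unfold bn TC.lam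
  rw [norm_mul, norm_mul, norm_inv, Complex.norm_real, Real.norm_of_nonneg (Real.sqrt_nonneg _),
    div_eq_mul_inv]
  have := ha n
  gcongr

/-- the constant for the large primes -/
noncomputable def cT : ℝ := 2 * Real.exp 8 * ∑' n : ℕ, 1 / (n : ℝ) ^ 2

lemma cT_nonneg : 0 ≤ cT := by
  unfold cT
  have : 0 ≤ ∑' n : ℕ, 1 / (n : ℝ) ^ 2 := tsum_nonneg fun n => by positivity
  positivity

lemma tail_term {ℓ : ℝ} (hℓ : 0 < ℓ) {n : ℕ} (hn : 1 ≤ n) (hl : Real.exp (2 * ℓ) < n) :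
    TC.lam n * ‖gs (wl ℓ) (0 - Real.log n)‖ ≤ 2 * Real.exp 8 * (1 / (n : ℝ) ^ 2) := by
  have hn0 : (0 : ℝ) < n := by exact_mod_cast hn
  have h1 : 2 * ℓ ≤ Real.log n := by
    rw [Real.le_log_iff_exp_le hn0]
    exact hl.le
  have h2 : ‖gs (wl ℓ) (0 - Real.log n)‖ ≤ Real.exp (-(Real.log n) ^ 2 / 8) := by
    rw [gs_wl, Complex.norm_real, Real.norm_of_nonneg (gr_nonneg hℓ _)]
    have h3 := gr_tail hℓ (x := 0 - Real.log n) (by
      rw [zero_sub, abs_neg, abs_of_nonneg (by linarith)]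
      exact h1)
    refine h3.trans (le_of_eq ?_)
    congr 1
    ring
  have h4 : Real.exp (-(Real.log n) ^ 2 / 8) ≤ Real.exp 8 * (1 / (n : ℝ) ^ 2) := by
    have e : Real.exp 8 * (1 / (n : ℝ) ^ 2) = Real.exp (8 - 2 * Real.log n) := by
      rw [Real.exp_sub, show Real.exp (2 * Real.log n) = (n : ℝ) ^ 2 by
        rw [show 2 * Real.log n = ((2 : ℕ) : ℝ) * Real.log n by push_cast; ring,
          Real.exp_nat_mul, Real.exp_log hn0]]
      ring
    rw [e]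
    apply Real.exp_le_exp.2
    nlinarith [sq_nonneg (Real.log n - 8)]
  have h5 : TC.lam n ≤ 2 := by
    unfold TC.lam
    have hs : 0 < Real.sqrt n := Real.sqrt_pos.2 hn0
    rw [div_le_iff₀ hs]
    have h6 : ArithmeticFunction.vonMangoldt n ≤ Real.log n :=
      ArithmeticFunction.vonMangoldt_le_log
    have h7 : Real.log n = 2 * Real.log (Real.sqrt n) := by
      rw [Real.log_sqrt hn0.le]; ring
    have h8 := Real.log_le_sub_one_of_pos hs
    linarith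
  have h9 : 0 ≤ TC.lam n := by
    unfold TC.lam
    have := ArithmeticFunction.vonMangoldt_nonneg (n := n)
    positivity
  calc TC.lam n * ‖gs (wl ℓ) (0 - Real.log n)‖ ≤
      2 * (Real.exp 8 * (1 / (n : ℝ) ^ 2)) := mul_le_mul h5 (h2.trans h4) (norm_nonneg _) (by norm_num)
    _ = _ := by ring

/-- the prime side -/
theorem prime_side (hch : S_ch) : ∃ C : ℝ, 1 ≤ C ∧ ∀ a : ℕ → ℂ,
    (∀ n, ‖a n‖ ≤ ArithmeticFunction.vonMangoldt n) → ∀ (X : ℕ) (ℓ : ℝ), 0 < ℓ →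
    ∑ p ∈ Pm X ℓ, ‖bn a ℓ p‖ ^ 2 / Real.log p ≤ C / ℓ ∧
    ∀ Λ t : ℝ, 0 ≤ Λ → ‖PD a X (wl ℓ) Λ 0 t‖ ≤ Λ / ℓ + 2 * ‖RP (Pm X ℓ) (bn a ℓ) t‖ + C := by
  classical
  obtain ⟨C, hC, hch⟩ := hch
  refine ⟨2 * C + 2 * cT, by linarith [cT_nonneg], fun a ha X ℓ hℓ => ?_⟩
  obtain ⟨-, -, h3⟩ := hch ℓ (Wl ℓ) (wl ℓ) hℓ (bw_wl hℓ)
  obtain ⟨-, hsq, hnp⟩ := h3 X 0 (fun n => 0 - Real.log n) (Or.inl fun _ => rfl)
  have hq := q2_wl hℓ
  have hq0 := q2_nonneg (wl ℓ)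
  have hcT := cT_nonneg
  have hone : Real.sqrt (ℓ * q2 (wl ℓ)) ≤ 1 := by
    rw [Real.sqrt_le_one]
    calc ℓ * q2 (wl ℓ) ≤ ℓ * (1 / ℓ) := by gcongr
      _ = 1 := by field_simp
  refine ⟨?_, ?_⟩
  · have h1 : ∀ p ∈ Pm X ℓ, ‖bn a ℓ p‖ ^ 2 / Real.log p ≤
        ArithmeticFunction.vonMangoldt p / p * ‖gs (wl ℓ) (0 - Real.log p)‖ ^ 2 := by
      intro p hp
      have hpp := (Pm_spec hp).1
      have hp0 : (0 : ℝ) < p := by exact_mod_cast hpp.pos
      have hl : 0 < Real.log p := Real.log_pos (by exact_mod_cast hpp.one_lt)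
      have hb := bn_norm ha ℓ p
      rw [div_le_iff₀ hl]
      have hv : ArithmeticFunction.vonMangoldt p = Real.log p :=
        ArithmeticFunction.vonMangoldt_apply_prime hpp
      calc ‖bn a ℓ p‖ ^ 2 ≤ (TC.lam p * ‖gs (wl ℓ) (0 - Real.log p)‖) ^ 2 :=
            pow_le_pow_left₀ (norm_nonneg _) hb 2
        _ = ArithmeticFunction.vonMangoldt p / p * ‖gs (wl ℓ) (0 - Real.log p)‖ ^ 2 *
            Real.log p := by
          unfold TC.lam
          rw [mul_pow, div_pow, Real.sq_sqrt hp0.le, hv]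
          ring
    have h2 : Pm X ℓ ⊆ Finset.Icc 1 X := Finset.filter_subset _ _
    calc ∑ p ∈ Pm X ℓ, ‖bn a ℓ p‖ ^ 2 / Real.log p ≤
        ∑ p ∈ Pm X ℓ, ArithmeticFunction.vonMangoldt p / p *
          ‖gs (wl ℓ) (0 - Real.log p)‖ ^ 2 := Finset.sum_le_sum h1
      _ ≤ ∑ p ∈ Finset.Icc 1 X, ArithmeticFunction.vonMangoldt p / p *
          ‖gs (wl ℓ) (0 - Real.log p)‖ ^ 2 :=
        Finset.sum_le_sum_of_subset_of_nonneg h2 fun p _ _ => by
          have := ArithmeticFunction.vonMangoldt_nonneg (n := p)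
          positivity
      _ ≤ C * q2 (wl ℓ) := hsq
      _ ≤ (2 * C + 2 * cT) * (1 / ℓ) := by
        apply mul_le_mul _ hq hq0 (by linarith)
        linarith
      _ = _ := by ring
  · intro Λ t hΛ
    have hD1 : ∑ n ∈ Finset.Icc 1 X, a n * (Real.sqrt n : ℂ)⁻¹ *
        gs (wl ℓ) (0 - Real.log n) * mn n 1 t = ∑ n ∈ Finset.Icc 1 X, bn a ℓ n * mn n 1 t := rfl
    have hD2 : ∑ n ∈ Finset.Icc 1 X, conj (a n) * (Real.sqrt n : ℂ)⁻¹ *
        gs (wl ℓ) (0 + Real.log n) * mn 1 n t =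
        conj (∑ n ∈ Finset.Icc 1 X, bn a ℓ n * mn n 1 t) := by
      rw [map_sum]
      refine Finset.sum_congr rfl fun n _ => ?_
      unfold bn
      rw [map_mul, map_mul, map_mul, mn_conj, map_inv₀, Complex.conj_ofReal, gs_wl, gs_wl,
        Complex.conj_ofReal, zero_sub, gr_even, zero_add]
    have hrest : ‖(∑ n ∈ Finset.Icc 1 X, bn a ℓ n * mn n 1 t) -
        RP (Pm X ℓ) (bn a ℓ) t‖ ≤ C + cT := by
      have e1 : RP (Pm X ℓ) (bn a ℓ) t = ∑ n ∈ (Finset.Icc 1 X).filter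
        (fun p : ℕ => p.Prime ∧ (p : ℝ) ≤ Real.exp (2 * ℓ)), bn a ℓ n * mn n 1 t := rfl
      have e2 := Finset.sum_filter_add_sum_filter_not (Finset.Icc 1 X)
        (fun p : ℕ => p.Prime ∧ (p : ℝ) ≤ Real.exp (2 * ℓ)) (fun n => bn a ℓ n * mn n 1 t)
      rw [e1, ← e2, add_sub_cancel_left]
      have h1 : ∀ n, ‖bn a ℓ n * mn n 1 t‖ ≤ TC.lam n * ‖gs (wl ℓ) (0 - Real.log n)‖ := by
        intro n
        rw [norm_mul, mn_norm, mul_one]
        exact bn_norm ha ℓ n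
      have hl0 : ∀ n : ℕ, 0 ≤ TC.lam n * ‖gs (wl ℓ) (0 - Real.log n)‖ := fun n =>
        (norm_nonneg _).trans (h1 n)
      have hsub : (Finset.Icc 1 X).filter
          (fun p : ℕ => ¬ (p.Prime ∧ (p : ℝ) ≤ Real.exp (2 * ℓ))) ⊆
          (Finset.Icc 1 X).filter (fun n => ¬ n.Prime) ∪
          (Finset.Icc 1 X).filter (fun n : ℕ => Real.exp (2 * ℓ) < (n : ℝ)) := by
        intro n hn
        rw [Finset.mem_filter] at hn
        rw [Finset.mem_union, Finset.mem_filter, Finset.mem_filter]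
        by_cases hp : n.Prime
        · right
          refine ⟨hn.1, ?_⟩
          by_contra h
          push Not at h
          exact hn.2 ⟨hp, h⟩
        · left
          exact ⟨hn.1, hp⟩
      have h2 : ∑ n ∈ (Finset.Icc 1 X).filter (fun n : ℕ => Real.exp (2 * ℓ) < (n : ℝ)),
          TC.lam n * ‖gs (wl ℓ) (0 - Real.log n)‖ ≤ cT := by
        calc _ ≤ ∑ n ∈ (Finset.Icc 1 X).filter (fun n : ℕ => Real.exp (2 * ℓ) < (n : ℝ)),
              2 * Real.exp 8 * (1 / (n : ℝ) ^ 2) := by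
              refine Finset.sum_le_sum fun n hn => ?_
              rw [Finset.mem_filter, Finset.mem_Icc] at hn
              exact tail_term hℓ hn.1.1 hn.2
          _ ≤ _ := by
              unfold cT
              rw [← Finset.mul_sum]
              refine mul_le_mul_of_nonneg_left ?_ (by positivity)
              exact (Real.summable_one_div_nat_pow.2 (by norm_num)).sum_le_tsum _
                (fun n _ => by positivity)
      have h4 : (∑ n ∈ ((Finset.Icc 1 X).filter (fun n : ℕ => ¬ n.Prime) ∪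
            (Finset.Icc 1 X).filter (fun n : ℕ => Real.exp (2 * ℓ) < (n : ℝ))),
            TC.lam n * ‖gs (wl ℓ) (0 - Real.log n)‖) ≤ C * Real.sqrt (ℓ * q2 (wl ℓ)) + cT := by
        have h5 := Finset.sum_union_inter (s₁ := (Finset.Icc 1 X).filter (fun n : ℕ => ¬ n.Prime))
          (s₂ := (Finset.Icc 1 X).filter (fun n : ℕ => Real.exp (2 * ℓ) < (n : ℝ)))
          (f := fun n : ℕ => TC.lam n * ‖gs (wl ℓ) (0 - Real.log n)‖)
        have h6 := Finset.sum_nonneg (s := (Finset.Icc 1 X).filter (fun n : ℕ => ¬ n.Prime) ∩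
          (Finset.Icc 1 X).filter (fun n : ℕ => Real.exp (2 * ℓ) < (n : ℝ)))
          (f := fun n : ℕ => TC.lam n * ‖gs (wl ℓ) (0 - Real.log n)‖) (fun n _ => hl0 n)
        linarith
      refine (norm_sum_le _ _).trans ((Finset.sum_le_sum fun n _ => h1 n).trans
        ((Finset.sum_le_sum_of_subset_of_nonneg hsub fun n _ _ => hl0 n).trans (h4.trans ?_)))
      have h7 : C * Real.sqrt (ℓ * q2 (wl ℓ)) ≤ C * 1 := by gcongr
      linarith
    have hD : ‖∑ n ∈ Finset.Icc 1 X, bn a ℓ n * mn n 1 t‖ ≤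
        ‖RP (Pm X ℓ) (bn a ℓ) t‖ + (C + cT) := by
      have := norm_sub_norm_le (∑ n ∈ Finset.Icc 1 X, bn a ℓ n * mn n 1 t)
        (RP (Pm X ℓ) (bn a ℓ) t)
      linarith
    have hg0 : ‖(Λ : ℂ) * gs (wl ℓ) 0‖ ≤ Λ / ℓ := by
      rw [norm_mul, Complex.norm_real, Real.norm_of_nonneg hΛ, gs_wl, Complex.norm_real,
        Real.norm_of_nonneg (gr_nonneg hℓ _), div_eq_mul_one_div]
      exact mul_le_mul_of_nonneg_left (gr_le hℓ 0) hΛ
    unfold PD
    rw [hD1, hD2]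
    have h5 := norm_sub_le ((Λ : ℂ) * gs (wl ℓ) 0 - ∑ n ∈ Finset.Icc 1 X, bn a ℓ n * mn n 1 t)
      (conj (∑ n ∈ Finset.Icc 1 X, bn a ℓ n * mn n 1 t))
    have h6 := norm_sub_le ((Λ : ℂ) * gs (wl ℓ) 0) (∑ n ∈ Finset.Icc 1 X, bn a ℓ n * mn n 1 t)
    rw [RCLike.norm_conj] at h5
    linarith

end Pool.Agent.J4.H45.MT
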