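import Pool.Agent.H370R2.PC2
import Pool.Agent.N802.U.Rh
import Pool.Agent.N802.U.Point
import Pool.Agent.J4.H45.MT.Prime

/-!
# The number of zeros near a point
-/

open Complex Filter Topology Set MeasureTheory
open scoped BigOperators ComplexConjugate

namespace Pool.Agent.J4.H45.MT

open H370 Pool.Agent.N802 Pool.Agent.N802.U

open Classical in
/-- the zeros far from the critical line -/
noncomputable def FS (F : ℂ → ℂ) (U1 U2 ℓ t : ℝ) : ℝ :=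
  ∑ s ∈ (Zf F U1 U2).filter (fun s => eta0 < |(zz s).im| * ℓ),
    (mult F s : ℝ) * (Real.exp (ℓ * |(zz s).im|) * ((1 + ℓ * |s.im - t|) ^ 2)⁻¹)

lemma FS_nonneg (F : ℂ → ℂ) (U1 U2 ℓ t : ℝ) : 0 ≤ FS F U1 U2 ℓ t :=
  Finset.sum_nonneg fun s _ => by positivity

lemma FS_eq (F : ℂ → ℂ) (U1 U2 ℓ t : ℝ) : FS F U1 U2 ℓ t = ∑ s ∈ Zf F U1 U2, (mult F s : ℝ) *
    (if eta0 < |(zz s).im| * ℓ then
      Real.exp (ℓ * |(zz s).im|) * ((1 + ℓ * |s.im - t|) ^ 2)⁻¹ else 0) := by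
  classical
  unfold FS
  rw [Finset.sum_filter]
  refine Finset.sum_congr rfl fun s _ => ?_
  split_ifs <;> simp

/-- under the Riemann hypothesis there are no zeros far from the critical line -/
lemma FS_zero {F : ℂ → ℂ} (hF : GoodL F) {U1 U2 ℓ : ℝ} (hU : 1 ≤ U1)
    (hRH : ∀ s, 0 < s.re → s.re < 1 → F s = 0 → 0 < s.im → s.re = 1 / 2) (t : ℝ) :
    FS F U1 U2 ℓ t = 0 := by
  rw [FS_eq]
  refine Finset.sum_eq_zero fun s hs => ?_
  rw [mem_Zf hF hU] at hs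
  have h1 : s.re = 1 / 2 := hRH s hs.1 hs.2.1 hs.2.2.2.2 (by linarith [hs.2.2.1])
  rw [zz_im, h1, sub_self, neg_zero, abs_zero, zero_mul, if_neg, mul_zero]
  unfold eta0
  norm_num

lemma floor4 (x : ℝ) : Real.exp (-x ^ 2 / 4) ≤ Real.exp 2 * Real.exp (-|((⌊x⌋ : ℤ) : ℝ)|) := by
  rw [← Real.exp_add]
  apply Real.exp_le_exp.mpr
  have h1 := Int.floor_le x
  have h2 := Int.lt_floor_add_one x
  have h3 : |((⌊x⌋ : ℤ) : ℝ)| ≤ |x| + 1 := by
    rw [abs_le]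
    constructor
    · have := neg_abs_le x; linarith
    · have := le_abs_self x; linarith
  have h4 : |x| ≤ x ^ 2 / 4 + 1 := by
    have : x ^ 2 = |x| ^ 2 := (sq_abs x).symm
    rw [this]; nlinarith [sq_nonneg (|x| - 2)]
  linarith

/-- the number of zeros near `t`, with a Gaussian weight -/
lemma gauss_count {F : ℂ → ℂ} (hF : GoodL F) : ∃ C : ℝ, 0 < C ∧ ∀ T : ℝ, 4 ≤ T →
    ∀ U1 U2 : ℝ, T ≤ U1 → U2 ≤ 2 * T → ∀ t : ℝ,
    ∑ s ∈ Zf F U1 U2, (mult F s : ℝ) * Real.exp (-(s.im - t) ^ 2 / 4) ≤ C * Real.log T := by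
  obtain ⟨C, hC, h⟩ := local_sum hF
  set S := ∑' k : ℤ, Real.exp (-|(k : ℝ)|) with hS
  have hS0 : 0 < S :=
    H370.summable_exp_abs.tsum_pos (fun k => (Real.exp_pos _).le) 0 (Real.exp_pos _)
  refine ⟨C * (Real.exp 2 * S), by positivity, fun T hT U1 U2 hU1 hU2 t => ?_⟩
  have h1 := h T hT U1 U2 hU1 hU2 t (fun k => Real.exp 2 * Real.exp (-|(k : ℝ)|))
    (fun k => by positivity) (fun s => Real.exp (-(s.im - t) ^ 2 / 4))
    (fun s _ => floor4 _)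
  refine h1.trans ?_
  have hlog : 0 ≤ Real.log T := Real.log_nonneg (by linarith)
  rw [← Finset.mul_sum]
  have h2 : ∑ k ∈ (Zf F U1 U2).image (fun s => ⌊s.im - t⌋), Real.exp (-|(k : ℝ)|) ≤ S :=
    H370.summable_exp_abs.sum_le_tsum _ (fun k _ => (Real.exp_pos _).le)
  calc C * Real.log T * (Real.exp 2 *
        ∑ k ∈ (Zf F U1 U2).image (fun s => ⌊s.im - t⌋), Real.exp (-|(k : ℝ)|)) ≤
      C * Real.log T * (Real.exp 2 * S) := by gcongr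
    _ = _ := by ring

/-- the sum of the local kernel -/
lemma SS_low {F : ℂ → ℂ} (hF : GoodL F) {U1 U2 : ℝ} (hU : 1 ≤ U1) {ℓ h : ℝ} (hℓ : 1 ≤ ℓ)
    (h1 : h ≤ 1) (hh : ℓ * h ≤ 3 / 2) (t : ℝ) :
    0.018 * na F U1 U2 h t ≤ ‖SS F U1 U2 (Wl ℓ) 0 t‖ +
      1 / ℓ ^ 2 * (∑ s ∈ Zf F U1 U2, (mult F s : ℝ) * Real.exp (-(s.im - t) ^ 2 / 4)) +
      24 * FS F U1 U2 ℓ t := by
  have hre : (SS F U1 U2 (Wl ℓ) 0 t).re =
      ∑ s ∈ Zf F U1 U2, (mult F s : ℝ) * (kf ℓ (zz s - t)).re := by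
    unfold SS
    rw [Complex.re_sum]
    refine Finset.sum_congr rfl fun s _ => ?_
    rw [Complex.ofReal_zero, mul_zero, zero_mul, Complex.exp_zero, one_mul,
      ← Complex.ofReal_natCast, Complex.re_ofReal_mul]
    rfl
  have h2 : (SS F U1 U2 (Wl ℓ) 0 t).re ≤ ‖SS F U1 U2 (Wl ℓ) 0 t‖ := Complex.re_le_norm _
  have key : 0.018 * na F U1 U2 h t ≤ (SS F U1 U2 (Wl ℓ) 0 t).re +
      1 / ℓ ^ 2 * (∑ s ∈ Zf F U1 U2, (mult F s : ℝ) * Real.exp (-(s.im - t) ^ 2 / 4)) +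
      24 * FS F U1 U2 ℓ t := by
    rw [hre, na_eq, FS_eq, Finset.mul_sum, Finset.mul_sum, Finset.mul_sum,
      ← Finset.sum_add_distrib, ← Finset.sum_add_distrib]
    refine Finset.sum_le_sum fun s hs => ?_
    have hm : (0 : ℝ) ≤ mult F s := Nat.cast_nonneg _
    have hz1 : (zz s - t).re = s.im - t := sub_re' s t
    have hz2 : (zz s - t).im = (zz s).im := sub_im' s t
    have e1 : 0.018 * (if |s.im - t| ≤ h then (mult F s : ℝ) else 0) =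
        (mult F s : ℝ) * (if |s.im - t| ≤ h then (0.018 : ℝ) else 0) := by
      split_ifs <;> ring
    rw [e1]
    by_cases hn : eta0 < |(zz s).im| * ℓ
    · rw [if_pos hn]
      have h3 := kf_low_far hℓ hh (z := zz s - t) (by
        rw [hz2]
        exact zim hF hU hs)
      rw [hz1, hz2] at h3
      have h4 : 0 ≤ 1 / ℓ ^ 2 * ((mult F s : ℝ) * Real.exp (-(s.im - t) ^ 2 / 4)) := by positivity
      have h5 := mul_le_mul_of_nonneg_left h3 hm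
      rw [mul_add] at h5
      linarith
    · rw [if_neg hn, mul_zero, mul_zero, add_zero]
      push Not at hn
      have h3 := kf_low_near hℓ h1 hh (z := zz s - t) (by
        rw [hz2]
        exact hn)
      rw [hz1] at h3
      have h5 := mul_le_mul_of_nonneg_left h3 hm
      refine h5.trans (le_of_eq ?_)
      ring
  linarith

/-- **the number of zeros near a point** -/
theorem point {F : ℂ → ℂ} (hF : GoodL F) (hef : S_ef F) (hch : S_ch) :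
    ∃ C T0 : ℝ, 1 ≤ C ∧ 10 ≤ T0 ∧ ∀ T : ℝ, T0 ≤ T →
    ∃ U1 U2 : ℝ, T ≤ U1 ∧ U1 ≤ T + 1 ∧ 2 * T - 1 ≤ U2 ∧ U2 ≤ 2 * T ∧
    (∀ t, na F U1 U2 (2 / Real.log T) t ≤ C * Real.log T) ∧
    ∀ ℓ : ℝ, 1 ≤ ℓ → ℓ ≤ 3 / 4 * Real.log T → ∃ (P : Finset ℕ) (b : ℕ → ℂ),
    (∀ p ∈ P, p.Prime ∧ (p : ℝ) ≤ Real.exp (2 * ℓ)) ∧
    ∑ p ∈ P, ‖b p‖ ^ 2 / Real.log p ≤ C / ℓ ∧
    ∀ t : ℝ, T + Real.log T ≤ t → t ≤ 2 * T - Real.log T →
    na F U1 U2 (2 / Real.log T) t ≤ C * (Real.log T / ℓ + ‖RP P b t‖ + FS F U1 U2 ℓ t) := by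
  classical
  obtain ⟨a, C1, ha, hC1, hef⟩ := hef
  obtain ⟨T1, hT1, hef⟩ := hef (1 / 8) (by norm_num) (by norm_num)
  obtain ⟨C2, hC2, hps⟩ := prime_side hch
  obtain ⟨C3, hC3, hgc⟩ := gauss_count hF
  set C : ℝ := 60 * (1 + C1 + C2 + C3) + 24 * 60 with hCd
  refine ⟨C, max T1 8, by linarith, hT1.trans (le_max_left _ _), fun T hT => ?_⟩
  have hT1' : T1 ≤ T := (le_max_left _ _).trans hT
  have hT8 : 8 ≤ T := (le_max_right _ _).trans hT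
  obtain ⟨U1, U2, hU1, hU1', hU2', hU2, hef⟩ := hef T hT1'
  have hU : 1 ≤ U1 := by linarith
  set L := Real.log T with hL
  have hL2 : 2 ≤ L := by
    rw [hL, Real.le_log_iff_exp_le (by linarith)]
    have h1 := Real.exp_one_lt_d9
    have h2 : Real.exp 2 = Real.exp 1 ^ 2 := by
      rw [← Real.exp_nat_mul]; norm_num
    rw [h2]
    nlinarith [Real.exp_pos 1]
  have hL0 : 0 < L := by linarith
  have hh1 : 2 / L ≤ 1 := by rw [div_le_one hL0]; exact hL2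
  refine ⟨U1, U2, hU1, hU1', hU2', hU2, ?_, fun ℓ hℓ1 hℓL => ?_⟩
  · intro t
    have h1 := hgc T (by linarith) U1 U2 hU1 hU2 t
    have h2 : na F U1 U2 (2 / L) t ≤
        2 * ∑ s ∈ Zf F U1 U2, (mult F s : ℝ) * Real.exp (-(s.im - t) ^ 2 / 4) := by
      rw [na_eq, Finset.mul_sum]
      refine Finset.sum_le_sum fun s _ => ?_
      have hm : (0 : ℝ) ≤ mult F s := Nat.cast_nonneg _
      split_ifs with h3
      · have h4 : (s.im - t) ^ 2 ≤ 1 := by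
          rw [← sq_abs]
          have := h3.trans hh1
          nlinarith [abs_nonneg (s.im - t)]
        have h5 : 1 / 2 ≤ Real.exp (-(s.im - t) ^ 2 / 4) := by
          have := Real.add_one_le_exp (-(s.im - t) ^ 2 / 4)
          linarith
        nlinarith
      · positivity
    refine h2.trans ?_
    have : C3 ≤ C / 2 := by rw [hCd]; linarith
    nlinarith
  · have hℓ0 : 0 < ℓ := by linarith
    obtain ⟨hB, hPD⟩ := hps a ha ⌊T ^ (1 - (1 / 8 : ℝ))⌋₊ ℓ hℓ0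
    refine ⟨Pm ⌊T ^ (1 - (1 / 8 : ℝ))⌋₊ ℓ, bn a ℓ, fun p hp => Pm_spec hp, ?_, ?_⟩
    · refine hB.trans ?_
      have : C2 ≤ C := by rw [hCd]; linarith
      gcongr
    · intro t ht1 ht2
      have h1 := hef ℓ (Wl ℓ) (wl ℓ) (bw_wl hℓ0) 0 t (by
        rw [abs_zero, zero_add]
        norm_num
        linarith) ht1 ht2
      have h2 := hPD L t hL0.le
      have hh : ℓ * (2 / L) ≤ 3 / 2 := by
        rw [← mul_div_assoc, div_le_iff₀ hL0]
        linarith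
      have h3 := SS_low hF (U2 := U2) hU hℓ1 hh1 hh t
      have h4 := hgc T (by linarith) U1 U2 hU1 hU2 t
      have h5 : ‖cexp (I * ((0 : ℝ) : ℂ) * (t : ℂ)) *
          PD a ⌊T ^ (1 - (1 / 8 : ℝ))⌋₊ (wl ℓ) L 0 t‖ =
          ‖PD a ⌊T ^ (1 - (1 / 8 : ℝ))⌋₊ (wl ℓ) L 0 t‖ := by
        rw [Complex.ofReal_zero, mul_zero, zero_mul, Complex.exp_zero, one_mul]
      have h6 : ‖SS F U1 U2 (Wl ℓ) 0 t‖ ≤ ‖PD a ⌊T ^ (1 - (1 / 8 : ℝ))⌋₊ (wl ℓ) L 0 t‖ +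
          C1 * Real.sqrt (q2 (wl ℓ)) := by
        have := norm_sub_norm_le (SS F U1 U2 (Wl ℓ) 0 t) (cexp (I * ((0 : ℝ) : ℂ) * (t : ℂ)) *
          PD a ⌊T ^ (1 - (1 / 8 : ℝ))⌋₊ (wl ℓ) L 0 t)
        rw [h5] at this
        linarith
      have h7 : Real.sqrt (q2 (wl ℓ)) ≤ 1 := by
        rw [Real.sqrt_le_one]
        refine (q2_wl hℓ0).trans ?_
        rw [div_le_one hℓ0]
        exact hℓ1
      have h8 : 1 / ℓ ^ 2 * (∑ s ∈ Zf F U1 U2, (mult F s : ℝ) *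
          Real.exp (-(s.im - t) ^ 2 / 4)) ≤ C3 * (L / ℓ) := by
        calc _ ≤ 1 / ℓ ^ 2 * (C3 * L) := by gcongr
          _ ≤ 1 / ℓ * (C3 * L) := by
              have : 1 / ℓ ^ 2 ≤ 1 / ℓ := by
                apply one_div_le_one_div_of_le hℓ0
                nlinarith
              gcongr
          _ = _ := by ring
      have h9 : 1 ≤ L / ℓ := by
        rw [le_div_iff₀ hℓ0]
        linarith
      have hR := norm_nonneg (RP (Pm ⌊T ^ (1 - (1 / 8 : ℝ))⌋₊ ℓ) (bn a ℓ) t)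
      have hFS := FS_nonneg F U1 U2 ℓ t
      set RR := ‖RP (Pm ⌊T ^ (1 - (1 / 8 : ℝ))⌋₊ ℓ) (bn a ℓ) t‖
      set fs := FS F U1 U2 ℓ t
      set q := L / ℓ
      have h10 : 0.018 * na F U1 U2 (2 / L) t ≤ (1 + C1 + C2 + C3) * q + 2 * RR + 24 * fs := by
        have : C1 * Real.sqrt (q2 (wl ℓ)) ≤ C1 * 1 := by gcongr
        nlinarith
      rw [hCd]
      nlinarith

end Pool.Agent.J4.H45.MT
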