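import Pool.Agent.N802.WD.Wdz
import Pool.Agent.J4.H45.MT.Mul
import Pool.Agent.J4.H45.MT.Point

/-!
# Weighted measure of the set of points with many zeros nearby
-/

open Complex Filter Topology Set MeasureTheory
open scoped BigOperators ComplexConjugate

namespace Pool.Agent.J4.H45.MT

open H370 Pool.Agent.N802 Pool.Agent.N802.U
open Pool.Agent.N802.WD (EA dk S_ew)

/-- the zeros of a set near `t` -/
noncomputable def gz (F : ℂ → ℂ) (Z : Finset ℂ) (h t : ℝ) : ℝ :=
  ∑ s ∈ Z, if |s.im - (t + 0)| ≤ h then (mult F s : ℝ) else 0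

lemma gz_nonneg (F : ℂ → ℂ) (Z : Finset ℂ) (h t : ℝ) : 0 ≤ gz F Z h t :=
  Finset.sum_nonneg fun s _ => by split_ifs <;> positivity

lemma gz_int {F : ℂ → ℂ} (Z : Finset ℂ) {f : ℝ → ℝ} (hf : Continuous f) (h a b : ℝ) :
    IntervalIntegrable (fun t => f t * gz F Z h t) volume a b := by
  have h1 := IntervalIntegrable.sum (μ := volume) (a := a) (b := b) Z
    (f := fun s t => (mult F s : ℝ) * (f t * (if |s.im - (t + 0)| ≤ h then (1 : ℝ) else 0)))
    (fun s _ => (Pool.Agent.N802.WD.wdz_cell_int hf a b s.im h).const_mul _)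
  have e : (fun t => f t * gz F Z h t) = ∑ s ∈ Z,
      fun t => (mult F s : ℝ) * (f t * (if |s.im - (t + 0)| ≤ h then (1 : ℝ) else 0)) := by
    funext t
    unfold gz
    rw [Finset.mul_sum, Finset.sum_apply]
    refine Finset.sum_congr rfl fun s _ => ?_
    split_ifs <;> ring
  rw [e]
  exact h1

/-- a zero near `t` is counted -/
lemma mem_of_near {F : ℂ → ℂ} (hF : GoodL F) {T U1 U2 L t : ℝ} (hT : 1 ≤ T) (hL : 3 ≤ L)
    (hU1 : T ≤ U1) (hU1' : U1 ≤ T + 1) (hU2' : 2 * T - 1 ≤ U2) (ht1 : T + L ≤ t)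
    (ht2 : t ≤ 2 * T - L) {s : ℂ} (hs : s ∈ Zf F T (2 * T)) (hst : |s.im - t| ≤ 2 / L) :
    s ∈ Zf F U1 U2 := by
  rw [mem_Zf hF hT] at hs
  rw [mem_Zf hF (hT.trans hU1)]
  have h1 : 2 / L ≤ 1 := by
    rw [div_le_one (by linarith)]
    linarith
  have h2 := abs_le.1 (hst.trans h1)
  exact ⟨hs.1, hs.2.1, by linarith, by linarith, hs.2.2.2.2⟩

lemma gz_le {F : ℂ → ℂ} (hF : GoodL F) {T U1 U2 L t : ℝ} (hT : 1 ≤ T) (hL : 3 ≤ L)
    (hU1 : T ≤ U1) (hU1' : U1 ≤ T + 1) (hU2' : 2 * T - 1 ≤ U2) (ht1 : T + L ≤ t)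
    (ht2 : t ≤ 2 * T - L) {Z : Finset ℂ} (hZ : Z ⊆ Zf F T (2 * T)) :
    gz F Z (1 / L) t ≤ na F U1 U2 (2 / L) t := by
  classical
  have hL0 : 0 < L := by linarith
  have h12 : 1 / L ≤ 2 / L := by gcongr; norm_num
  unfold gz
  rw [na_eq]
  have h1 : ∑ s ∈ Z, (if |s.im - (t + 0)| ≤ 1 / L then (mult F s : ℝ) else 0) =
      ∑ s ∈ Z.filter (fun s => |s.im - t| ≤ 1 / L), (mult F s : ℝ) := by
    rw [Finset.sum_filter]
    simp only [add_zero]
  have h2 : ∑ s ∈ Zf F U1 U2, (if |s.im - t| ≤ 2 / L then (mult F s : ℝ) else 0) =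
      ∑ s ∈ (Zf F U1 U2).filter (fun s => |s.im - t| ≤ 2 / L), (mult F s : ℝ) := by
    rw [Finset.sum_filter]
  rw [h1, h2]
  refine Finset.sum_le_sum_of_subset_of_nonneg (fun s hs => ?_) fun s _ _ => Nat.cast_nonneg _
  rw [Finset.mem_filter] at hs ⊢
  have h3 := hs.2.trans h12
  exact ⟨mem_of_near hF hT hL hU1 hU1' hU2' ht1 ht2 (hZ hs.1) h3, h3⟩

lemma gz_many {F : ℂ → ℂ} (hF : GoodL F) {T U1 U2 L t : ℝ} (hT : 1 ≤ T) (hL : 3 ≤ L)
    (hU1 : T ≤ U1) (hU1' : U1 ≤ T + 1) (hU2' : 2 * T - 1 ≤ U2) (ht1 : T + L ≤ t)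
    (ht2 : t ≤ 2 * T - L) {Z : Finset ℂ} {j : ℝ}
    (hj : ∀ s ∈ Z, j ≤ na F T (2 * T) (1 / L) s.im) (h0 : gz F Z (1 / L) t ≠ 0) :
    j ≤ na F U1 U2 (2 / L) t := by
  classical
  have hL0 : 0 < L := by linarith
  have h1 : ∃ s ∈ Z, |s.im - t| ≤ 1 / L := by
    by_contra hc
    push Not at hc
    apply h0
    unfold gz
    refine Finset.sum_eq_zero fun s hs => ?_
    rw [if_neg]
    rw [add_zero]
    have := hc s hs
    linarith
  obtain ⟨s, hs, hst⟩ := h1
  refine (hj s hs).trans ?_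
  unfold na
  refine Finset.sum_le_sum_of_subset_of_nonneg (fun s' hs' => ?_) fun s _ _ => Nat.cast_nonneg _
  rw [Finset.mem_filter] at hs' ⊢
  have h3 : |s'.im - t| ≤ 2 / L := by
    calc |s'.im - t| ≤ |s'.im - s.im| + |s.im - t| := abs_sub_le _ _ _
      _ ≤ 1 / L + 1 / L := add_le_add hs'.2 hst
      _ = 2 / L := by ring
  exact ⟨mem_of_near hF hT hL hU1 hU1' hU2' ht1 ht2 hs'.1 h3, h3⟩

/-- the inequality at one point -/
lemma alg {g N j q u v C : ℝ} {k : ℕ} (hk : 1 ≤ k) (hC : 0 ≤ C) (hgN : g ≤ N)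
    (hg : g ≠ 0 → j ≤ N) (hN : N ≤ C * (q + u + v)) (hq : 4 * C * q ≤ j) (hj : 0 < j)
    (hu : 0 ≤ u) (hv : 0 ≤ v) : g ≤ (3 * C * u) ^ (2 * k) / j ^ (2 * k - 1) + 3 * C * v := by
  by_cases h0 : g = 0
  · rw [h0]
    positivity
  · have hjN := hg h0
    have hN0 : 0 < N := hj.trans_le hjN
    have h1 : 3 / 4 * N ≤ C * u + C * v := by nlinarith
    by_cases huv : C * u ≤ C * v
    · have : 0 ≤ (3 * C * u) ^ (2 * k) / j ^ (2 * k - 1) := by positivity
      linarith
    · push Not at huv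
      have h2 : N ≤ 3 * C * u := by linarith
      have h3 : N ≤ (3 * C * u) ^ (2 * k) / j ^ (2 * k - 1) := by
        rw [le_div_iff₀ (by positivity)]
        calc N * j ^ (2 * k - 1) ≤ N * N ^ (2 * k - 1) := by gcongr
          _ = N ^ (2 * k) := by
            rw [← pow_succ']
            congr 1
            omega
          _ ≤ _ := pow_le_pow_left₀ hN0.le h2 _
      have : 0 ≤ 3 * C * v := by positivity
      linarith

lemma FS_cont (F : ℂ → ℂ) (U1 U2 : ℝ) {ℓ : ℝ} (hℓ : 0 ≤ ℓ) :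
    Continuous (fun t => FS F U1 U2 ℓ t) := by
  unfold FS
  refine continuous_finsetSum _ fun s _ => ?_
  refine continuous_const.mul (continuous_const.mul (Continuous.inv₀ (by fun_prop) fun t => ?_))
  have : 0 < 1 + ℓ * |s.im - t| := by positivity
  positivity

/-- **the general estimate** -/
theorem core_gen {F : ℂ → ℂ} (hF : GoodL F) (hef : S_ef F) (hch : S_ch) :
    ∃ C T0 : ℝ, 1 ≤ C ∧ 30 ≤ T0 ∧ ∀ T : ℝ, T0 ≤ T →
    ∃ U1 U2 : ℝ, T ≤ U1 ∧ U1 ≤ T + 1 ∧ 2 * T - 1 ≤ U2 ∧ U2 ≤ 2 * T ∧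
    ∀ S : Finset ℕ, Len S (T ^ (1 / 16 : ℝ)) → ∀ (r : ℕ → ℂ) (τ H : ℝ), T ^ (7 / 8 : ℝ) ≤ H →
    ∀ Z : Finset ℂ, Z ⊆ Zf F T (2 * T) → ∀ j : ℝ, 0 < j →
    (∀ s ∈ Z, j ≤ na F T (2 * T) (1 / Real.log T) s.im) →
    (C * Real.log T < j →
      ∫ t in (T + Real.log T)..(2 * T - Real.log T), rh τ H S r t *
        gz F Z (1 / Real.log T) t ≤ 0) ∧
    ∀ q : ℝ, 32 ≤ q → q ≤ Real.log T → ∀ E : ℝ,
    (∫ t in (T + Real.log T)..(2 * T - Real.log T), rh τ H S r t *
        FS F U1 U2 (Real.log T / q) t ≤ E * mr H S r) →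
    (∫ t in (T + Real.log T)..(2 * T - Real.log T), rh τ H S r t *
        gz F Z (1 / Real.log T) t ≤ (C * (q + E)) * mr H S r) ∧
    ∀ k : ℕ, 1 ≤ k → 32 * (k : ℝ) ≤ q → 4 * C * q ≤ j →
    ∫ t in (T + Real.log T)..(2 * T - Real.log T), rh τ H S r t *
        gz F Z (1 / Real.log T) t ≤
      (2 * (j * (9 * C ^ 3 * q / j ^ 2) ^ k) + 3 * C * E) * mr H S r := by
  classical
  obtain ⟨C1, T1, hC1, hT1, hpt⟩ := point hF hef hch
  obtain ⟨T2, hT2, hmom⟩ := moments
  obtain ⟨T3, hT3, hmass⟩ := rh_mass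
  set C : ℝ := 5 * C1 ^ 2 with hCd
  have hCC : C1 ≤ C := by rw [hCd]; nlinarith
  have hC1' : 1 ≤ C := hC1.trans hCC
  refine ⟨C, max (max T1 T2) (max T3 30), hC1',
    (le_max_right _ _).trans (le_max_right _ _), fun T hT => ?_⟩
  have hTT1 : T1 ≤ T := ((le_max_left _ _).trans (le_max_left _ _)).trans hT
  have hTT2 : T2 ≤ T := ((le_max_right _ _).trans (le_max_left _ _)).trans hT
  have hTT3 : T3 ≤ T := ((le_max_left _ _).trans (le_max_right _ _)).trans hT
  have hT30 : 30 ≤ T := ((le_max_right _ _).trans (le_max_right _ _)).trans hT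
  have hTp : 0 < T := by linarith
  have hT1r : 1 ≤ T := by linarith
  obtain ⟨U1, U2, hU1, hU1', hU2', hU2, hcr, hpt⟩ := hpt T hTT1
  refine ⟨U1, U2, hU1, hU1', hU2', hU2, fun S hS r τ H hH Z hZ j hj hjZ => ?_⟩
  set L := Real.log T with hL
  have hL3 : 3 ≤ L := by
    rw [hL, Real.le_log_iff_exp_le hTp]
    have h1 := Real.exp_one_lt_d9
    have h2 : Real.exp 3 = Real.exp 1 ^ 3 := by
      rw [← Real.exp_nat_mul]; norm_num
    rw [h2]
    calc Real.exp 1 ^ 3 ≤ 2.7182818286 ^ 3 := by gcongr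
      _ ≤ T := by norm_num; linarith
  have hL0 : 0 < L := by linarith
  have hab : T + L ≤ 2 * T - L := by
    have h1 : L ≤ T / 2 := by
      have h2 : Real.log T = 2 * Real.log (Real.sqrt T) := by
        rw [Real.log_sqrt hTp.le]; ring
      have h3 := Real.log_le_sub_one_of_pos (Real.sqrt_pos.2 hTp)
      have h4 : Real.sqrt T ^ 2 = T := Real.sq_sqrt hTp.le
      have h5 : 4 ≤ Real.sqrt T := by
        apply Real.le_sqrt_of_sq_le
        linarith
      nlinarith
    linarith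
  have hH0 : 0 < H := lt_of_lt_of_le (by positivity) hH
  have hρc := rh_cont τ H S r
  have hρ0 := rh_nonneg τ H S r
  have hρi := rh_intg hH0 S r (τ := τ)
  have hw := w1_nonneg S r
  set M := mr H S r with hM
  have hM0 : 0 ≤ M := by
    rw [hM]
    unfold mr
    positivity
  refine ⟨fun hjC => ?_, fun q hq32 hqL E hE => ?_⟩
  · -- there are no such zeros
    have h1 : ∀ t ∈ Icc (T + L) (2 * T - L), rh τ H S r t * gz F Z (1 / L) t ≤ 0 := by
      intro t ht
      have h2 : gz F Z (1 / L) t = 0 := by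
        by_contra h0
        have h3 := gz_many hF hT1r hL3 hU1 hU1' hU2' ht.1 ht.2 hjZ h0
        have h4 := hcr t
        have h5 : C1 * L ≤ C * L := by gcongr
        linarith
      rw [h2, mul_zero]
    have h2 := intervalIntegral.integral_mono_on hab (gz_int Z hρc _ _ _)
      (continuous_const.intervalIntegrable _ _) h1
    simpa using h2
  · have hq0 : 0 < q := by linarith
    set ℓ := L / q with hℓ
    have hℓ1 : 1 ≤ ℓ := by rw [hℓ, le_div_iff₀ hq0]; linarith
    have hℓ0 : 0 < ℓ := by linarith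
    have hℓL : ℓ ≤ 3 / 4 * L := by
      rw [hℓ, div_le_iff₀ hq0]
      nlinarith
    have hLq : L / ℓ = q := by
      rw [hℓ]; field_simp
    obtain ⟨P, b, hP, hB, hpt⟩ := hpt ℓ hℓ1 hℓL
    rw [hLq] at hpt
    have hfc := FS_cont F U1 U2 hℓ0.le
    have hPc : Continuous (fun t => RP P b t) := TP_cont _ _ _ _
    have hY : 1 ≤ Real.exp (2 * ℓ) := Real.one_le_exp (by linarith)
    have hYk : ∀ k : ℕ, 32 * (k : ℝ) ≤ q → Real.exp (2 * ℓ) ^ k ≤ T ^ (1 / 16 : ℝ) := by
      intro k hk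
      rw [← Real.exp_nat_mul, Real.rpow_def_of_pos hTp]
      apply Real.exp_le_exp.2
      rw [← hL]
      have h1 : ℓ * q = L := by rw [hℓ]; field_simp
      nlinarith
    have hmomk : ∀ k : ℕ, 32 * (k : ℝ) ≤ q →
        ∫ t in (T + L)..(2 * T - L), rh τ H S r t * ‖RP P b t‖ ^ (2 * k) ≤
          2 * (C1 * q) ^ k * M := by
      intro k hk
      obtain ⟨g1, g2⟩ := hmom T hTT2 S hS r τ H hH P b _ _ hY hP hB k (hYk k hk)
      rw [intervalIntegral.integral_of_le hab]
      refine (setIntegral_le_integral g1 (Eventually.of_forall fun t => ?_)).trans (g2.trans ?_)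
      · have := hρ0 t
        show 0 ≤ rh τ H S r t * ‖RP P b t‖ ^ (2 * k)
        positivity
      · rw [show Real.log T * (C1 / ℓ) = C1 * q by rw [← hL, ← hLq]; ring]
    have hmass1 : ∫ t in (T + L)..(2 * T - L), rh τ H S r t ≤ 2 * M := by
      have hlen : T ^ (1 / 16 : ℝ) ≤ T ^ (1 / 8 : ℝ) :=
        Real.rpow_le_rpow_of_exponent_le hT1r (by norm_num)
      refine le_trans ?_ (hmass T hTT3 S (Len_mono hS hlen) r τ H hH)
      rw [intervalIntegral.integral_of_le hab]
      exact setIntegral_le_integral hρi (Eventually.of_forall fun t => hρ0 t)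
    have hgi := gz_int (F := F) Z hρc (1 / L) (T + L) (2 * T - L)
    refine ⟨?_, fun k hk hkq hjq => ?_⟩
    · -- the first bound
      have h1 : ∀ t ∈ Icc (T + L) (2 * T - L), rh τ H S r t * gz F Z (1 / L) t ≤
          C1 * (q + 1) * rh τ H S r t + C1 * (rh τ H S r t * ‖RP P b t‖ ^ (2 * 1)) +
            C1 * (rh τ H S r t * FS F U1 U2 ℓ t) := by
        intro t ht
        have h2 := (gz_le hF hT1r hL3 hU1 hU1' hU2' ht.1 ht.2 hZ).trans (hpt t ht.1 ht.2)
        have h3 := mul_le_mul_of_nonneg_left h2 (hρ0 t)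
        refine h3.trans ?_
        have h4 : ‖RP P b t‖ ≤ 1 + ‖RP P b t‖ ^ (2 * 1) := by
          have := norm_nonneg (RP P b t)
          rw [mul_one]
          nlinarith [sq_nonneg (‖RP P b t‖ - 1)]
        have h5 : 0 ≤ C1 * rh τ H S r t := mul_nonneg (by linarith) (hρ0 t)
        have h6 := mul_le_mul_of_nonneg_left h4 h5
        nlinarith
      have hi1 : IntervalIntegrable (fun t => C1 * (q + 1) * rh τ H S r t) volume (T + L)
        (2 * T - L) := (hρc.intervalIntegrable _ _).const_mul _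
      have hi2 : IntervalIntegrable (fun t => C1 * (rh τ H S r t * ‖RP P b t‖ ^ (2 * 1))) volume
        (T + L) (2 * T - L) :=
        (Continuous.intervalIntegrable (by fun_prop) _ _).const_mul _
      have hi3 : IntervalIntegrable (fun t => C1 * (rh τ H S r t * FS F U1 U2 ℓ t)) volume
        (T + L) (2 * T - L) :=
        (Continuous.intervalIntegrable (by fun_prop) _ _).const_mul _
      refine (intervalIntegral.integral_mono_on hab hgi ((hi1.add hi2).add hi3) h1).trans ?_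
      rw [intervalIntegral.integral_add (hi1.add hi2) hi3, intervalIntegral.integral_add hi1 hi2,
        intervalIntegral.integral_const_mul, intervalIntegral.integral_const_mul,
        intervalIntegral.integral_const_mul]
      have h7 := hmomk 1 (by push_cast; linarith)
      rw [pow_one] at h7
      have h8 : C1 * (q + 1) * (∫ t in (T + L)..(2 * T - L), rh τ H S r t) ≤
          C1 * (q + 1) * (2 * M) := by gcongr
      have h9 : C1 * (∫ t in (T + L)..(2 * T - L), rh τ H S r t * ‖RP P b t‖ ^ (2 * 1)) ≤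
          C1 * (2 * (C1 * q) * M) := by gcongr
      have h10 : C1 * (∫ t in (T + L)..(2 * T - L), rh τ H S r t * FS F U1 U2 ℓ t) ≤
          C1 * (E * M) := by gcongr
      have hE0 : 0 ≤ E * M := by
        refine le_trans ?_ hE
        exact intervalIntegral.integral_nonneg hab fun t _ =>
          mul_nonneg (hρ0 t) (FS_nonneg _ _ _ _ _)
      have h11 : C1 * (q + 1) * 2 + C1 * (2 * (C1 * q)) ≤ C * q := by
        have a1 : C1 * (q + 1) * 2 ≤ C1 * (3 * q) := by
          have : (q + 1) * 2 ≤ 3 * q := by linarith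
          calc C1 * (q + 1) * 2 = C1 * ((q + 1) * 2) := by ring
            _ ≤ _ := by gcongr
        have a2 : C1 * (3 * q) ≤ C1 ^ 2 * (3 * q) :=
          mul_le_mul_of_nonneg_right (by nlinarith) (by linarith)
        calc C1 * (q + 1) * 2 + C1 * (2 * (C1 * q)) ≤ C1 ^ 2 * (3 * q) + C1 * (2 * (C1 * q)) := by
              linarith
          _ = C * q := by rw [hCd]; ring
      have h12 := mul_le_mul_of_nonneg_right h11 hM0
      have h13 : C1 * (E * M) ≤ C * (E * M) := by gcongr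
      nlinarith
    · -- the second bound
      have hN : ∀ t ∈ Icc (T + L) (2 * T - L), na F U1 U2 (2 / L) t ≤
          C * (q + ‖RP P b t‖ + FS F U1 U2 ℓ t) := by
        intro t ht
        refine (hpt t ht.1 ht.2).trans ?_
        have := FS_nonneg F U1 U2 ℓ t
        gcongr
      have h1 : ∀ t ∈ Icc (T + L) (2 * T - L), rh τ H S r t * gz F Z (1 / L) t ≤
          (3 * C) ^ (2 * k) / j ^ (2 * k - 1) * (rh τ H S r t * ‖RP P b t‖ ^ (2 * k)) +
            3 * C * (rh τ H S r t * FS F U1 U2 ℓ t) := by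
        intro t ht
        have h2 := alg (k := k) hk (by linarith)
          (gz_le hF hT1r hL3 hU1 hU1' hU2' ht.1 ht.2 hZ)
          (gz_many hF hT1r hL3 hU1 hU1' hU2' ht.1 ht.2 hjZ) (hN t ht) hjq hj
          (norm_nonneg _) (FS_nonneg _ _ _ _ _)
        have h3 := mul_le_mul_of_nonneg_left h2 (hρ0 t)
        refine h3.trans (le_of_eq ?_)
        rw [mul_pow]
        ring
      have hi2 : IntervalIntegrable (fun t => (3 * C) ^ (2 * k) / j ^ (2 * k - 1) *
          (rh τ H S r t * ‖RP P b t‖ ^ (2 * k))) volume (T + L) (2 * T - L) :=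
        (Continuous.intervalIntegrable (by fun_prop) _ _).const_mul _
      have hi3 : IntervalIntegrable (fun t => 3 * C * (rh τ H S r t * FS F U1 U2 ℓ t)) volume
        (T + L) (2 * T - L) :=
        (Continuous.intervalIntegrable (by fun_prop) _ _).const_mul _
      refine (intervalIntegral.integral_mono_on hab hgi (hi2.add hi3) h1).trans ?_
      rw [intervalIntegral.integral_add hi2 hi3,
        intervalIntegral.integral_const_mul, intervalIntegral.integral_const_mul]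
      have h7 := hmomk k hkq
      have h8 : (3 * C) ^ (2 * k) / j ^ (2 * k - 1) *
          (∫ t in (T + L)..(2 * T - L), rh τ H S r t * ‖RP P b t‖ ^ (2 * k)) ≤
          (3 * C) ^ (2 * k) / j ^ (2 * k - 1) * (2 * (C1 * q) ^ k * M) := by gcongr
      have h9 : (3 * C) ^ (2 * k) / j ^ (2 * k - 1) * (2 * (C1 * q) ^ k * M) ≤
          (3 * C) ^ (2 * k) / j ^ (2 * k - 1) * (2 * (C * q) ^ k * M) := by gcongr
      have h10 : (3 * C) ^ (2 * k) / j ^ (2 * k - 1) * (2 * (C * q) ^ k * M) =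
          2 * (j * (9 * C ^ 3 * q / j ^ 2) ^ k) * M := by
        have e1 : (3 * C) ^ (2 * k) = (9 * C ^ 2) ^ k := by
          rw [pow_mul]
          congr 1
          ring
        have e2 : j ^ (2 * k) = j ^ (2 * k - 1) * j := by
          rw [← pow_succ]
          congr 1
          omega
        have e3 : (9 * C ^ 3 * q / j ^ 2) ^ k = (9 * C ^ 2) ^ k * (C * q) ^ k / j ^ (2 * k) := by
          rw [div_pow, ← pow_mul, ← mul_pow]
          congr 2
          ring
        rw [e1, e3, e2]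
        field_simp
      have h11 : 3 * C * (∫ t in (T + L)..(2 * T - L), rh τ H S r t * FS F U1 U2 ℓ t) ≤
          3 * C * (E * M) := by gcongr
      rw [add_mul]
      linarith

end Pool.Agent.J4.H45.MT
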