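import Pool.Agent.J4.H45.MT.Res

/-!
# Zeros of Hardy's function of high multiplicity on the Riemann hypothesis, in every weight `|R|²`

Assume the Riemann hypothesis. There are absolute constants `c > 0`, `C` such that for all large `T`,
all intervals `(T, T + K]` with `T ^ (63 / 64) ≤ K ≤ T / 2`, every Dirichlet polynomial
`R(t) = ∑ r(n) n ^ (- i t)` over integers `n ≤ T ^ (1 / 64)` with arbitrary complex coefficients and
every `j ≥ 1`: the zeros `t` of Hardy's function `Z` in `(T, T + K]` for which `[t - 1 / log T,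
t + 1 / log T]` contains at least `j` zeros of `Z`, counted with multiplicity (for instance all zeros
of multiplicity at least `j`), contribute at most `C exp (- c j log j) K log T ∑ |r(n)|²` to the sum
of `|R(t)|²` over the zeros of `Z` in `(T, T + K]`, counted with multiplicity. All exponential moments
of these numbers of neighbours are bounded in every such weight. For all `T ≥ 2` the zeros of `Z` in
`(0, T]` of multiplicity at least `j`, counted with multiplicity, number at most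
`C exp (- c j log j) T log T`.

The proof: a positive band-limited kernel of width `ℓ = c log T / j` bounds the number of zeros near
`t` by `O(j) + |P(t)|` with `P` a polynomial over the primes `p ≤ exp (2 ℓ)`; multiplication by `P`
multiplies the sum of the squares of the coefficients of a polynomial of length `T ^ (1 / 8)` by at
most `C log T / ℓ`, which gives the moments of order `c log T / ℓ` of `P` in every weight.
-/

open Filter Topology Complex

namespace Pool.Agent.J4.H45.MT.HighRH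

/-- the phase `exp (i ϑ(t))`, with `ϑ(t) = arg Γ(1/4 + i t / 2) - (t / 2) log π` -/
noncomputable def phase (t : ℝ) : ℂ :=
  Gamma (1 / 4 + I * t / 2) / ‖Gamma (1 / 4 + I * t / 2)‖ * cexp (-(I * (t / 2) * Real.log Real.pi))

/-- Hardy's function `Z(t) = exp (i ϑ(t)) ζ(1/2 + i t)` -/
noncomputable def Z (t : ℝ) : ℂ := phase t * riemannZeta (1 / 2 + I * t)

/-- the multiplicity of a real zero `t` of `Z`: the least `m ≥ 1` such that the `m`-th derivative of
`Z` at `t` is not zero -/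
noncomputable def mlt (t : ℝ) : ℕ := sInf {m : ℕ | 1 ≤ m ∧ iteratedDeriv m Z t ≠ 0}

/-- the zeros of `Z` in `(T₁, T₂]` -/
def zeros (T₁ T₂ : ℝ) : Set ℝ := {t : ℝ | T₁ < t ∧ t ≤ T₂ ∧ Z t = 0}

/-- the number of zeros of `Z` with distance at most `1 / log T` from `t`, counted with
multiplicity -/
noncomputable def near (T t : ℝ) : ℝ :=
  ∑ᶠ u ∈ {u : ℝ | |u - t| ≤ 1 / Real.log T ∧ Z u = 0}, (mlt u : ℝ)

/-- the Dirichlet polynomial `∑ r(n) n ^ (- i t)`, `n` in `S` -/
noncomputable def R (S : Finset ℕ) (r : ℕ → ℂ) (t : ℝ) : ℂ :=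
  ∑ n ∈ S, r n * (n : ℂ) ^ (-(I * t))

/-- **Theorem.** Assume the Riemann hypothesis.
* The zeros of `Z` in `(0, T]` are finite in number.
* There are `c > 0`, `C` such that for all large `T`, all `K` with `T ^ (63 / 64) ≤ K ≤ T / 2`, all
  Dirichlet polynomials `R` over integers `≤ T ^ (1 / 64)` and all real `j ≥ 1` the sum of `|R(t)|²`
  over the zeros `t` of `Z` in `(T, T + K]` with at least `j` zeros of `Z` at distance
  `≤ 1 / log T` (everything counted with multiplicity) is at most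
  `C exp (- c j log j) K log T ∑ |r(n)|²`.
* For every `λ` there is a `C` such that for all large `T` and all such `K`, `R` the sum of
  `exp (λ n(t)) |R(t)|²` over the zeros `t` of `Z` in `(T, T + K]`, `n(t)` the number of zeros of `Z`
  at distance `≤ 1 / log T` from `t`, is at most `C K log T ∑ |r(n)|²`.
* There are `c > 0`, `C` such that for all `j ≥ 1` and `T ≥ 2` the zeros of `Z` in `(0, T]` of
  multiplicity at least `j`, counted with multiplicity, number at most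
  `C exp (- c j log j) T log T`.
* For every `λ` there is a `C` such that for all `T ≥ 2` the sum of `m exp (λ m)` over the distinct
  zeros of `Z` in `(0, T]`, `m` the multiplicity, is at most `C T log T`. -/
theorem high_multiplicities_rh (hRH : RiemannHypothesis) :
    (∀ T : ℝ, (zeros 0 T).Finite) ∧
    (∃ c C T₀ : ℝ, 0 < c ∧ ∀ T : ℝ, T₀ ≤ T → ∀ K : ℝ, T ^ (63 / 64 : ℝ) ≤ K → K ≤ T / 2 →
      ∀ S : Finset ℕ, (∀ n ∈ S, 1 ≤ n ∧ (n : ℝ) ≤ T ^ (1 / 64 : ℝ)) → ∀ r : ℕ → ℂ,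
      ∀ j : ℝ, 1 ≤ j →
      ∑ᶠ t ∈ {t : ℝ | t ∈ zeros T (T + K) ∧ j ≤ near T t}, (mlt t : ℝ) * ‖R S r t‖ ^ 2 ≤
        C * Real.exp (-(c * (j * Real.log j))) * (K * Real.log T * ∑ n ∈ S, ‖r n‖ ^ 2)) ∧
    (∀ lam : ℝ, ∃ C T₀ : ℝ, ∀ T : ℝ, T₀ ≤ T → ∀ K : ℝ, T ^ (63 / 64 : ℝ) ≤ K → K ≤ T / 2 →
      ∀ S : Finset ℕ, (∀ n ∈ S, 1 ≤ n ∧ (n : ℝ) ≤ T ^ (1 / 64 : ℝ)) → ∀ r : ℕ → ℂ,
      ∑ᶠ t ∈ zeros T (T + K), (mlt t : ℝ) * (Real.exp (lam * near T t) * ‖R S r t‖ ^ 2) ≤
        C * (K * Real.log T * ∑ n ∈ S, ‖r n‖ ^ 2)) ∧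
    (∃ c C : ℝ, 0 < c ∧ ∀ j : ℕ, 1 ≤ j → ∀ T : ℝ, 2 ≤ T →
      ∑ᶠ t ∈ {t : ℝ | t ∈ zeros 0 T ∧ j ≤ mlt t}, (mlt t : ℝ) ≤
        C * Real.exp (-(c * (j * Real.log j))) * (T * Real.log T)) ∧
    (∀ lam : ℝ, ∃ C : ℝ, ∀ T : ℝ, 2 ≤ T →
      ∑ᶠ t ∈ zeros 0 T, (mlt t : ℝ) * Real.exp (lam * mlt t) ≤ C * (T * Real.log T)) := by
  obtain ⟨c, C, T0, hc, hC, hT0, hW⟩ := J4.H45.MT.wt_rh hRH
  have e63 : (1 - 1 / 64 : ℝ) = 63 / 64 := by norm_num
  have hψ : ∀ x : ℝ, 0 < Real.exp (-(c * (x * Real.log x))) := fun x => Real.exp_pos _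
  obtain ⟨C', hC', htot⟩ := J4.H45.MT.fj_total (by norm_num) (by norm_num) hT0 hC hψ
    (J4.H45.MT.psi_rh hc) hW
  refine ⟨J4.H45.MT.zs_finite, ⟨c, C, T0, hc, ?_⟩, ?_, ⟨c, C', hc, ?_⟩, ?_⟩
  · intro T hT K hK1 hK2 S hS r j hj
    rw [← e63] at hK1
    have h := J4.H45.MT.tail_z hT0 hW hT hK1 hK2 hS r hj
      {t : ℝ | t ∈ zeros T (T + K) ∧ j ≤ near T t} (fun t ht => ht.1) (fun t ht => by
        rw [← J4.H45.MT.nr_eq hRH (hT0.trans hT) ht.1.1]
        exact ht.2)
    simp only [← J4.H45.MT.RP_eq hS] at h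
    exact h
  · intro lam
    have hs := J4.H45.MT.summ_rh (C := C) hc lam
    refine ⟨∑' i : ℕ, Real.exp (lam * i) * (C * Real.exp (-(c * ((i : ℝ) * Real.log i)))), T0,
      fun T hT K hK1 hK2 S hS r => ?_⟩
    rw [← e63] at hK1
    have h := J4.H45.MT.exp_z hT0 (fun x => (mul_pos hC (hψ x)).le) hW hs hT hK1 hK2 hS r
    simp only [← J4.H45.MT.RP_eq hS] at h
    refine le_trans (le_of_eq ?_) h
    refine finsum_mem_congr rfl fun t ht => ?_
    have e := J4.H45.MT.nr_eq hRH (hT0.trans hT) ht.1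
    have e2 : near T t = J4.H45.MT.nr T t := rfl
    rw [e2, e]
    rfl
  · intro j hj T hT
    exact J4.H45.MT.tail_all (ψ := fun x => Real.exp (-(c * (x * Real.log x)))) htot hj hT
  · intro lam
    have hs := J4.H45.MT.summ_rh (C := C') hc lam
    exact ⟨∑' i : ℕ, Real.exp (lam * i) * (C' * Real.exp (-(c * ((i : ℝ) * Real.log i)))),
      fun T hT => J4.H45.MT.exp_all (ψ := fun x => Real.exp (-(c * (x * Real.log x)))) hC' hψ
        htot hs hT⟩

end Pool.Agent.J4.H45.MT.HighRH
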