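import Mathlib

/-!
# A positive band-limited kernel that decays like `1 / x ^ 2`

`K1 z` is the Fourier transform of `max 0 (1 - |u|) * exp (- |u|)`.
-/

open Complex Filter Topology Set MeasureTheory
open scoped BigOperators ComplexConjugate

namespace Pool.Agent.J4.H45.MT

/-- the density on `[-1, 1]` -/
noncomputable def dn (u : ℝ) : ℝ := max 0 (1 - |u|) * Real.exp (-|u|)

lemma dn_cont : Continuous dn := by unfold dn; fun_prop

lemma dn_nonneg (u : ℝ) : 0 ≤ dn u := mul_nonneg (le_max_left _ _) (Real.exp_pos _).le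

lemma dn_le_tri (u : ℝ) : dn u ≤ max 0 (1 - |u|) := by
  unfold dn
  have h1 : Real.exp (-|u|) ≤ 1 := Real.exp_le_one_iff.2 (by linarith [abs_nonneg u])
  exact mul_le_of_le_one_right (le_max_left _ _) h1

lemma dn_le (u : ℝ) : dn u ≤ 1 :=
  (dn_le_tri u).trans (max_le (by norm_num) (by linarith [abs_nonneg u]))

lemma dn_zero {u : ℝ} (h : 1 ≤ |u|) : dn u = 0 := by
  unfold dn
  rw [max_eq_left (by linarith), zero_mul]

lemma dn_even (u : ℝ) : dn (-u) = dn u := by unfold dn; rw [abs_neg]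

lemma dn_pos_eq {u : ℝ} (h0 : 0 ≤ u) (h1 : u ≤ 1) : dn u = (1 - u) * Real.exp (-u) := by
  unfold dn
  rw [abs_of_nonneg h0, max_eq_right (by linarith)]

/-- the kernel -/
noncomputable def K1 (z : ℂ) : ℂ := ∫ u : ℝ, (dn u : ℂ) * cexp (I * u * z)

lemma dn_supp (g : ℝ → ℂ) : Function.support (fun u : ℝ => (dn u : ℂ) * g u) ⊆ Ioc (-1) 1 := by
  intro u hu
  by_contra hc
  apply hu
  show (dn u : ℂ) * g u = 0
  have : 1 ≤ |u| := by
    by_contra h
    push Not at h
    rw [abs_lt] at h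
    exact hc ⟨h.1, h.2.le⟩
  rw [dn_zero this, ofReal_zero, zero_mul]

lemma K1_interval (z : ℂ) : K1 z = ∫ u in (0 : ℝ)..1, ((1 - u : ℝ) : ℂ) *
    (cexp (u * (-1 + I * z)) + cexp (u * (-1 - I * z))) := by
  have hc : Continuous (fun u : ℝ => (dn u : ℂ) * cexp (I * u * z)) := by
    have := dn_cont
    fun_prop
  have h1 : K1 z = ∫ u in (-1 : ℝ)..1, (dn u : ℂ) * cexp (I * u * z) := by
    rw [intervalIntegral.integral_eq_integral_of_support_subset (dn_supp _)]
    rfl
  have h2 : ∫ u in (-1 : ℝ)..1, (dn u : ℂ) * cexp (I * u * z) =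
      (∫ u in (-1 : ℝ)..0, (dn u : ℂ) * cexp (I * u * z)) +
      ∫ u in (0 : ℝ)..1, (dn u : ℂ) * cexp (I * u * z) :=
    (intervalIntegral.integral_add_adjacent_intervals (hc.intervalIntegrable _ _)
      (hc.intervalIntegrable _ _)).symm
  have h3 : ∫ u in (-1 : ℝ)..0, (dn u : ℂ) * cexp (I * u * z) =
      ∫ u in (0 : ℝ)..1, (dn (-u) : ℂ) * cexp (I * ((-u : ℝ) : ℂ) * z) := by
    have := intervalIntegral.integral_comp_neg (a := (0 : ℝ)) (b := 1)
      (fun u : ℝ => (dn u : ℂ) * cexp (I * u * z))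
    rw [this, neg_zero]
  rw [h1, h2, h3, ← intervalIntegral.integral_add]
  · refine intervalIntegral.integral_congr fun u hu => ?_
    rw [uIcc_of_le (by norm_num)] at hu
    simp only [dn_even, dn_pos_eq hu.1 hu.2]
    push_cast
    have e1 : cexp (u * (-1 + I * z)) = cexp (-u) * cexp (I * u * z) := by
      rw [← Complex.exp_add]; congr 1; ring
    have e2 : cexp (u * (-1 - I * z)) = cexp (-u) * cexp (I * -u * z) := by
      rw [← Complex.exp_add]; congr 1; ring
    rw [e1, e2]
    ring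
  · apply Continuous.intervalIntegrable
    have := dn_cont
    fun_prop
  · exact hc.intervalIntegrable _ _

/-- the closed form of the kernel -/
lemma K1_closed (z : ℂ) : (1 + z ^ 2) ^ 2 * K1 z = 4 * z ^ 2 +
    (-1 - I * z) ^ 2 * cexp (-1 + I * z) + (-1 + I * z) ^ 2 * cexp (-1 - I * z) := by
  rw [K1_interval, ← intervalIntegral.integral_const_mul]
  set p := -1 + I * z with hp
  set q := -1 - I * z with hq
  have hpq : 1 + z ^ 2 = p * q := by
    rw [hp, hq]
    have : (-1 + I * z) * (-1 - I * z) = 1 - I ^ 2 * z ^ 2 := by ring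
    rw [this, Complex.I_sq]
    ring
  have hd : ∀ u : ℝ, HasDerivAt (fun u : ℝ => q ^ 2 * (((1 - u : ℝ) : ℂ) * p + 1) * cexp (u * p) +
      p ^ 2 * (((1 - u : ℝ) : ℂ) * q + 1) * cexp (u * q))
      ((1 + z ^ 2) ^ 2 * (((1 - u : ℝ) : ℂ) * (cexp (u * p) + cexp (u * q)))) u := by
    intro u
    have a1 : HasDerivAt (fun u : ℝ => ((1 - u : ℝ) : ℂ)) (-1) u := by
      have := ((hasDerivAt_id u).const_sub 1).ofReal_comp
      simpa using this
    have a2 : ∀ c : ℂ, HasDerivAt (fun u : ℝ => cexp (u * c)) (cexp (u * c) * c) u := by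
      intro c
      have b1 : HasDerivAt (fun u : ℝ => (u : ℂ) * c) (1 * c) u :=
        (Complex.ofRealCLM.hasDerivAt (x := u)).mul_const c
      rw [one_mul] at b1
      exact b1.cexp
    have a3 := (((a1.mul_const p).add_const 1).const_mul (q ^ 2)).mul (a2 p)
    have a4 := (((a1.mul_const q).add_const 1).const_mul (p ^ 2)).mul (a2 q)
    refine (a3.add a4).congr_deriv ?_
    rw [hpq]
    ring
  rw [intervalIntegral.integral_eq_sub_of_hasDerivAt (fun u _ => hd u)]
  · have e1 : p + q = -2 := by rw [hp, hq]; ring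
    have e2 : q ^ 2 * (p + 1) + p ^ 2 * (q + 1) = -4 * z ^ 2 := by
      have : q ^ 2 * (p + 1) + p ^ 2 * (q + 1) = (p * q) * (p + q) + (p + q) ^ 2 - 2 * (p * q) := by
        ring
      rw [this, e1, ← hpq]
      ring
    simp only [sub_self, ofReal_zero, zero_mul, zero_add, mul_one, sub_zero, ofReal_one, one_mul,
      Complex.exp_zero]
    linear_combination (-1 : ℂ) * e2
  · apply Continuous.intervalIntegrable
    fun_prop

lemma integral_tri : ∫ u : ℝ, max 0 (1 - |u|) = 1 := by
  have h1 : ∫ u : ℝ, max 0 (1 - |u|) = ∫ u in (-1 : ℝ)..1, max 0 (1 - |u|) := by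
    rw [intervalIntegral.integral_eq_integral_of_support_subset]
    intro u hu
    by_contra hc
    apply hu
    show max 0 (1 - |u|) = 0
    have : 1 ≤ |u| := by
      by_contra h
      push Not at h
      rw [abs_lt] at h
      exact hc ⟨h.1, h.2.le⟩
    exact max_eq_left (by linarith)
  have hc : Continuous (fun u : ℝ => max 0 (1 - |u|)) := by fun_prop
  rw [h1, ← intervalIntegral.integral_add_adjacent_intervals (b := 0) (hc.intervalIntegrable _ _)
    (hc.intervalIntegrable _ _)]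
  have h3 : ∫ u in (-1 : ℝ)..0, max 0 (1 - |u|) = ∫ u in (0 : ℝ)..1, max 0 (1 - |u|) := by
    have := intervalIntegral.integral_comp_neg (a := (0 : ℝ)) (b := 1)
      (fun u : ℝ => max 0 (1 - |u|))
    simp only [abs_neg, neg_zero] at this
    exact this.symm
  have h4 : ∫ u in (0 : ℝ)..1, max 0 (1 - |u|) = ∫ u in (0 : ℝ)..1, (1 - u) := by
    refine intervalIntegral.integral_congr fun u hu => ?_
    rw [uIcc_of_le (by norm_num)] at hu
    show max 0 (1 - |u|) = 1 - u
    rw [abs_of_nonneg hu.1, max_eq_right (by linarith [hu.2])]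
  rw [h3, h4]
  rw [intervalIntegral.integral_sub (by simp) (by simp)]
  simp
  norm_num

lemma tri_int : Integrable (fun u : ℝ => max 0 (1 - |u|)) := by
  by_contra h
  have := integral_undef h
  rw [integral_tri] at this
  norm_num at this

lemma dn_int : Integrable dn := by
  refine tri_int.mono' dn_cont.aestronglyMeasurable (Eventually.of_forall fun u => ?_)
  rw [Real.norm_of_nonneg (dn_nonneg u)]
  exact dn_le_tri u

lemma integral_dn_le : ∫ u : ℝ, dn u ≤ 1 := by
  rw [← integral_tri]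
  exact integral_mono dn_int tri_int dn_le_tri

lemma integral_dn_sq_le : ∫ u : ℝ, dn u ^ 2 ≤ 1 := by
  refine le_trans ?_ integral_dn_le
  have h : ∀ u, dn u ^ 2 ≤ dn u := fun u => by nlinarith [dn_nonneg u, dn_le u]
  refine integral_mono_of_nonneg (Eventually.of_forall fun u => sq_nonneg _) dn_int
    (Eventually.of_forall h)

/-- the trivial bound -/
lemma K1_triv (z : ℂ) : ‖K1 z‖ ≤ Real.exp |z.im| := by
  unfold K1
  calc ‖∫ u : ℝ, (dn u : ℂ) * cexp (I * u * z)‖ ≤ ∫ u : ℝ, dn u * Real.exp |z.im| := by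
        refine norm_integral_le_of_norm_le (dn_int.mul_const _) (Eventually.of_forall fun u => ?_)
        rw [norm_mul, Complex.norm_real, Real.norm_of_nonneg (dn_nonneg u), Complex.norm_exp]
        by_cases hu : 1 ≤ |u|
        · rw [dn_zero hu, zero_mul, zero_mul]
        · push Not at hu
          refine mul_le_mul_of_nonneg_left (Real.exp_le_exp.2 ?_) (dn_nonneg u)
          have e : (I * u * z).re = -(u * z.im) := by
            simp [Complex.mul_re, Complex.mul_im]
          rw [e]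
          calc -(u * z.im) ≤ |u * z.im| := neg_le_abs _
            _ = |u| * |z.im| := abs_mul _ _
            _ ≤ 1 * |z.im| := mul_le_mul_of_nonneg_right hu.le (abs_nonneg _)
            _ = _ := one_mul _
    _ = (∫ u : ℝ, dn u) * Real.exp |z.im| := integral_mul_const _ _
    _ ≤ 1 * Real.exp |z.im| := mul_le_mul_of_nonneg_right integral_dn_le (Real.exp_pos _).le
    _ = _ := one_mul _

/-- the decay of the kernel -/
lemma K1_bound (z : ℂ) : ‖K1 z‖ ≤ 10 * Real.exp |z.im| / (1 + z.re ^ 2) := by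
  have he := Real.exp_pos |z.im|
  rw [le_div_iff₀ (by positivity)]
  by_cases hx : z.re ^ 2 ≤ 1
  · have h := K1_triv z
    have h0 := norm_nonneg (K1 z)
    calc ‖K1 z‖ * (1 + z.re ^ 2) ≤ Real.exp |z.im| * 2 := by
          apply mul_le_mul h (by linarith) (by positivity) he.le
      _ ≤ _ := by linarith
  · push Not at hx
    set x := z.re with hxd
    set y := z.im with hyd
    set M : ℝ := (1 + |y|) ^ 2 + x ^ 2 with hM
    have hM0 : 0 < M := by positivity
    have hza : ‖z‖ ^ 2 = x ^ 2 + y ^ 2 := by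
      rw [Complex.sq_norm, Complex.normSq_apply]; ring
    have hq1 : ‖(-1 + I * z)‖ ^ 2 = (1 + y) ^ 2 + x ^ 2 := by
      rw [Complex.sq_norm, Complex.normSq_apply]
      simp
      ring
    have hq2 : ‖(-1 - I * z)‖ ^ 2 = (1 - y) ^ 2 + x ^ 2 := by
      rw [Complex.sq_norm, Complex.normSq_apply]
      simp
      ring
    have hy2 : y ^ 2 = |y| ^ 2 := (sq_abs y).symm
    have hya := abs_nonneg y
    have hyl := le_abs_self y
    have hyn := neg_abs_le y
    have b1 : ‖(-1 + I * z)‖ ^ 2 ≤ M := by rw [hq1, hM]; nlinarith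
    have b2 : ‖(-1 - I * z)‖ ^ 2 ≤ M := by rw [hq2, hM]; nlinarith
    have b3 : ‖z‖ ^ 2 ≤ M := by rw [hza, hM]; nlinarith
    -- the lower bound for the denominator
    have c1 : x ^ 2 * M ≤ ‖(1 + z ^ 2)‖ ^ 2 := by
      have e : 1 + z ^ 2 = (-1 + I * z) * (-1 - I * z) := by
        have : (-1 + I * z) * (-1 - I * z) = 1 - I ^ 2 * z ^ 2 := by ring
        rw [this, Complex.I_sq]
        ring
      rw [e, norm_mul, mul_pow, hq1, hq2, hM]
      rcases abs_cases y with ⟨h1, h2⟩ | ⟨h1, h2⟩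
      · rw [h1]
        have : 0 ≤ (1 - y) ^ 2 * ((1 + y) ^ 2 + x ^ 2) := by positivity
        nlinarith
      · rw [h1]
        have : 0 ≤ (1 + y) ^ 2 * ((1 - y) ^ 2 + x ^ 2) := by positivity
        nlinarith
    have e1 : ‖cexp (-1 + I * z)‖ ≤ Real.exp |y| * 0.37 := by
      rw [Complex.norm_exp]
      have : (-1 + I * z).re = -y + (-1) := by simp; ring
      rw [this, Real.exp_add]
      have h5 : Real.exp (-1) ≤ 0.37 := by
        have := Real.exp_neg_one_lt_d9
        linarith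
      have h6 : Real.exp (-y) ≤ Real.exp |y| := Real.exp_le_exp.2 (by linarith)
      exact mul_le_mul h6 h5 (Real.exp_pos _).le he.le
    have e2 : ‖cexp (-1 - I * z)‖ ≤ Real.exp |y| * 0.37 := by
      rw [Complex.norm_exp]
      have : (-1 - I * z).re = y + (-1) := by simp; ring
      rw [this, Real.exp_add]
      have h5 : Real.exp (-1) ≤ 0.37 := by
        have := Real.exp_neg_one_lt_d9
        linarith
      have h6 : Real.exp y ≤ Real.exp |y| := Real.exp_le_exp.2 (by linarith)
      exact mul_le_mul h6 h5 (Real.exp_pos _).le he.le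
    have hE1 : 1 ≤ Real.exp |y| := Real.one_le_exp hya
    have num : ‖(1 + z ^ 2) ^ 2 * K1 z‖ ≤ 4.74 * Real.exp |y| * M := by
      rw [K1_closed]
      calc ‖4 * z ^ 2 + (-1 - I * z) ^ 2 * cexp (-1 + I * z) +
          (-1 + I * z) ^ 2 * cexp (-1 - I * z)‖ ≤
          ‖4 * z ^ 2‖ + ‖(-1 - I * z) ^ 2 * cexp (-1 + I * z)‖ +
          ‖(-1 + I * z) ^ 2 * cexp (-1 - I * z)‖ := norm_add₃_le
        _ ≤ 4 * M + M * (Real.exp |y| * 0.37) + M * (Real.exp |y| * 0.37) := by
            rw [norm_mul, norm_mul, norm_mul, norm_pow, norm_pow, norm_pow]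
            have h4 : ‖(4 : ℂ)‖ = 4 := by simp
            rw [h4]
            gcongr
        _ ≤ _ := by nlinarith
    rw [norm_mul, norm_pow] at num
    have h0 := norm_nonneg (K1 z)
    have h7 : x ^ 2 * M * ‖K1 z‖ ≤ 4.74 * Real.exp |y| * M :=
      (mul_le_mul_of_nonneg_right c1 h0).trans num
    have h8 : x ^ 2 * ‖K1 z‖ ≤ 4.74 * Real.exp |y| := by
      have : (x ^ 2 * ‖K1 z‖) * M ≤ (4.74 * Real.exp |y|) * M := by linarith
      exact le_of_mul_le_mul_right this hM0
    nlinarith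

/-- the lower bound on the real line -/
lemma K1_lower (x : ℝ) : 0.2 / (1 + x ^ 2) ≤ (K1 x).re := by
  have hx0 := sq_nonneg x
  have h1 : (1 + x ^ 2) ^ 2 * (K1 x).re = 4 * x ^ 2 +
      2 * (Real.exp (-1) * ((1 - x ^ 2) * Real.cos x - 2 * x * Real.sin x)) := by
    have h := congrArg Complex.re (K1_closed (x : ℂ))
    have e0 : (1 + (x : ℂ) ^ 2) ^ 2 = (((1 + x ^ 2) ^ 2 : ℝ) : ℂ) := by push_cast; ring
    rw [e0, Complex.re_ofReal_mul] at h
    rw [h]
    have e1 : cexp (-1 + I * (x : ℂ)) = (Real.exp (-1) : ℂ) * (Real.cos x + Real.sin x * I) := by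
      rw [Complex.exp_add, mul_comm I, Complex.exp_mul_I]
      push_cast
      ring
    have e2 : cexp (-1 - I * (x : ℂ)) = (Real.exp (-1) : ℂ) * (Real.cos x - Real.sin x * I) := by
      rw [sub_eq_add_neg, Complex.exp_add, show -(I * (x : ℂ)) = ((-x : ℝ) : ℂ) * I by
        push_cast; ring, Complex.exp_mul_I]
      push_cast
      rw [Complex.cos_neg, Complex.sin_neg]
      ring
    rw [e1, e2]
    have e3 : 4 * (x : ℂ) ^ 2 + (-1 - I * x) ^ 2 * ((Real.exp (-1) : ℂ) *
        (Real.cos x + Real.sin x * I)) + (-1 + I * x) ^ 2 * ((Real.exp (-1) : ℂ) *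
        (Real.cos x - Real.sin x * I)) =
        ((4 * x ^ 2 + 2 * (Real.exp (-1) * ((1 - x ^ 2) * Real.cos x - 2 * x * Real.sin x)) : ℝ) :
          ℂ) := by
      have i2 : I ^ 2 = -1 := Complex.I_sq
      push_cast
      linear_combination ((Complex.exp (-1)) * (2 * x ^ 2 * Complex.cos x +
        4 * x * Complex.sin x)) * i2
    rw [e3, Complex.ofReal_re]
  have hp : 0 < 1 + x ^ 2 := by positivity
  rw [div_le_iff₀ hp]
  have key : 0.2 * (1 + x ^ 2) ≤ (1 + x ^ 2) ^ 2 * (K1 x).re := by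
    rw [h1]
    have he1 : Real.exp (-1) ≤ 0.3679 := by
      have := Real.exp_neg_one_lt_d9
      linarith
    have he2 : 0.3678 ≤ Real.exp (-1) := by
      have := Real.exp_neg_one_gt_d9
      linarith
    by_cases hx : 0.31 ≤ x ^ 2
    · -- Cauchy-Schwarz
      have h2 : -(1 + x ^ 2) ≤ (1 - x ^ 2) * Real.cos x - 2 * x * Real.sin x := by
        have hcs : ((1 - x ^ 2) * Real.cos x - 2 * x * Real.sin x) ^ 2 ≤ (1 + x ^ 2) ^ 2 := by
          have h3 := Real.sin_sq_add_cos_sq x
          have h4 : (1 + x ^ 2) ^ 2 - ((1 - x ^ 2) * Real.cos x - 2 * x * Real.sin x) ^ 2 =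
              ((1 - x ^ 2) * Real.sin x + 2 * x * Real.cos x) ^ 2 +
              (1 + x ^ 2) ^ 2 * (1 - (Real.sin x ^ 2 + Real.cos x ^ 2)) := by ring
          rw [h3] at h4
          nlinarith [sq_nonneg ((1 - x ^ 2) * Real.sin x + 2 * x * Real.cos x)]
        exact (abs_le_of_sq_le_sq' hcs hp.le).1
      nlinarith
    · push Not at hx
      have h2 : 1 - x ^ 2 / 2 ≤ Real.cos x := Real.one_sub_sq_div_two_le_cos
      have h3 : x * Real.sin x ≤ x ^ 2 := by
        rcases le_total 0 x with h | h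
        · have := Real.sin_le h
          nlinarith
        · have := Real.le_sin h
          nlinarith
      have h4 : (1 - x ^ 2) * (1 - x ^ 2 / 2) - 2 * x ^ 2 ≤
          (1 - x ^ 2) * Real.cos x - 2 * x * Real.sin x := by
        have h5 : (1 - x ^ 2) * (1 - x ^ 2 / 2) ≤ (1 - x ^ 2) * Real.cos x :=
          mul_le_mul_of_nonneg_left h2 (by linarith)
        nlinarith
      have h6 : (1 - 3.5 * x ^ 2) ≤ (1 - x ^ 2) * Real.cos x - 2 * x * Real.sin x := by
        refine le_trans ?_ h4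
        nlinarith [sq_nonneg (x ^ 2)]
      have h7 : Real.exp (-1) * (1 - 3.5 * x ^ 2) ≤
          Real.exp (-1) * ((1 - x ^ 2) * Real.cos x - 2 * x * Real.sin x) :=
        mul_le_mul_of_nonneg_left h6 (Real.exp_pos _).le
      nlinarith
  have h9 : 0.2 * (1 + x ^ 2) ≤ ((K1 x).re * (1 + x ^ 2)) * (1 + x ^ 2) := by
    refine key.trans (le_of_eq ?_)
    ring
  exact le_of_mul_le_mul_right h9 hp

end Pool.Agent.J4.H45.MT
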